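import Mathlib

/-!
# Large orbits of pointwise stabilizers give the full symmetric group on a set of `k` points
-/

namespace PR12.Tup51

open Equiv Finset

variable {Ω : Type*} [Fintype Ω] [DecidableEq Ω]

open Classical in
/-- the orbit of `x` under the pointwise stabilizer of `B` in `P` -/
noncomputable def Orb (P : Subgroup (Perm Ω)) (B : Finset Ω) (x : Ω) : Finset Ω :=
  univ.filter (fun y => ∃ g ∈ P, (∀ b ∈ B, g b = b) ∧ g x = y)

theorem mem_Orb {P : Subgroup (Perm Ω)} {B : Finset Ω} {x y : Ω} :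
    y ∈ Orb P B x ↔ ∃ g ∈ P, (∀ b ∈ B, g b = b) ∧ g x = y := by
  simp only [Orb, Finset.mem_filter, Finset.mem_univ, true_and]

theorem Orb_eq {P : Subgroup (Perm Ω)} {B : Finset Ω} {x y : Ω} (h : y ∈ Orb P B x) :
    Orb P B y = Orb P B x := by
  obtain ⟨g, hg, hgB, hgx⟩ := mem_Orb.mp h
  ext z
  rw [mem_Orb, mem_Orb]
  constructor
  · rintro ⟨r, hr, hrB, hrz⟩
    refine ⟨r * g, P.mul_mem hr hg, fun b hb => ?_, ?_⟩
    · rw [Perm.mul_apply, hgB b hb, hrB b hb]
    · rw [Perm.mul_apply, hgx, hrz]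
  · rintro ⟨r, hr, hrB, hrz⟩
    refine ⟨r * g⁻¹, P.mul_mem hr (P.inv_mem hg), fun b hb => ?_, ?_⟩
    · rw [Perm.mul_apply, Perm.inv_eq_iff_eq.mpr (hgB b hb).symm, hrB b hb]
    · rw [Perm.mul_apply, Perm.inv_eq_iff_eq.mpr hgx.symm, hrz]

theorem Orb_map {P : Subgroup (Perm Ω)} {B B' : Finset Ω} {x : Ω} {g : Perm Ω} (hg : g ∈ P)
    (hB : ∀ b' ∈ B', ∃ b ∈ B, g b = b') :
    (Orb P B x).card ≤ (Orb P B' (g x)).card := by
  refine Finset.card_le_card_of_injOn g ?_ g.injective.injOn
  intro y hy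
  obtain ⟨r, hr, hrB, hry⟩ := mem_Orb.mp hy
  rw [Finset.mem_coe, mem_Orb]
  refine ⟨g * r * g⁻¹, P.mul_mem (P.mul_mem hg hr) (P.inv_mem hg), ?_, ?_⟩
  · intro b' hb'
    obtain ⟨b, hb, rfl⟩ := hB b' hb'
    rw [Perm.mul_apply, Perm.mul_apply, Perm.inv_eq_iff_eq.mpr rfl, hrB b hb]
  · rw [Perm.mul_apply, Perm.mul_apply, Perm.inv_eq_iff_eq.mpr rfl, hry]

/-- the orbit of `x` is big -/
def Big (P : Subgroup (Perm Ω)) (k : ℕ) (B : Finset Ω) (x : Ω) : Prop :=
  (2 * k - 1) * Fintype.card Ω < 2 * k * (Orb P B x).card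

theorem Big_meet {P : Subgroup (Perm Ω)} {k : ℕ} (hk : 1 ≤ k) {B : Finset Ω} {x y : Ω}
    (hx : Big P k B x) (hy : Big P k B y) : y ∈ Orb P B x := by
  unfold Big at hx hy
  have hne : ¬ Disjoint (Orb P B x) (Orb P B y) := by
    intro hd
    have h1 := Finset.card_union_of_disjoint hd
    have h2 := Finset.card_le_univ (Orb P B x ∪ Orb P B y)
    rw [h1] at h2
    obtain ⟨m, rfl⟩ : ∃ m, k = m + 1 := ⟨k - 1, by omega⟩
    have e : 2 * (m + 1) - 1 = 2 * m + 1 := by omega
    rw [e] at hx hy
    have h3 : 2 * (m + 1) * ((Orb P B x).card + (Orb P B y).card) ≤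
        2 * (m + 1) * Fintype.card Ω := Nat.mul_le_mul_left _ h2
    nlinarith
  rw [Finset.not_disjoint_iff] at hne
  obtain ⟨z, hzx, hzy⟩ := hne
  have h1 := Orb_eq hzx
  have h2 := Orb_eq hzy
  rw [← h1, h2, mem_Orb]
  exact ⟨1, P.one_mem, fun b _ => rfl, rfl⟩

/-- tuples chosen one after the other in the big orbits -/
def Good (P : Subgroup (Perm Ω)) (k : ℕ) : (m : ℕ) → (Fin m → Ω) → Prop
  | 0, _ => True
  | m + 1, a => Good P k m (fun i => a i.succ) ∧
      Big P k (univ.image (fun i : Fin m => a i.succ)) (a 0)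

theorem Good_one_orbit {P : Subgroup (Perm Ω)} {k : ℕ} (hk : 1 ≤ k) : ∀ (m : ℕ)
    (a a' : Fin m → Ω), Good P k m a → Good P k m a' → ∃ g ∈ P, ∀ i, g (a i) = a' i
  | 0, _, _, _, _ => ⟨1, P.one_mem, fun i => i.elim0⟩
  | m + 1, a, a', ha, ha' => by
    obtain ⟨g, hg, hga⟩ := Good_one_orbit hk m _ _ ha.1 ha'.1
    have h1 : Big P k (univ.image (fun i : Fin m => a' i.succ)) (g (a 0)) := by
      have h0 := ha.2
      unfold Big at h0 ⊢
      refine h0.trans_le (Nat.mul_le_mul_left _ (Orb_map hg ?_))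
      intro b' hb'
      rw [Finset.mem_image] at hb'
      obtain ⟨i, _, rfl⟩ := hb'
      exact ⟨a i.succ, Finset.mem_image_of_mem _ (Finset.mem_univ i), hga i⟩
    obtain ⟨r, hr, hrB, hra⟩ := mem_Orb.mp (Big_meet hk h1 ha'.2)
    refine ⟨r * g, P.mul_mem hr hg, fun i => ?_⟩
    rw [Perm.mul_apply]
    refine Fin.cases ?_ (fun j => ?_) i
    · exact hra
    · rw [hga j]
      exact hrB _ (Finset.mem_image_of_mem _ (Finset.mem_univ j))

theorem Good_inj {P : Subgroup (Perm Ω)} {k : ℕ} (hk : 1 ≤ k) (hn : 2 ≤ Fintype.card Ω) :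
    ∀ (m : ℕ) (a : Fin m → Ω), Good P k m a → Function.Injective a
  | 0, _, _ => fun i => i.elim0
  | m + 1, a, ha => by
    have h1 := Good_inj hk hn m _ ha.1
    have h2 : ∀ i : Fin m, a 0 ≠ a i.succ := by
      intro i hi
      have h3 := ha.2
      unfold Big at h3
      have h4 : Orb P (univ.image (fun i : Fin m => a i.succ)) (a 0) ⊆ {a 0} := by
        intro y hy
        obtain ⟨g, _, hgB, hgy⟩ := mem_Orb.mp hy
        have h5 : a 0 ∈ univ.image (fun i : Fin m => a i.succ) := by
          rw [hi]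
          exact Finset.mem_image_of_mem _ (Finset.mem_univ i)
        rw [Finset.mem_singleton, ← hgy, hgB _ h5]
      have h6 := Finset.card_le_card h4
      rw [Finset.card_singleton] at h6
      obtain ⟨l, rfl⟩ : ∃ l, k = l + 1 := ⟨k - 1, by omega⟩
      have e : 2 * (l + 1) - 1 = 2 * l + 1 := by omega
      rw [e] at h3
      nlinarith
    intro i j
    refine Fin.cases ?_ (fun i => ?_) i <;> refine Fin.cases ?_ (fun j => ?_) j
    · intro _; rfl
    · intro h; exact absurd h (h2 j)
    · intro h; exact absurd h.symm (h2 i)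
    · intro h
      rw [h1 h]

open Classical in
theorem Good_count {P : Subgroup (Perm Ω)} {k : ℕ} (hk : 1 ≤ k)
    (H : ∀ B : Finset Ω, B.card < k → ∃ x, Big P k B x) (hn : 1 ≤ Fintype.card Ω) :
    ∀ m : ℕ, m ≤ k → ((2 * k - 1) * Fintype.card Ω) ^ m ≤
      (univ.filter (fun a : Fin m → Ω => Good P k m a)).card * (2 * k) ^ m ∧
      (1 ≤ m → ((2 * k - 1) * Fintype.card Ω) ^ m <
      (univ.filter (fun a : Fin m → Ω => Good P k m a)).card * (2 * k) ^ m)
  | 0, _ => by
    refine ⟨?_, fun h => absurd h (by norm_num)⟩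
    rw [pow_zero, pow_zero, mul_one]
    have : 0 < (univ.filter (fun a : Fin 0 → Ω => Good P k 0 a)).card := by
      rw [Finset.card_pos]
      exact ⟨fun i => i.elim0, by rw [Finset.mem_filter]; exact ⟨Finset.mem_univ _, trivial⟩⟩
    exact this
  | m + 1, hm => by
    obtain ⟨ih, -⟩ := Good_count hk H hn m (by omega)
    set s := univ.filter (fun a : Fin (m + 1) → Ω => Good P k (m + 1) a) with hs
    set t := univ.filter (fun a : Fin m → Ω => Good P k m a) with ht
    have hmaps : ∀ a ∈ s, (fun i : Fin m => a i.succ) ∈ t := by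
      intro a ha
      rw [hs, Finset.mem_filter] at ha
      rw [ht, Finset.mem_filter]
      exact ⟨Finset.mem_univ _, ha.2.1⟩
    have hcard : s.card = ∑ b ∈ t, (s.filter (fun a => (fun i : Fin m => a i.succ) = b)).card :=
      Finset.card_eq_sum_card_fiberwise hmaps
    have hfib : ∀ b ∈ t, (2 * k - 1) * Fintype.card Ω <
        2 * k * (s.filter (fun a => (fun i : Fin m => a i.succ) = b)).card := by
      intro b hb
      rw [ht, Finset.mem_filter] at hb
      have hBk : (univ.image b).card < k := by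
        have := Finset.card_image_le (s := (univ : Finset (Fin m))) (f := b)
        rw [Finset.card_univ, Fintype.card_fin] at this
        omega
      obtain ⟨x, hx⟩ := H _ hBk
      have hle : (Orb P (univ.image b) x).card ≤
          (s.filter (fun a => (fun i : Fin m => a i.succ) = b)).card := by
        refine Finset.card_le_card_of_injOn (fun y => (Fin.cons y b : Fin (m + 1) → Ω)) ?_ ?_
        · intro y hy
          rw [Finset.mem_coe] at hy ⊢
          rw [Finset.mem_filter, hs, Finset.mem_filter]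
          refine ⟨⟨Finset.mem_univ _, ?_⟩, ?_⟩
          · refine ⟨hb.2, ?_⟩
            have : Big P k (univ.image b) y := by
              unfold Big at hx ⊢
              rw [Orb_eq hy]
              exact hx
            exact this
          · funext i
            simp
        · intro y _ y' _ h
          have := congrFun h 0
          simpa using this
      unfold Big at hx
      exact hx.trans_le (Nat.mul_le_mul_left _ hle)
    have htpos : t.Nonempty := by
      rw [← Finset.card_pos]
      by_contra h0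
      have h00 : t.card = 0 := by omega
      rw [h00, zero_mul] at ih
      have : 0 < ((2 * k - 1) * Fintype.card Ω) ^ m := by
        apply pow_pos
        apply Nat.mul_pos <;> omega
      omega
    have hlt : t.card * ((2 * k - 1) * Fintype.card Ω) < 2 * k * s.card := by
      rw [hcard, Finset.mul_sum, ← smul_eq_mul, ← Finset.sum_const]
      exact Finset.sum_lt_sum_of_nonempty htpos hfib
    have hfin : ((2 * k - 1) * Fintype.card Ω) ^ (m + 1) < s.card * (2 * k) ^ (m + 1) := by
      calc ((2 * k - 1) * Fintype.card Ω) ^ (m + 1)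
          = ((2 * k - 1) * Fintype.card Ω) ^ m * ((2 * k - 1) * Fintype.card Ω) := pow_succ _ _
        _ ≤ (t.card * (2 * k) ^ m) * ((2 * k - 1) * Fintype.card Ω) := Nat.mul_le_mul_right _ ih
        _ = (t.card * ((2 * k - 1) * Fintype.card Ω)) * (2 * k) ^ m := by ring
        _ < (2 * k * s.card) * (2 * k) ^ m :=
            Nat.mul_lt_mul_of_pos_right hlt (pow_pos (by omega) _)
        _ = s.card * (2 * k) ^ (m + 1) := by ring
    exact ⟨hfin.le, fun _ => hfin⟩

/-- if the pointwise stabilizer of every set of fewer than `k` points has a big orbit, then some tuple of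
`k` different points can be permuted arbitrarily -/
theorem sym_of_big {P : Subgroup (Perm Ω)} {k : ℕ} (hk : 1 ≤ k)
    (H : ∀ B : Finset Ω, B.card < k → ∃ x : Ω,
      (2 * k - 1) * Fintype.card Ω < 2 * k * (Orb P B x).card)
    (hn : 2 ≤ Fintype.card Ω) :
    ∃ a : Fin k → Ω, Function.Injective a ∧
      ∀ σ : Perm (Fin k), ∃ g ∈ P, ∀ i, g (a i) = a (σ i) := by
  classical
  have hc := (Good_count hk H (by omega) k le_rfl).2 hk
  set s := univ.filter (fun a : Fin k → Ω => Good P k k a) with hs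
  -- more than half of all tuples are good
  have hhalf : Fintype.card Ω ^ k < 2 * s.card := by
    have hb : (2 * k) ^ k ≤ 2 * (2 * k - 1) ^ k := by
      have h1 : (1 : ℝ) + (k : ℝ) * (-(1 / (2 * k))) ≤ (1 + -(1 / (2 * (k : ℝ)))) ^ k := by
        apply one_add_mul_le_pow
        have h2 : (1 : ℝ) ≤ k := by exact_mod_cast hk
        have : 1 / (2 * (k : ℝ)) ≤ 1 := by
          rw [div_le_one (by positivity)]
          linarith
        linarith
      have hk0 : (0 : ℝ) < k := by exact_mod_cast hk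
      have h2 : (1 : ℝ) + (k : ℝ) * (-(1 / (2 * k))) = 1 / 2 := by
        field_simp
        norm_num
      have h3 : (1 + -(1 / (2 * (k : ℝ)))) = (2 * k - 1) / (2 * k) := by
        field_simp
        ring
      rw [h2, h3, div_pow, le_div_iff₀ (by positivity)] at h1
      have h4 : ((2 * k : ℕ) : ℝ) ^ k ≤ 2 * ((2 * k - 1 : ℕ) : ℝ) ^ k := by
        rw [Nat.cast_sub (by omega)]
        push_cast
        linarith
      exact_mod_cast h4
    have h5 : (2 * k) ^ k * Fintype.card Ω ^ k < (2 * k) ^ k * (2 * s.card) := by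
      calc (2 * k) ^ k * Fintype.card Ω ^ k
          ≤ (2 * (2 * k - 1) ^ k) * Fintype.card Ω ^ k := Nat.mul_le_mul_right _ hb
        _ = 2 * ((2 * k - 1) * Fintype.card Ω) ^ k := by rw [mul_pow]; ring
        _ < 2 * (s.card * (2 * k) ^ k) := by omega
        _ = (2 * k) ^ k * (2 * s.card) := by ring
    exact lt_of_mul_lt_mul_left h5 (Nat.zero_le _)
  have hsne : s.Nonempty := by
    rw [← Finset.card_pos]
    omega
  obtain ⟨a, ha⟩ := hsne
  have haG : Good P k k a := (Finset.mem_filter.mp ha).2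
  refine ⟨a, Good_inj hk hn k a haG, ?_⟩
  intro σ
  -- the good tuples and their rearrangements meet
  have hinj : Function.Injective (fun b : Fin k → Ω => fun i => b (σ i)) := by
    intro b b' h
    funext i
    have := congrFun h (σ.symm i)
    simpa using this
  have hne : ¬ Disjoint s (s.image (fun b : Fin k → Ω => fun i => b (σ i))) := by
    intro hd
    have h1 := Finset.card_union_of_disjoint hd
    have h2 := Finset.card_le_univ (s ∪ s.image (fun b : Fin k → Ω => fun i => b (σ i)))
    rw [h1, Finset.card_image_of_injective _ hinj, Fintype.card_fun, Fintype.card_fin] at h2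
    omega
  rw [Finset.not_disjoint_iff] at hne
  obtain ⟨c, hc1, hc2⟩ := hne
  rw [Finset.mem_image] at hc2
  obtain ⟨b, hb, hbc⟩ := hc2
  obtain ⟨g1, hg1, hg1'⟩ := Good_one_orbit hk k a b haG (Finset.mem_filter.mp hb).2
  obtain ⟨g2, hg2, hg2'⟩ := Good_one_orbit hk k a c haG (Finset.mem_filter.mp hc1).2
  refine ⟨g1⁻¹ * g2, P.mul_mem (P.inv_mem hg1) hg2, fun i => ?_⟩
  rw [Perm.mul_apply, hg2' i, ← hbc, Perm.inv_eq_iff_eq, hg1' (σ i)]

end PR12.Tup51
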