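import Pool.Agent.PR12.Defs
import Pool.Agent.PR12.Tup51

/-!
# PR12/Big: large orbits of all small stabilizers give full symmetric groups on small sets
-/

namespace PR12

open Equiv

universe u

variable {Ω : Type u} [Fintype Ω]

/-- PROOF (Tup51). Call `f : Fin j → Ω` (`j ≤ k`) good if for every `i`, with `B_i = {f l | l < i}`: `(2k-1) n < 2k |orb G B_i (f i)|` (the orbit of this size is unique:
it has more than half of the points). (a) good tuples of length `j` form one orbit of `G`: induction on `j` (for two good tuples move the first `j-1` entries onto each other,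
then both last entries are in the unique big orbit). (b) `(2k)^j #good_j ≥ (2k-1)^j n^j`, strictly for `j ≥ 1` (induction; each good tuple has the same number, the size of the big orbit, of good extensions);
Bernoulli: `2 (2k-1)^k ≥ (2k)^k`, so more than half of all `k`-tuples are good. (c) So for each `π` some `f` and `f ∘ π` are both good, hence (by (a)) `f ∘ π` is good for all good `f`, and
`f ∘ π = g ∘ f` for some `g ∈ G`. (d) good tuples are injective (the orbit of a point of `B` is a singleton, `2 ≤ n`). -/
theorem exists_full {G : Subgroup (Perm Ω)} (hT : ∀ a b, ∃ g ∈ G, g a = b) (k : ℕ) (hk : 1 ≤ k)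
    (hn : 2 ≤ Fintype.card Ω)
    (H : ∀ B : Finset Ω, B.card < k →
      ∃ x, (2 * k - 1) * Fintype.card Ω < 2 * k * (orb G (B : Set Ω) x).card) :
    ∃ f : Fin k → Ω, Function.Injective f ∧
      ∀ π : Perm (Fin k), ∃ g ∈ G, ∀ i, g (f i) = f (π i) := by
  classical
  refine Tup51.sym_of_big hk (fun B hB => ?_) hn
  obtain ⟨x, hx⟩ := H B hB
  refine ⟨x, ?_⟩
  have : Tup51.Orb G B x = orb G (B : Set Ω) x := by
    ext y
    rw [Tup51.mem_Orb, mem_orb]
    exact Iff.rfl
  rw [this]
  exact hx

end PR12
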