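import Pool.Agent.PR12.Geo

/-!
# PR12/BigOrbS97: suborbits of a group that is primitive and not doubly transitive (helper97)
-/

namespace PR12.S97B

open Equiv PR12

universe u

variable {Ω : Type u}

/-- the orbital of `(c, y)` -/
def Rl (G : Subgroup (Perm Ω)) (c y u v : Ω) : Prop := ∃ g ∈ G, g c = u ∧ g y = v

theorem Rl_map {G : Subgroup (Perm Ω)} {c y u v : Ω} (h : Rl G c y u v) {k : Perm Ω}
    (hk : k ∈ G) : Rl G c y (k u) (k v) := by
  obtain ⟨g, hg, h1, h2⟩ := h
  exact ⟨k * g, G.mul_mem hk hg, by rw [Perm.mul_apply, h1], by rw [Perm.mul_apply, h2]⟩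

theorem row_le [Fintype Ω] {G : Subgroup (Perm Ω)} [∀ c y u v, Decidable (Rl G c y u v)]
    (hT : ∀ a b, ∃ g ∈ G, g a = b) (c y u u' : Ω) :
    (Finset.univ.filter (fun v => Rl G c y u v)).card ≤
      (Finset.univ.filter (fun v => Rl G c y u' v)).card := by
  obtain ⟨k, hk, hku⟩ := hT u u'
  refine Finset.card_le_card_of_injOn k ?_ k.injective.injOn
  intro v hv
  rw [Finset.mem_coe, Finset.mem_filter] at hv ⊢
  refine ⟨Finset.mem_univ _, ?_⟩
  rw [← hku]
  exact Rl_map hv.2 hk

theorem col_le [Fintype Ω] {G : Subgroup (Perm Ω)} [∀ c y u v, Decidable (Rl G c y u v)]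
    (hT : ∀ a b, ∃ g ∈ G, g a = b) (c y v v' : Ω) :
    (Finset.univ.filter (fun u => Rl G c y u v)).card ≤
      (Finset.univ.filter (fun u => Rl G c y u v')).card := by
  obtain ⟨k, hk, hkv⟩ := hT v v'
  refine Finset.card_le_card_of_injOn k ?_ k.injective.injOn
  intro u hu
  rw [Finset.mem_coe, Finset.mem_filter] at hu ⊢
  refine ⟨Finset.mem_univ _, ?_⟩
  rw [← hkv]
  exact Rl_map hu.2 hk

theorem row_col [Fintype Ω] {G : Subgroup (Perm Ω)} [∀ c y u v, Decidable (Rl G c y u v)]
    (hT : ∀ a b, ∃ g ∈ G, g a = b) (c y u v : Ω) :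
    (Finset.univ.filter (fun v => Rl G c y u v)).card =
      (Finset.univ.filter (fun u => Rl G c y u v)).card := by
  have h := Finset.sum_card_bipartiteAbove_eq_sum_card_bipartiteBelow
    (s := (Finset.univ : Finset Ω)) (t := (Finset.univ : Finset Ω)) (Rl G c y)
  have h1 : ∀ a : Ω, (Finset.bipartiteAbove (Rl G c y) (Finset.univ : Finset Ω) a).card =
      (Finset.univ.filter (fun v => Rl G c y u v)).card := fun a =>
    le_antisymm (row_le hT c y a u) (row_le hT c y u a)
  have h2 : ∀ b : Ω, (Finset.bipartiteBelow (Rl G c y) (Finset.univ : Finset Ω) b).card =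
      (Finset.univ.filter (fun u => Rl G c y u v)).card := fun b =>
    le_antisymm (col_le hT c y b v) (col_le hT c y v b)
  rw [Finset.sum_congr rfl (fun a _ => h1 a), Finset.sum_congr rfl (fun b _ => h2 b),
    Finset.sum_const, Finset.sum_const] at h
  have hn : 0 < (Finset.univ : Finset Ω).card := Finset.card_pos.2 ⟨u, Finset.mem_univ _⟩
  rw [smul_eq_mul, smul_eq_mul] at h
  exact Nat.eq_of_mul_eq_mul_left hn h

theorem two_of_trans {G : Subgroup (Perm Ω)} (hT : ∀ a b, ∃ g ∈ G, g a = b) (c x : Ω)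
    (h : ∀ y, y ≠ c → Same G {c} x y) : Two G := by
  intro a b a' b' hab hab'
  obtain ⟨k, hk, hka⟩ := hT a c
  obtain ⟨k', hk', hka'⟩ := hT a' c
  have h1 : k b ≠ c := fun h => hab (k.injective (hka.trans h.symm))
  have h2 : k' b' ≠ c := fun h => hab' (k'.injective (hka'.trans h.symm))
  obtain ⟨g, hg, hgc, hgb⟩ := (h _ h1).symm.trans (h _ h2)
  refine ⟨k'⁻¹ * (g * k), G.mul_mem (G.inv_mem hk') (G.mul_mem hg hk), ?_, ?_⟩
  · rw [Perm.mul_apply, Perm.mul_apply, hka, hgc c rfl, Perm.inv_eq_iff_eq]
    exact hka'.symm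
  · rw [Perm.mul_apply, Perm.mul_apply, hgb, Perm.inv_eq_iff_eq]

theorem three_le [Fintype Ω] {G : Subgroup (Perm Ω)} (hT : ∀ a b, ∃ g ∈ G, g a = b)
    (h2 : ¬ Two G) : 3 ≤ Fintype.card Ω := by
  classical
  by_contra hcon
  push Not at hcon
  apply h2
  intro a b a' b' hab hab'
  obtain ⟨g, hg, hga⟩ := hT a a'
  refine ⟨g, hg, hga, ?_⟩
  by_contra hne
  have h3 : g b ≠ a' := fun h => hab (g.injective (hga.trans h.symm))
  have h4 : ({a', b', g b} : Finset Ω).card = 3 := by
    rw [Finset.card_eq_three]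
    exact ⟨a', b', g b, hab', Ne.symm h3, Ne.symm hne, rfl⟩
  have h5 := Finset.card_le_univ ({a', b', g b} : Finset Ω)
  omega

variable [Fintype Ω]

theorem big_orbit
    (X_conn : ∀ {G : Subgroup (Perm Ω)}, Prim G → ∀ {a b : Ω}, a ≠ b → (X G a b).Connected)
    (X_dist : ∀ {G : Subgroup (Perm Ω)}, Prim G → ∀ {a b : Ω}, a ≠ b → ∀ {g : Perm Ω},
      g ∈ G → ∀ x y : Ω, (X G a b).dist (g x) (g y) = (X G a b).dist x y)
    {G : Subgroup (Perm Ω)} (hP : Prim G) (h2 : ¬ Two G) (c x : Ω) :
    Fintype.card Ω ≤ (Fintype.card Ω - (orb G {c} x).card) ^ 2 := by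
  classical
  have hT := hP.1
  have h3 := three_le hT h2
  by_cases hxc : x = c
  · have hO : orb G {c} x = {x} := by
      ext z
      rw [mem_orb, Finset.mem_singleton]
      constructor
      · rintro ⟨g, _, h4, h5⟩
        rw [← h5, hxc]
        exact h4 c rfl
      · rintro rfl
        exact same_refl _ _ _
    rw [hO, Finset.card_singleton]
    obtain ⟨k, hk⟩ : ∃ k, Fintype.card Ω = k + 3 := ⟨Fintype.card Ω - 3, by omega⟩
    rw [hk]
    have : k + 3 - 1 = k + 2 := by omega
    rw [this]
    nlinarith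
  -- `c` is not in the orbit
  have hcO : c ∉ orb G {c} x := by
    rw [mem_orb]
    rintro ⟨g, _, h4, h5⟩
    exact hxc (g.injective (h5.trans (h4 c rfl).symm))
  obtain ⟨y, hyO, hyc⟩ : ∃ y, y ∉ orb G {c} x ∧ y ≠ c := by
    by_contra hcon
    push Not at hcon
    apply h2
    apply two_of_trans hT c x
    intro z hz
    rw [← mem_orb]
    by_contra h
    exact hz (hcon z h)
  obtain ⟨m, hm⟩ : ∃ m, m = Fintype.card Ω - (orb G {c} x).card := ⟨_, rfl⟩
  rw [← hm]
  -- sets that avoid the orbit and `c`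
  have havoid : ∀ W : Finset Ω, (∀ z ∈ W, z ∉ orb G {c} x) → c ∉ W → W.card + 1 ≤ m := by
    intro W hW hc
    have h4 : (insert c W).card = W.card + 1 := Finset.card_insert_of_notMem hc
    have h5 : Disjoint (insert c W) (orb G {c} x) := by
      rw [Finset.disjoint_left]
      intro z hz
      rcases Finset.mem_insert.1 hz with h | h
      · rw [h]
        exact hcO
      · exact hW z h
    have h6 := Finset.card_union_of_disjoint h5
    have h7 := Finset.card_le_univ (insert c W ∪ orb G {c} x)
    omega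
  have hm1 : 1 ≤ m := by
    have := havoid ∅ (by simp) (by simp)
    omega
  have hOn : (orb G {c} x).card ≤ Fintype.card Ω := Finset.card_le_univ _
  have hn : Fintype.card Ω = m + (orb G {c} x).card := by omega
  have hout : ∀ z, Rl G c y c z → z ∉ orb G {c} x ∧ z ≠ c := by
    rintro z ⟨g, hg, hgc, hgy⟩
    refine ⟨fun hz => hyO ?_, fun hz => hyc ?_⟩
    · rw [mem_orb] at hz ⊢
      refine hz.trans (Same.symm ⟨g, hg, ?_, hgy⟩)
      rintro c' rfl
      exact hgc
    · exact g.injective (hgy.trans (hz.trans hgc.symm))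
  have hOut : (Finset.univ.filter (fun z => Rl G c y c z)).card + 1 ≤ m := by
    apply havoid
    · intro z hz
      exact (hout z (Finset.mem_filter.1 hz).2).1
    · intro hc
      exact (hout c (Finset.mem_filter.1 hc).2).2 rfl
  have hIn : (Finset.univ.filter (fun z => Rl G c y z c)).card + 1 ≤ m := by
    rw [← row_col hT c y c c]
    exact hOut
  by_cases hmeet : ∃ z ∈ orb G {c} x, Rl G c y z c
  · obtain ⟨z, hz, hzR⟩ := hmeet
    have h4 : orb G {c} x ⊆ Finset.univ.filter (fun z => Rl G c y z c) := by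
      intro w hw
      rw [mem_orb] at hz hw
      obtain ⟨g, hg, hgc, hgz⟩ := hz.symm.trans hw
      rw [Finset.mem_filter]
      refine ⟨Finset.mem_univ _, ?_⟩
      have h5 := Rl_map hzR hg
      rwa [hgz, hgc c rfl] at h5
    have h5 := Finset.card_le_card h4
    rw [hn]
    obtain ⟨k, rfl⟩ : ∃ k, m = k + 1 := ⟨m - 1, by omega⟩
    nlinarith
  · push Not at hmeet
    have hcy : c ≠ y := Ne.symm hyc
    -- neighbours
    have hnbc : (Finset.univ.filter (fun z => (X G c y).Adj c z)).card + 1 ≤ m := by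
      apply havoid
      · intro z hz
        obtain ⟨hcz, g, hg, h | h⟩ := (Finset.mem_filter.1 hz).2
        · exact (hout z ⟨g, hg, h⟩).1
        · intro hzO
          exact hmeet z hzO ⟨g, hg, h.1, h.2⟩
      · intro hc
        exact (Finset.mem_filter.1 hc).2.1 rfl
    have hnb : ∀ w : Ω, (Finset.univ.filter (fun z => (X G c y).Adj w z)).card + 1 ≤ m := by
      intro w
      refine le_trans ?_ hnbc
      obtain ⟨k, hk, hkw⟩ := hT w c
      apply Nat.succ_le_succ
      refine Finset.card_le_card_of_injOn k ?_ k.injective.injOn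
      intro z hz
      rw [Finset.mem_coe, Finset.mem_filter] at hz ⊢
      refine ⟨Finset.mem_univ _, ?_⟩
      obtain ⟨hwz, g, hg, h⟩ := hz.2
      refine ⟨?_, k * g, G.mul_mem hk hg, ?_⟩
      · rw [← hkw]
        exact fun h => hwz (k.injective h)
      · rw [Perm.mul_apply, Perm.mul_apply]
        rcases h with h | h
        · left
          rw [h.1, h.2, hkw]
          exact ⟨rfl, rfl⟩
        · right
          rw [h.1, h.2, hkw]
          exact ⟨rfl, rfl⟩
    have hconn := X_conn hP hcy
    have hdist : ∀ z ∈ orb G {c} x, (X G c y).dist c z = (X G c y).dist c x := by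
      intro z hz
      obtain ⟨g, hg, hgc, hgx⟩ := mem_orb.1 hz
      have := X_dist hP hcy hg c x
      rwa [hgc c rfl, hgx] at this
    obtain ⟨e, he⟩ : ∃ e, e = (X G c y).dist c x := ⟨_, rfl⟩
    have he0 : e ≠ 0 := by
      rw [he]
      intro h
      exact hxc ((hconn.dist_eq_zero_iff).1 h).symm
    have hxO : x ∈ orb G {c} x := mem_orb.2 (same_refl _ _ _)
    have he1 : e ≠ 1 := by
      rw [he]
      intro h
      rw [SimpleGraph.dist_eq_one_iff_adj] at h
      obtain ⟨_, g, hg, h | h⟩ := h
      · exact (hout x ⟨g, hg, h⟩).1 hxO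
      · exact hmeet x hxO ⟨g, hg, h.1, h.2⟩
    -- the previous sphere
    obtain ⟨W, hW⟩ : ∃ W : Finset Ω, W = Finset.univ.filter (fun w => (X G c y).dist c w = e - 1) :=
      ⟨_, rfl⟩
    have hWm : W.card + 1 ≤ m := by
      apply havoid
      · intro w hw hwO
        rw [hW, Finset.mem_filter] at hw
        have := hdist w hwO
        omega
      · intro hc
        rw [hW, Finset.mem_filter, SimpleGraph.dist_self] at hc
        omega
    have hcover : orb G {c} x ⊆ W.biUnion (fun w => Finset.univ.filter (fun z => (X G c y).Adj w z)) := by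
      intro z hz
      rw [Finset.mem_biUnion]
      obtain ⟨p, hp⟩ := (hconn c z).exists_walk_length_eq_dist
      have hlen : p.length = e := by rw [hp, hdist z hz, he]
      obtain ⟨q, hq⟩ : ∃ w, (X G c y).Adj w z ∧ (X G c y).dist c w = e - 1 := by
        have hpn : ¬ p.Nil := by
          intro hnil
          have := SimpleGraph.Walk.length_eq_zero_iff.2 hnil
          omega
        refine ⟨p.penultimate, p.adj_penultimate hpn, ?_⟩
        have h4 : (X G c y).dist c p.penultimate ≤ e - 1 := by
          refine (SimpleGraph.dist_le p.dropLast).trans ?_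
          rw [SimpleGraph.Walk.length_dropLast]
          omega
        have h5 : (X G c y).dist c z ≤ (X G c y).dist c p.penultimate +
            (X G c y).dist p.penultimate z := hconn.dist_triangle
        have h6 : (X G c y).dist p.penultimate z = 1 :=
          SimpleGraph.dist_eq_one_iff_adj.2 (p.adj_penultimate hpn)
        rw [hdist z hz, ← he, h6] at h5
        omega
      refine ⟨q, ?_, ?_⟩
      · rw [hW, Finset.mem_filter]
        exact ⟨Finset.mem_univ _, hq.2⟩
      · rw [Finset.mem_filter]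
        exact ⟨Finset.mem_univ _, hq.1⟩
    have hcard : (orb G {c} x).card ≤ W.card * (m - 1) := by
      refine (Finset.card_le_card hcover).trans ?_
      apply Finset.card_biUnion_le_card_mul
      intro w _
      have := hnb w
      omega
    obtain ⟨k, rfl⟩ : ∃ k, m = k + 1 := ⟨m - 1, by omega⟩
    have h8 : k + 1 - 1 = k := by omega
    rw [h8] at hcard
    have h9 : W.card ≤ k := by omega
    have h10 : W.card * k ≤ k * k := Nat.mul_le_mul_right _ h9
    rw [hn]
    nlinarith

end PR12.S97B
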