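import Mathlib

/-!
# The minimal degree of a doubly transitive group
-/

namespace PR12.MinDeg51

open Equiv Finset

variable {Ω : Type*} [Fintype Ω] [DecidableEq Ω]

omit [Fintype Ω] [DecidableEq Ω] in
theorem inv_app (e : Perm Ω) (a : Ω) : e⁻¹ (e a) = a := e.symm_apply_apply a

omit [Fintype Ω] [DecidableEq Ω] in
theorem app_inv (e : Perm Ω) (a : Ω) : e (e⁻¹ a) = a := e.apply_symm_apply a

/-- the number of `g` in `P` with `g a = c` and `g b = d` -/
noncomputable def cnt (P : Subgroup (Perm Ω)) [Fintype P] (a b c d : Ω) : ℕ :=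
  (univ.filter (fun g : P => (g : Perm Ω) a = c ∧ (g : Perm Ω) b = d)).card

omit [Fintype Ω] in
theorem cnt_eq {P : Subgroup (Perm Ω)} [Fintype P]
    (h2 : ∀ a b c d : Ω, a ≠ b → c ≠ d → ∃ g ∈ P, g a = c ∧ g b = d)
    {a b c d a' b' c' d' : Ω} (hab : a ≠ b) (hcd : c ≠ d) (hab' : a' ≠ b') (hcd' : c' ≠ d') :
    cnt P a b c d = cnt P a' b' c' d' := by
  obtain ⟨r, hr, hr1, hr2⟩ := h2 a b a' b' hab hab'
  obtain ⟨s, hs, hs1, hs2⟩ := h2 c d c' d' hcd hcd'
  unfold cnt
  refine Finset.card_bij' (fun g _ => ⟨s, hs⟩ * g * ⟨r, hr⟩⁻¹) (fun g _ => ⟨s, hs⟩⁻¹ * g * ⟨r, hr⟩)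
    ?_ ?_ ?_ ?_
  · intro g hg
    rw [Finset.mem_filter] at hg ⊢
    refine ⟨Finset.mem_univ _, ?_, ?_⟩
    · simp only [Subgroup.coe_mul, Subgroup.coe_inv, Perm.coe_mul, Function.comp_apply]
      rw [← hr1, inv_app, hg.2.1, hs1]
    · simp only [Subgroup.coe_mul, Subgroup.coe_inv, Perm.coe_mul, Function.comp_apply]
      rw [← hr2, inv_app, hg.2.2, hs2]
  · intro g hg
    rw [Finset.mem_filter] at hg ⊢
    refine ⟨Finset.mem_univ _, ?_, ?_⟩
    · simp only [Subgroup.coe_mul, Subgroup.coe_inv, Perm.coe_mul, Function.comp_apply]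
      rw [hr1, hg.2.1, ← hs1, inv_app]
    · simp only [Subgroup.coe_mul, Subgroup.coe_inv, Perm.coe_mul, Function.comp_apply]
      rw [hr2, hg.2.2, ← hs2, inv_app]
  · intro g _
    group
  · intro g _
    group

omit [Fintype Ω] in
theorem cnt_zero {P : Subgroup (Perm Ω)} [Fintype P] {a b c : Ω} (hab : a ≠ b) :
    cnt P a b c c = 0 := by
  unfold cnt
  rw [Finset.card_eq_zero, Finset.filter_eq_empty_iff]
  rintro g - ⟨h1, h2⟩
  exact hab ((g : Perm Ω).injective (h1.trans h2.symm))

omit [Fintype Ω] in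
/-- the number of `g` in `P` with `g a ∈ A` and `g b ∈ B` -/
theorem cnt_sets {P : Subgroup (Perm Ω)} [Fintype P] (a b : Ω) (A B : Finset Ω) :
    (univ.filter (fun g : P => (g : Perm Ω) a ∈ A ∧ (g : Perm Ω) b ∈ B)).card =
      ∑ c ∈ A, ∑ d ∈ B, cnt P a b c d := by
  unfold cnt
  simp only [Finset.card_filter]
  have h1 : ∀ g : P, (if (g : Perm Ω) a ∈ A ∧ (g : Perm Ω) b ∈ B then 1 else 0) =
      ∑ c ∈ A, ∑ d ∈ B, (if (g : Perm Ω) a = c ∧ (g : Perm Ω) b = d then 1 else 0) := by
    intro g
    by_cases hA : (g : Perm Ω) a ∈ A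
    · by_cases hB : (g : Perm Ω) b ∈ B
      · rw [if_pos ⟨hA, hB⟩, Finset.sum_eq_single_of_mem _ hA, Finset.sum_eq_single_of_mem _ hB]
        · rw [if_pos ⟨rfl, rfl⟩]
        · intro d _ hd
          rw [if_neg]
          rintro ⟨_, h⟩
          exact hd h.symm
        · intro c _ hc
          apply Finset.sum_eq_zero
          intro d _
          rw [if_neg]
          rintro ⟨h, _⟩
          exact hc h.symm
      · rw [if_neg (fun h => hB h.2)]
        symm
        apply Finset.sum_eq_zero
        intro c _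
        apply Finset.sum_eq_zero
        intro d hd
        rw [if_neg]
        rintro ⟨_, h⟩
        exact hB (h ▸ hd)
    · rw [if_neg (fun h => hA h.1)]
      symm
      apply Finset.sum_eq_zero
      intro c hc
      apply Finset.sum_eq_zero
      intro d _
      rw [if_neg]
      rintro ⟨h, _⟩
      exact hA (h ▸ hc)
  rw [Finset.sum_congr rfl (fun g _ => h1 g), Finset.sum_comm]
  refine Finset.sum_congr rfl (fun c _ => ?_)
  rw [Finset.sum_comm]

/-- the set of `c` in the support `S` of `x` that `g` maps into `S` -/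
def Zs (x g : Perm Ω) : Finset Ω := x.support.filter (fun c => g c ∈ x.support)

def Ns (x g : Perm Ω) : Finset Ω :=
  x.support.filter (fun c => g c ∈ x.support ∧ g (x c) ∉ x.support)

theorem comm_support (x g : Perm Ω) :
    (((g * x * g⁻¹) * x)⁻¹ * (x * (g * x * g⁻¹))).support.card ≤ 3 * (Zs x g).card := by
  classical
  set y := g * x * g⁻¹ with hy
  have hsub : ((y * x)⁻¹ * (x * y)).support ⊆
      (Zs x g).image g ∪ (Zs x g).image (fun c => x⁻¹ (g c)) ∪
        (Zs x g).image (fun c => y⁻¹ (g c)) := by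
    intro w hw
    rw [Perm.mem_support] at hw
    have hw' : x (y w) ≠ y (x w) := by
      intro h
      apply hw
      rw [Perm.mul_apply, Perm.mul_apply, h, ← Perm.mul_apply y x, inv_app]
    have hZ : ∀ u : Ω, x u ≠ u → y u ≠ u → ∃ c ∈ Zs x g, g c = u := by
      intro u h1 h2
      refine ⟨g⁻¹ u, ?_, app_inv _ _⟩
      unfold Zs
      rw [Finset.mem_filter, Perm.mem_support, app_inv, Perm.mem_support]
      refine ⟨fun h => h2 ?_, h1⟩
      rw [hy, Perm.mul_apply, Perm.mul_apply, h, app_inv]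
    rw [Finset.mem_union, Finset.mem_union, Finset.mem_image, Finset.mem_image, Finset.mem_image]
    by_cases hx : x w = w
    · by_cases hyw : y w = w
      · exact absurd (by rw [hyw, hx, hyw]) hw'
      · -- `w` moved by `y` only
        right
        have h1 : x (y w) ≠ y w := by
          intro h
          rw [hx] at hw'
          exact hw' h
        obtain ⟨c, hc, hgc⟩ := hZ (y w) h1 (fun h => hyw (y.injective h))
        exact ⟨c, hc, by rw [hgc, inv_app]⟩
    · by_cases hyw : y w = w
      · left; right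
        have h1 : y (x w) ≠ x w := by
          intro h
          rw [hyw] at hw'
          exact hw' h.symm
        obtain ⟨c, hc, hgc⟩ := hZ (x w) (fun h => hx (x.injective h)) h1
        exact ⟨c, hc, by rw [hgc, inv_app]⟩
      · left; left
        exact hZ w hx hyw
  refine (Finset.card_le_card hsub).trans ?_
  refine (Finset.card_union_le _ _).trans ?_
  have h1 := Finset.card_union_le ((Zs x g).image g) ((Zs x g).image (fun c => x⁻¹ (g c)))
  have h2 : ((Zs x g).image g).card ≤ (Zs x g).card := Finset.card_image_le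
  have h3 : ((Zs x g).image (fun c => x⁻¹ (g c))).card ≤ (Zs x g).card := Finset.card_image_le
  have h4 : ((Zs x g).image (fun c => y⁻¹ (g c))).card ≤ (Zs x g).card := Finset.card_image_le
  omega

theorem comm_ne_one (x g : Perm Ω) (h : (Ns x g).Nonempty) :
    ((g * x * g⁻¹) * x)⁻¹ * (x * (g * x * g⁻¹)) ≠ 1 := by
  obtain ⟨c, hc⟩ := h
  unfold Ns at hc
  rw [Finset.mem_filter] at hc
  obtain ⟨-, hc2, hc3⟩ := hc
  intro h1
  have h2 : x * (g * x * g⁻¹) = (g * x * g⁻¹) * x := by
    rw [← mul_one ((g * x * g⁻¹) * x), ← h1, mul_inv_cancel_left]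
  have h3 := congrArg (fun p : Perm Ω => p (g c)) h2
  simp only [Perm.mul_apply, inv_app] at h3
  rw [Perm.notMem_support] at hc3
  rw [hc3] at h3
  have h4 := x.injective (g.injective h3)
  rw [Perm.mem_support] at hc2
  apply hc2
  have h5 := congrArg g h4
  rw [app_inv] at h5
  exact h5.symm

/-- the minimal degree `μ` of a doubly transitive group of degree `n`: `n (μ - 3) ≤ 4 μ ^ 2` -/
theorem min_deg_ineq (P : Subgroup (Perm Ω))
    (h2 : ∀ a b c d : Ω, a ≠ b → c ≠ d → ∃ g ∈ P, g a = c ∧ g b = d)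
    (x : Perm Ω) (hx : x ∈ P) (hx1 : x ≠ 1)
    (hmin : ∀ y ∈ P, y ≠ 1 → x.support.card ≤ y.support.card) :
    Fintype.card Ω * x.support.card ≤ 4 * x.support.card ^ 2 + 3 * Fintype.card Ω := by
  classical
  set S := x.support with hS
  set n := Fintype.card Ω with hn
  have hSne : S.Nonempty := by
    rw [Finset.nonempty_iff_ne_empty]
    intro h
    exact hx1 (Perm.support_eq_empty_iff.mp h)
  obtain ⟨a0, ha0⟩ := hSne
  have hb0 : a0 ≠ x a0 := fun h => (Perm.mem_support.mp ha0) h.symm
  set κ := cnt P a0 (x a0) a0 (x a0) with hκ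
  have hκpos : 0 < κ := by
    rw [hκ]
    unfold cnt
    rw [Finset.card_pos]
    exact ⟨1, by simp⟩
  have hcnt : ∀ a b c d : Ω, a ≠ b → c ≠ d → cnt P a b c d = κ := fun a b c d h h' =>
    cnt_eq h2 h h' hb0 hb0
  have hSn : S.card ≤ n := Finset.card_le_univ _
  have hSpos : 0 < S.card := Finset.card_pos.mpr ⟨a0, ha0⟩
  -- the sum of N
  have hN : ∑ g : P, (Ns x g).card = S.card * (S.card * ((n - S.card) * κ)) := by
    have h1 : ∀ g : P, (Ns x g).card =
        ∑ c ∈ S, (if (g : Perm Ω) c ∈ S ∧ (g : Perm Ω) (x c) ∈ Sᶜ then 1 else 0) := by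
      intro g
      unfold Ns
      rw [Finset.card_filter]
      simp only [Finset.mem_compl]
      rfl
    rw [Finset.sum_congr rfl (fun g _ => h1 g), Finset.sum_comm]
    rw [Finset.sum_congr rfl (g := fun _ => S.card * ((n - S.card) * κ)), Finset.sum_const,
      smul_eq_mul]
    intro c hc
    rw [← Finset.card_filter, cnt_sets]
    rw [Finset.sum_congr rfl (g := fun _ => (n - S.card) * κ), Finset.sum_const, smul_eq_mul]
    intro u hu
    rw [Finset.sum_congr rfl (g := fun _ => κ), Finset.sum_const, smul_eq_mul,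
      Finset.card_compl]
    intro v hv
    refine hcnt _ _ _ _ (fun h => (Perm.mem_support.mp hc) h.symm) ?_
    rintro rfl
    exact (Finset.mem_compl.mp hv) hu
  -- the sum of Z ^ 2
  have hZ : ∑ g : P, (Zs x g).card ^ 2 =
      S.card * (S.card * ((n - 1) * κ) + (S.card - 1) * (S.card * ((S.card - 1) * κ))) := by
    have h1 : ∀ g : P, (Zs x g).card ^ 2 =
        ∑ c ∈ S, ∑ c' ∈ S, (if (g : Perm Ω) c ∈ S ∧ (g : Perm Ω) c' ∈ S then 1 else 0) := by
      intro g
      have h0 : (Zs x g).card = ∑ c ∈ S, (if (g : Perm Ω) c ∈ S then 1 else 0) := by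
        unfold Zs
        rw [Finset.card_filter]
      rw [h0, sq, Finset.sum_mul_sum]
      refine Finset.sum_congr rfl (fun c _ => Finset.sum_congr rfl (fun c' _ => ?_))
      by_cases h : (g : Perm Ω) c ∈ S <;> by_cases h' : (g : Perm Ω) c' ∈ S <;> simp [h, h']
    rw [Finset.sum_congr rfl (fun g _ => h1 g), Finset.sum_comm]
    rw [Finset.sum_congr rfl (g := fun _ => (S.card * ((n - 1) * κ) +
      (S.card - 1) * (S.card * ((S.card - 1) * κ)))), Finset.sum_const, smul_eq_mul]
    intro c hc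
    rw [Finset.sum_comm, ← Finset.add_sum_erase _ _ hc]
    congr 1
    · -- `c' = c`
      have h3 : (∑ g : P, if (g : Perm Ω) c ∈ S ∧ (g : Perm Ω) c ∈ S then 1 else 0) =
          (univ.filter (fun g : P => (g : Perm Ω) c ∈ S ∧
            (g : Perm Ω) (x c) ∈ (univ : Finset Ω))).card := by
        rw [Finset.card_filter]
        refine Finset.sum_congr rfl (fun g _ => ?_)
        simp
      rw [h3, cnt_sets]
      rw [Finset.sum_congr rfl (g := fun _ => (n - 1) * κ), Finset.sum_const, smul_eq_mul]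
      intro u _
      have hcx : c ≠ x c := fun h => (Perm.mem_support.mp hc) h.symm
      rw [← Finset.add_sum_erase _ _ (Finset.mem_univ u), cnt_zero hcx, zero_add]
      rw [Finset.sum_congr rfl (g := fun _ => κ), Finset.sum_const, smul_eq_mul,
        Finset.card_erase_of_mem (Finset.mem_univ u), Finset.card_univ]
      intro v hv
      exact hcnt _ _ _ _ hcx (Finset.ne_of_mem_erase hv).symm
    · rw [Finset.sum_congr rfl (g := fun _ => S.card * ((S.card - 1) * κ)), Finset.sum_const,
        smul_eq_mul, Finset.card_erase_of_mem hc]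
      intro c' hc'
      have hcc : c ≠ c' := (Finset.ne_of_mem_erase hc').symm
      rw [← Finset.card_filter, cnt_sets]
      rw [Finset.sum_congr rfl (g := fun _ => (S.card - 1) * κ), Finset.sum_const, smul_eq_mul]
      intro u hu
      rw [← Finset.add_sum_erase _ _ hu, cnt_zero hcc, zero_add]
      rw [Finset.sum_congr rfl (g := fun _ => κ), Finset.sum_const, smul_eq_mul,
        Finset.card_erase_of_mem hu]
      intro v hv
      exact hcnt _ _ _ _ hcc (Finset.ne_of_mem_erase hv).symm
  -- the inequality for each `g`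
  have hg : ∀ g : P, S.card * (Ns x g).card ≤ 3 * (Zs x g).card ^ 2 := by
    intro g
    rcases (Ns x g).eq_empty_or_nonempty with h | h
    · rw [h, Finset.card_empty, mul_zero]
      exact Nat.zero_le _
    · have h1 := comm_ne_one x g h
      have hy : (g : Perm Ω) * x * (g : Perm Ω)⁻¹ ∈ P := P.mul_mem (P.mul_mem g.2 hx) (P.inv_mem g.2)
      have h3 := hmin _ (P.mul_mem (P.inv_mem (P.mul_mem hy hx)) (P.mul_mem hx hy)) h1
      have h4 := h3.trans (comm_support x g)
      have h5 : (Ns x g).card ≤ (Zs x g).card := by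
        apply Finset.card_le_card
        intro c hc
        unfold Ns at hc
        unfold Zs
        rw [Finset.mem_filter] at hc ⊢
        exact ⟨hc.1, hc.2.1⟩
      calc S.card * (Ns x g).card ≤ (3 * (Zs x g).card) * (Zs x g).card :=
            Nat.mul_le_mul h4 h5
        _ = 3 * (Zs x g).card ^ 2 := by ring
  have hsum : S.card * (S.card * (S.card * ((n - S.card) * κ))) ≤
      3 * (S.card * (S.card * ((n - 1) * κ) + (S.card - 1) * (S.card * ((S.card - 1) * κ)))) := by
    rw [← hN, ← hZ, Finset.mul_sum, Finset.mul_sum]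
    exact Finset.sum_le_sum (fun g _ => hg g)
  have hn1 : 1 ≤ n := hSpos.trans_le hSn
  obtain ⟨m, hm⟩ : ∃ m, S.card = m + 1 := ⟨S.card - 1, by omega⟩
  obtain ⟨r, hr⟩ : ∃ r, n = m + 1 + r := ⟨n - S.card, by omega⟩
  rw [hm] at hsum ⊢
  rw [hr] at hsum ⊢
  have e1 : m + 1 + r - (m + 1) = r := by omega
  have e2 : m + 1 + r - 1 = m + r := by omega
  have e3 : m + 1 - 1 = m := by omega
  rw [e1, e2, e3] at hsum
  have hp : 0 < (m + 1) * (m + 1) * κ := by positivity
  have h6 : (m + 1) * (m + 1) * κ * ((m + 1) * r) ≤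
      (m + 1) * (m + 1) * κ * (3 * (m + r) + 3 * m * m) := by
    calc (m + 1) * (m + 1) * κ * ((m + 1) * r)
        = (m + 1) * ((m + 1) * ((m + 1) * (r * κ))) := by ring
      _ ≤ _ := hsum
      _ = _ := by ring
  have h7 := Nat.le_of_mul_le_mul_left h6 hp
  nlinarith

/-- every nontrivial element of a doubly transitive group that does not contain the alternating group
moves at least a fifth of the points -/
theorem min_deg (P : Subgroup (Perm Ω)) (hP : MulAction.IsPreprimitive P Ω)
    (h2 : ∀ a b c d : Ω, a ≠ b → c ≠ d → ∃ g ∈ P, g a = c ∧ g b = d)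
    (hA : ¬ alternatingGroup Ω ≤ P) (hn : 784 < Fintype.card Ω)
    (x : Perm Ω) (hx : x ∈ P) (hx1 : x ≠ 1) :
    Fintype.card Ω ≤ 5 * x.support.card := by
  classical
  obtain ⟨y, hy, hmin⟩ := Finset.exists_min_image
    (univ.filter (fun g : Perm Ω => g ∈ P ∧ g ≠ 1)) (fun g => g.support.card)
    ⟨x, by rw [Finset.mem_filter]; exact ⟨Finset.mem_univ _, hx, hx1⟩⟩
  rw [Finset.mem_filter] at hy
  have hxy := hmin x (by rw [Finset.mem_filter]; exact ⟨Finset.mem_univ _, hx, hx1⟩)
  refine le_trans ?_ (Nat.mul_le_mul_left 5 hxy)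
  have hI := min_deg_ineq P h2 y hy.2.1 hy.2.2 (fun z hz hz1 =>
    hmin z (by rw [Finset.mem_filter]; exact ⟨Finset.mem_univ _, hz, hz1⟩))
  have h2y : 2 ≤ y.support.card := Perm.two_le_card_support_of_ne_one hy.2.2
  have hne2 : y.support.card ≠ 2 := by
    intro h
    apply hA
    rw [Equiv.Perm.subgroup_eq_top_of_isPreprimitive_of_isSwap_mem hP y
      (Perm.card_support_eq_two.mp h) hy.2.1]
    exact le_top
  have hne3 : y.support.card ≠ 3 := by
    intro h
    exact hA (Equiv.Perm.alternatingGroup_le_of_isPreprimitive_of_isThreeCycle_mem hP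
      (card_support_eq_three_iff.mp h) hy.2.1)
  generalize y.support.card = μ at *
  generalize Fintype.card Ω = n at *
  by_contra hlt
  push Not at hlt
  rcases Nat.lt_or_ge μ 15 with h15 | h15
  · have h4 : 4 ≤ μ := by omega
    interval_cases μ <;> omega
  · nlinarith

end PR12.MinDeg51
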