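import Pool.Agent.PR12.Hit
import Pool.Agent.PR12.MinDeg51

/-!
# PR12/Boch: the minimal degree of a doubly transitive group
-/

namespace PR12

open Equiv

universe u

variable {Ω : Type u} [Fintype Ω] [DecidableEq Ω]

/-- PROOF (MinDeg51). Take `x ≠ 1` in `G` of minimal support `μ`. `μ ≥ 4`: `μ = 2` is a swap, `μ = 3` a 3-cycle, and `G` is preprimitive, so `alternatingGroup Ω ≤ G`
(`Equiv.Perm.subgroup_eq_top_of_isPreprimitive_of_isSwap_mem`, `Equiv.Perm.alternatingGroup_le_of_isPreprimitive_of_isThreeCycle_mem`). If `n > 5 μ`, double counting over `G` gives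
`n (μ - 3) ≤ 4 μ^2`, so `μ < 15`, `n ≤ 784`. -/
theorem min_deg {G : Subgroup (Perm Ω)} (h2 : Two G) (hA : ¬ alternatingGroup Ω ≤ G)
    (hn : 785 ≤ Fintype.card Ω) {x : Perm Ω} (hx : x ∈ G) (hx1 : x ≠ 1) :
    Fintype.card Ω ≤ 5 * x.support.card := by
  have h2' : MulAction.IsMultiplyPretransitive G Ω 2 := by
    rw [MulAction.is_two_pretransitive_iff]
    intro a b c d hab hcd
    obtain ⟨g, hg, h1, h3⟩ := h2 a b c d hab hcd
    exact ⟨⟨g, hg⟩, h1, h3⟩
  exact MinDeg51.min_deg G (MulAction.isPreprimitive_of_is_two_pretransitive h2') h2 hA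
    (by omega) x hx hx1

end PR12
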