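import Pool.Agent.PR12.Defs

/-!
# PR12/CrtS34: no large symmetric group on a small set
-/

namespace PR12.S34

open Equiv

universe u

variable {Ω : Type u} [Fintype Ω] [DecidableEq Ω]

theorem exists_perm (Z k : ℕ) (hk : Z ^ 2 ≤ k) :
    ∃ π : Perm (Fin k), Nat.lcmUpto Z ∣ orderOf π := by
  have hs : (Finset.Icc 2 Z).val.sum ≤ Fintype.card (Fin k) := by
    rw [Fintype.card_fin]
    refine le_trans ?_ hk
    have h1 : (Finset.Icc 2 Z).val.sum = ∑ i ∈ Finset.Icc 2 Z, i := by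
      rw [Finset.sum, Multiset.map_id']
    rw [h1]
    calc ∑ i ∈ Finset.Icc 2 Z, i ≤ ∑ _i ∈ Finset.Icc 2 Z, Z :=
          Finset.sum_le_sum fun i hi => (Finset.mem_Icc.1 hi).2
      _ = (Finset.Icc 2 Z).card * Z := by rw [Finset.sum_const, smul_eq_mul]
      _ ≤ Z * Z := by
          refine Nat.mul_le_mul_right _ ?_
          rw [Nat.card_Icc]
          omega
      _ = Z ^ 2 := by ring
  have h2 : ∀ a ∈ (Finset.Icc 2 Z).val, 2 ≤ a := by
    intro a ha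
    rw [Finset.mem_val, Finset.mem_Icc] at ha
    exact ha.1
  obtain ⟨g, hg⟩ := (Equiv.Perm.exists_with_cycleType_iff (α := Fin k)
    (m := (Finset.Icc 2 Z).val)).2 ⟨hs, h2⟩
  refine ⟨g, ?_⟩
  rw [← Equiv.Perm.lcm_cycleType, hg, Nat.lcmUpto]
  refine Finset.lcm_dvd fun i hi => ?_
  rw [Finset.mem_Icc] at hi
  rcases Nat.eq_or_lt_of_le hi.1 with h | h
  · rw [← h]
    exact one_dvd _
  · refine Multiset.dvd_lcm ?_
    rw [Finset.mem_val, Finset.mem_Icc]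
    exact ⟨h, hi.2⟩

theorem no_full
    (order_bound : ∀ {x : Perm Ω} (Z : ℕ), Nat.lcmUpto Z ∣ orderOf x →
      (∀ m : ℕ, x ^ m ≠ 1 → Fintype.card Ω ≤ 5 * (x ^ m).support.card) →
      1 ≤ Fintype.card Ω → Nat.lcmUpto Z ≤ Fintype.card Ω ^ 5)
    {G : Subgroup (Perm Ω)} (hmin : ∀ x ∈ G, x ≠ 1 → Fintype.card Ω ≤ 5 * x.support.card)
    (hn : 1 ≤ Fintype.card Ω) (Z k : ℕ) (hk : Z ^ 2 ≤ k)
    (hZ : Fintype.card Ω ^ 5 < Nat.lcmUpto Z) (f : Fin k → Ω) (hf : Function.Injective f)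
    (hfull : ∀ π : Perm (Fin k), ∃ g ∈ G, ∀ i, g (f i) = f (π i)) : False := by
  obtain ⟨π, hπ⟩ := exists_perm Z k hk
  obtain ⟨g, hg, hgf⟩ := hfull π
  have hpow : ∀ m : ℕ, ∀ i, (g ^ m) (f i) = f ((π ^ m) i) := by
    intro m
    induction m with
    | zero => intro i; simp
    | succ m ih =>
      intro i
      rw [pow_succ, pow_succ, Perm.mul_apply, Perm.mul_apply, hgf, ih]
  have hord : orderOf π ∣ orderOf g := by
    refine orderOf_dvd_of_pow_eq_one ?_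
    ext i
    have h1 := hpow (orderOf g) i
    rw [pow_orderOf_eq_one, Perm.one_apply] at h1
    rw [← hf h1, Perm.one_apply]
  have h1 := order_bound Z (hπ.trans hord)
    (fun m hm => hmin _ (G.pow_mem hg m) hm) hn
  exact absurd hZ (not_lt.2 h1)

end PR12.S34
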