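import Mathlib

/-!
# The order of a permutation all of whose nontrivial powers move a fifth of the points
-/

namespace PR12.OrdB51

open Equiv Finset

variable {Ω : Type*} [Fintype Ω] [DecidableEq Ω]

omit [Fintype Ω] [DecidableEq Ω] in
theorem pow_fix_iff (x : Perm Ω) (m : ℕ) (c : Ω) :
    (x ^ m) c = c ↔ Function.minimalPeriod x c ∣ m := by
  rw [← Function.isPeriodicPt_iff_minimalPeriod_dvd, Function.IsPeriodicPt, Function.IsFixedPt,
    Perm.iterate_eq_pow]

omit [DecidableEq Ω] in
theorem mp_pos (x : Perm Ω) (c : Ω) : 0 < Function.minimalPeriod x c := by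
  apply Function.minimalPeriod_pos_of_mem_periodicPts
  refine ⟨orderOf x, orderOf_pos x, ?_⟩
  rw [Function.IsPeriodicPt, Function.IsFixedPt, Perm.iterate_eq_pow, pow_orderOf_eq_one]
  rfl

omit [Fintype Ω] [DecidableEq Ω] in
theorem mp_dvd (x : Perm Ω) (c : Ω) : Function.minimalPeriod x c ∣ orderOf x := by
  rw [← pow_fix_iff, pow_orderOf_eq_one]
  rfl

omit [DecidableEq Ω] in
/-- a point moved by `x ^ (N / p)` has a period divisible by every power of `p` that divides `N` -/
theorem dvd_mp (x : Perm Ω) {p : ℕ} (hp : p.Prime) {q : ℕ}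
    (hq : p ^ q ∣ orderOf x) {c : Ω} (hc : (x ^ (orderOf x / p)) c ≠ c) :
    p ^ q ∣ Function.minimalPeriod x c := by
  rw [Ne, pow_fix_iff] at hc
  have hN : 0 < orderOf x := orderOf_pos x
  obtain ⟨r, hr⟩ := mp_dvd x c
  -- `p` does not divide `r`
  have hpr : ¬ p ∣ r := by
    rintro ⟨r', rfl⟩
    apply hc
    rw [hr]
    refine ⟨r', ?_⟩
    rw [show Function.minimalPeriod x c * (p * r') = p * (Function.minimalPeriod x c * r') by ring,
      Nat.mul_div_cancel_left _ hp.pos]
  rw [hr] at hq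
  exact (Nat.Coprime.pow_left q ((Nat.Prime.coprime_iff_not_dvd hp).mpr hpr)).dvd_of_dvd_mul_right hq

theorem order_bound {x : Perm Ω} (Z : ℕ) (hZ : Nat.lcmUpto Z ∣ orderOf x)
    (hmin : ∀ m : ℕ, x ^ m ≠ 1 → Fintype.card Ω ≤ 5 * (x ^ m).support.card)
    (hn : 1 ≤ Fintype.card Ω) : Nat.lcmUpto Z ≤ Fintype.card Ω ^ 5 := by
  classical
  set n := Fintype.card Ω with hnd
  set N := orderOf x with hN
  have hNpos : 0 < N := orderOf_pos x
  set q : ℕ → ℕ := fun p => p ^ Nat.log p Z with hqd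
  have hlcm : Nat.lcmUpto Z = ∏ p ∈ Nat.primesLE Z, q p := Nat.lcmUpto_eq_prod_pow_log Z
  have hprime : ∀ p ∈ Nat.primesLE Z, p.Prime ∧ p ≤ Z := by
    intro p hp
    rw [Nat.mem_primesLE] at hp
    exact ⟨hp.2, hp.1⟩
  have hqN : ∀ p ∈ Nat.primesLE Z, q p ∣ N := fun p hp =>
    (Finset.dvd_prod_of_mem q hp).trans (hlcm ▸ hZ)
  -- many points for each prime
  have hmany : ∀ p ∈ Nat.primesLE Z,
      n ≤ 5 * (univ.filter (fun c : Ω => q p ∣ Function.minimalPeriod x c)).card := by
    intro p hp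
    obtain ⟨hpp, hpZ⟩ := hprime p hp
    have hpq : p ∣ q p := by
      have hlog : Nat.log p Z ≠ 0 := by
        rw [Ne, Nat.log_eq_zero_iff]
        push Not
        exact ⟨hpZ, hpp.one_lt⟩
      exact dvd_pow_self p hlog
    have hpN : p ∣ N := hpq.trans (hqN p hp)
    have hne : x ^ (N / p) ≠ 1 := by
      intro h
      have h1 : N ∣ N / p := orderOf_dvd_of_pow_eq_one h
      have h2 : N / p < N := Nat.div_lt_self hNpos hpp.one_lt
      have h3 : 0 < N / p := Nat.div_pos (Nat.le_of_dvd hNpos hpN) hpp.pos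
      exact absurd (Nat.le_of_dvd h3 h1) (not_le.mpr h2)
    refine (hmin _ hne).trans (Nat.mul_le_mul_left 5 (Finset.card_le_card ?_))
    intro c hc
    rw [Perm.mem_support] at hc
    rw [Finset.mem_filter]
    exact ⟨Finset.mem_univ _, dvd_mp x hpp (hqN p hp) hc⟩
  -- for each point the product of its prime powers is at most `n`
  have hpt : ∀ c : Ω, ∏ p ∈ Nat.primesLE Z,
      (if q p ∣ Function.minimalPeriod x c then q p else 1) ≤ n := by
    intro c
    refine le_trans (Nat.le_of_dvd (mp_pos x c) ?_) Function.minimalPeriod_le_card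
    refine Finset.prod_dvd_of_isRelPrime ?_ ?_
    · intro p hp p' hp' hne
      have h0 : Nat.Coprime (q p) (q p') :=
        Nat.Coprime.pow _ _ ((Nat.coprime_primes (hprime p hp).1 (hprime p' hp').1).mpr hne)
      show IsRelPrime (if q p ∣ Function.minimalPeriod x c then q p else 1)
        (if q p' ∣ Function.minimalPeriod x c then q p' else 1)
      rw [← Nat.coprime_iff_isRelPrime]
      split_ifs
      · exact h0
      · exact Nat.coprime_one_right _
      · exact Nat.coprime_one_left _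
      · exact Nat.coprime_one_left _
    · intro p _
      split_ifs with h
      · exact h
      · exact one_dvd _
  have h1 : ∏ c : Ω, ∏ p ∈ Nat.primesLE Z,
      (if q p ∣ Function.minimalPeriod x c then q p else 1) ≤ n ^ n := by
    refine (Finset.prod_le_prod' (fun c _ => hpt c)).trans ?_
    rw [Finset.prod_const, Finset.card_univ]
  rw [Finset.prod_comm] at h1
  have h2 : ∀ p ∈ Nat.primesLE Z, q p ^ n ≤
      (∏ c : Ω, (if q p ∣ Function.minimalPeriod x c then q p else 1)) ^ 5 := by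
    intro p hp
    rw [Finset.prod_ite, Finset.prod_const_one, mul_one, Finset.prod_const]
    have h5 : ∀ a m : ℕ, (a ^ m) ^ 5 = a ^ (5 * m) := fun a m => by rw [← pow_mul, mul_comm]
    rw [h5]
    exact Nat.pow_le_pow_right (pow_pos (hprime p hp).1.pos _) (hmany p hp)
  have h3 : Nat.lcmUpto Z ^ n ≤ (n ^ 5) ^ n := by
    calc Nat.lcmUpto Z ^ n = ∏ p ∈ Nat.primesLE Z, q p ^ n := by
          rw [hlcm, Finset.prod_pow]
      _ ≤ ∏ p ∈ Nat.primesLE Z,
          (∏ c : Ω, (if q p ∣ Function.minimalPeriod x c then q p else 1)) ^ 5 :=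
          Finset.prod_le_prod' h2
      _ = (∏ p ∈ Nat.primesLE Z,
          ∏ c : Ω, (if q p ∣ Function.minimalPeriod x c then q p else 1)) ^ 5 := by
          rw [Finset.prod_pow]
      _ ≤ (n ^ n) ^ 5 := Nat.pow_le_pow_left h1 5
      _ = (n ^ 5) ^ n := by rw [← pow_mul, ← pow_mul, mul_comm]
  exact (Nat.pow_le_pow_iff_left (by omega)).mp h3

end PR12.OrdB51
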