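import Pool.Agent.PR12.Defs
import Pool.Agent.PR12.OrdB51
import Pool.Agent.PR12.CrtS34

/-!
# PR12/Crt (STUB): no large symmetric group on a small set
-/

namespace PR12

open Equiv

universe u

variable {Ω : Type u} [Fintype Ω] [DecidableEq Ω]

/-- PROOF. `∑_{p ≤ Z} p ^ (log_p Z) ≤ Z * Z ≤ k` (sum over the primes; `lcmUpto_eq_prod_pow_log`), so there is a permutation `π` of `Fin k` with these cycle lengths
(`Equiv.Perm.exists_with_cycleType_iff`); every `p ^ (log_p Z)` divides its order. -/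
theorem exists_perm (Z k : ℕ) (hk : Z ^ 2 ≤ k) :
    ∃ π : Perm (Fin k), Nat.lcmUpto Z ∣ orderOf π := by
  exact S34.exists_perm Z k hk

/-- PROOF. `N = orderOf x`, `l c = Function.minimalPeriod x c ≤ n`. For a prime `p ≤ Z` (so `p ∣ N`) and `y = x ^ (N / p) ≠ 1`: for `c ∈ supp y`, `l c ∣ N`, `¬ l c ∣ N / p`, so
`p ^ (N.factorization p) ∣ l c`, so `p ^ (log_p Z) ∣ l c`. For each `c` the product of these prime powers divides `l c`. So
`∏_p (p ^ log_p Z) ^ |supp x^(N/p)| ≤ n ^ n`, fifth power: `(lcmUpto Z) ^ n ≤ n ^ (5 n)`. -/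
theorem order_bound {x : Perm Ω} (Z : ℕ) (hZ : Nat.lcmUpto Z ∣ orderOf x)
    (hmin : ∀ m : ℕ, x ^ m ≠ 1 → Fintype.card Ω ≤ 5 * (x ^ m).support.card)
    (hn : 1 ≤ Fintype.card Ω) : Nat.lcmUpto Z ≤ Fintype.card Ω ^ 5 := by
  exact OrdB51.order_bound Z hZ hmin hn

/-- PROOF. `π` from `exists_perm`, `g ∈ G` with `g (f i) = f (π i)`; `orderOf π ∣ orderOf g` (`f` injective). `order_bound`. -/
theorem no_full {G : Subgroup (Perm Ω)} (hmin : ∀ x ∈ G, x ≠ 1 → Fintype.card Ω ≤ 5 * x.support.card)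
    (hn : 1 ≤ Fintype.card Ω) (Z k : ℕ) (hk : Z ^ 2 ≤ k)
    (hZ : Fintype.card Ω ^ 5 < Nat.lcmUpto Z) (f : Fin k → Ω) (hf : Function.Injective f)
    (hfull : ∀ π : Perm (Fin k), ∃ g ∈ G, ∀ i, g (f i) = f (π i)) : False := by
  exact S34.no_full (fun Z h1 h2 h3 => order_bound Z h1 h2 h3) hmin hn Z k hk hZ f hf hfull

end PR12
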