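import Pool.Agent.PR12.Defs

/-!
# PR12/CrtS41: order_bound (shadow, helper41)
-/

set_option autoImplicit false

namespace PR12.S41

open Equiv Finset

universe u

variable {Ω : Type u} [Fintype Ω] [DecidableEq Ω]

theorem ppow_dvd_of {N l p e : ℕ} (hp : p.Prime) (hlN : l ∣ N) (h : ¬ l ∣ N / p)
    (he : p ^ e ∣ N) : p ^ e ∣ l := by
  obtain ⟨m, rfl⟩ := hlN
  have hpm : ¬ p ∣ m := by
    rintro ⟨k, rfl⟩
    apply h
    refine ⟨k, ?_⟩
    rw [show l * (p * k) = p * (l * k) by ring, Nat.mul_div_cancel_left _ hp.pos]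
  exact (Nat.Coprime.pow_left e ((Nat.Prime.coprime_iff_not_dvd hp).2 hpm)).dvd_of_dvd_mul_right he

theorem order_bound {x : Perm Ω} (Z : ℕ) (hZ : Nat.lcmUpto Z ∣ orderOf x)
    (hmin : ∀ m : ℕ, x ^ m ≠ 1 → Fintype.card Ω ≤ 5 * (x ^ m).support.card)
    (hn : 1 ≤ Fintype.card Ω) : Nat.lcmUpto Z ≤ Fintype.card Ω ^ 5 := by
  classical
  set n := Fintype.card Ω with hnd
  set N := orderOf x with hNd
  have hN : 0 < N := orderOf_pos x
  have hL : Nat.lcmUpto Z = ∏ p ∈ Nat.primesLE Z, p ^ p.log Z := Nat.lcmUpto_eq_prod_pow_log Z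
  have hprime : ∀ p ∈ Nat.primesLE Z, p.Prime := fun p hp => Nat.prime_of_mem_primesLE hp
  have hqN : ∀ p ∈ Nat.primesLE Z, p ^ p.log Z ∣ N := fun p hp =>
    (hL ▸ Finset.dvd_prod_of_mem (fun p => p ^ p.log Z) hp : p ^ p.log Z ∣ Nat.lcmUpto Z).trans hZ
  have hy : ∀ p ∈ Nat.primesLE Z, x ^ (N / p) ≠ 1 := by
    intro p hp
    have hpp := hprime p hp
    have hpZ : p ≤ Z := (Nat.mem_primesLE.1 hp).1
    have h1 : 1 ≤ p.log Z := Nat.log_pos hpp.one_lt hpZ
    have h2 : p ∣ N := (dvd_pow_self p (by omega)).trans (hqN p hp)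
    have h3 : 0 < N / p := Nat.div_pos (Nat.le_of_dvd hN h2) hpp.pos
    have h4 : N / p < N := Nat.div_lt_self hN hpp.one_lt
    exact pow_ne_one_of_lt_orderOf h3.ne' h4
  have key : ∀ c : Ω, ∏ p ∈ Nat.primesLE Z, (if (x ^ (N / p)) c ≠ c then p ^ p.log Z else 1) ≤ n := by
    intro c
    rw [← Finset.prod_filter]
    have hl1 : Function.IsPeriodicPt x N c := by
      unfold Function.IsPeriodicPt Function.IsFixedPt
      rw [Equiv.Perm.iterate_eq_pow, hNd, pow_orderOf_eq_one]
      rfl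
    have hl0 : 0 < Function.minimalPeriod x c := hl1.minimalPeriod_pos hN
    have hdvd : ∏ p ∈ (Nat.primesLE Z).filter (fun p => (x ^ (N / p)) c ≠ c), p ^ p.log Z ∣
        Function.minimalPeriod x c := by
      refine Finset.prod_dvd_of_isRelPrime ?_ ?_
      · intro p hp p' hp' hne
        have h1 := hprime p (mem_filter.1 (mem_coe.1 hp)).1
        have h2 := hprime p' (mem_filter.1 (mem_coe.1 hp')).1
        exact Nat.coprime_iff_isRelPrime.1
          (Nat.Coprime.pow _ _ ((Nat.coprime_primes h1 h2).2 hne))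
      · intro p hp
        obtain ⟨hp1, hp2⟩ := mem_filter.1 hp
        refine ppow_dvd_of (hprime p hp1) hl1.minimalPeriod_dvd ?_ (hqN p hp1)
        intro h
        apply hp2
        have h3 := (Function.isPeriodicPt_iff_minimalPeriod_dvd).2 h
        unfold Function.IsPeriodicPt Function.IsFixedPt at h3
        rwa [Equiv.Perm.iterate_eq_pow] at h3
    refine (Nat.le_of_dvd hl0 hdvd).trans ?_
    have h5 := Finset.card_le_card_of_injOn (s := Finset.range (Function.minimalPeriod x c))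
      (t := (Finset.univ : Finset Ω)) (fun i => x^[i] c) (fun i _ => Finset.mem_coe.2 (mem_univ _))
      (by
        intro i hi j hj hij
        exact Function.iterate_injOn_Iio_minimalPeriod (by simpa using hi) (by simpa using hj) hij)
    rwa [Finset.card_range, Finset.card_univ] at h5
  have h1 : ∏ p ∈ Nat.primesLE Z, (p ^ p.log Z) ^ (x ^ (N / p)).support.card ≤ n ^ n := by
    have h2 : ∏ c : Ω, ∏ p ∈ Nat.primesLE Z, (if (x ^ (N / p)) c ≠ c then p ^ p.log Z else 1) ≤
        ∏ _c : Ω, n := Finset.prod_le_prod' fun c _ => key c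
    rw [Finset.prod_comm, Finset.prod_const, Finset.card_univ] at h2
    refine le_trans (le_of_eq ?_) h2
    refine Finset.prod_congr rfl fun p _ => ?_
    rw [← Finset.prod_filter, Finset.prod_const]
    rfl
  have h3 : Nat.lcmUpto Z ^ n ≤ (n ^ 5) ^ n := by
    calc Nat.lcmUpto Z ^ n = ∏ p ∈ Nat.primesLE Z, (p ^ p.log Z) ^ n := by
          rw [hL, Finset.prod_pow]
      _ ≤ ∏ p ∈ Nat.primesLE Z, ((p ^ p.log Z) ^ (x ^ (N / p)).support.card) ^ 5 := by
          refine Finset.prod_le_prod' fun p hp => ?_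
          rw [← pow_mul (p ^ p.log Z) _ 5]
          refine Nat.pow_le_pow_right (Nat.pow_pos (hprime p hp).pos) ?_
          rw [mul_comm]
          exact hmin _ (hy p hp)
      _ = (∏ p ∈ Nat.primesLE Z, (p ^ p.log Z) ^ (x ^ (N / p)).support.card) ^ 5 := by
          rw [Finset.prod_pow]
      _ ≤ (n ^ n) ^ 5 := Nat.pow_le_pow_left h1 5
      _ = (n ^ 5) ^ n := by rw [← pow_mul, ← pow_mul, mul_comm]
  exact (Nat.pow_le_pow_iff_left (by omega)).1 h3

end PR12.S41
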