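import Mathlib

/-!
# Orders of primitive groups (elementary): notation
-/

namespace PR12

open Equiv

universe u

variable {Ω : Type u}

/-- `a` and `b` lie in one orbit of the pointwise stabilizer of `B` in `G`. -/
def Same (G : Subgroup (Perm Ω)) (B : Set Ω) (a b : Ω) : Prop :=
  ∃ g ∈ G, (∀ c ∈ B, g c = c) ∧ g a = b

/-- the orbit of `x` under the pointwise stabilizer of `B` -/
noncomputable def orb [Fintype Ω] (G : Subgroup (Perm Ω)) (B : Set Ω) (x : Ω) : Finset Ω := by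
  classical exact Finset.univ.filter (fun y => Same G B x y)

/-- the points that distinguish `a` and `b` -/
noncomputable def DD [Fintype Ω] (G : Subgroup (Perm Ω)) (a b : Ω) : Finset Ω := by
  classical exact Finset.univ.filter (fun c => ¬ Same G {c} a b)

/-- transitive, and every invariant equivalence relation is trivial -/
def Prim (G : Subgroup (Perm Ω)) : Prop :=
  (∀ a b, ∃ g ∈ G, g a = b) ∧
    ∀ r : Setoid Ω, (∀ g ∈ G, ∀ a b, r a b → r (g a) (g b)) → (∀ a b, r a b → a = b) ∨ ∀ a b, r a b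

/-- doubly transitive -/
def Two (G : Subgroup (Perm Ω)) : Prop :=
  ∀ a b c d : Ω, a ≠ b → c ≠ d → ∃ g ∈ G, g a = c ∧ g b = d

theorem same_refl (G : Subgroup (Perm Ω)) (B : Set Ω) (a : Ω) : Same G B a a :=
  ⟨1, G.one_mem, fun _ _ => rfl, rfl⟩

theorem Same.symm {G : Subgroup (Perm Ω)} {B : Set Ω} {a b : Ω} (h : Same G B a b) :
    Same G B b a := by
  obtain ⟨g, hg, hB, hab⟩ := h
  refine ⟨g⁻¹, G.inv_mem hg, fun c hc => ?_, ?_⟩
  · rw [Perm.inv_eq_iff_eq]; exact (hB c hc).symm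
  · rw [Perm.inv_eq_iff_eq]; exact hab.symm

theorem Same.trans {G : Subgroup (Perm Ω)} {B : Set Ω} {a b c : Ω} (h : Same G B a b)
    (h' : Same G B b c) : Same G B a c := by
  obtain ⟨g, hg, hB, hab⟩ := h
  obtain ⟨g', hg', hB', hbc⟩ := h'
  refine ⟨g' * g, G.mul_mem hg' hg, fun x hx => ?_, ?_⟩
  · rw [Perm.mul_apply, hB x hx, hB' x hx]
  · rw [Perm.mul_apply, hab, hbc]

theorem Same.map {G : Subgroup (Perm Ω)} {B : Set Ω} {a b : Ω} (h : Same G B a b)
    {k : Perm Ω} (hk : k ∈ G) : Same G (k '' B) (k a) (k b) := by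
  obtain ⟨g, hg, hB, hab⟩ := h
  refine ⟨k * g * k⁻¹, G.mul_mem (G.mul_mem hk hg) (G.inv_mem hk), ?_, ?_⟩
  · rintro _ ⟨c, hc, rfl⟩
    simp [hB c hc]
  · simp [hab]

theorem mem_orb [Fintype Ω] {G : Subgroup (Perm Ω)} {B : Set Ω} {x y : Ω} :
    y ∈ orb G B x ↔ Same G B x y := by
  classical
  simp [orb]

theorem mem_DD [Fintype Ω] {G : Subgroup (Perm Ω)} {a b c : Ω} :
    c ∈ DD G a b ↔ ¬ Same G {c} a b := by
  classical
  simp [DD]

end PR12
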