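import Pool.Agent.PR12.Defs

/-!
# PR12/Geo: geodesics of an orbital graph
-/

namespace PR12

open Equiv

universe u

variable {Ω : Type u}

/-- the orbital graph of `{a, b}` -/
def X (G : Subgroup (Perm Ω)) (a b : Ω) : SimpleGraph Ω where
  Adj x y := x ≠ y ∧ ∃ g ∈ G, (g a = x ∧ g b = y) ∨ (g a = y ∧ g b = x)
  symm := ⟨fun _ _ h => ⟨h.1.symm, by
    obtain ⟨g, hg, h'⟩ := h.2
    exact ⟨g, hg, h'.symm⟩⟩⟩
  loopless := ⟨fun _ h => h.1 rfl⟩

theorem X_adj89 {G : Subgroup (Perm Ω)} {a b x y : Ω} {g : Perm Ω} (hg : g ∈ G)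
    (h : (X G a b).Adj x y) : (X G a b).Adj (g x) (g y) := by
  obtain ⟨hne, k, hk, h'⟩ := h
  refine ⟨fun h => hne (g.injective h), g * k, G.mul_mem hg hk, ?_⟩
  rcases h' with ⟨h1, h2⟩ | ⟨h1, h2⟩
  · left
    rw [Perm.mul_apply, Perm.mul_apply, h1, h2]
    exact ⟨rfl, rfl⟩
  · right
    rw [Perm.mul_apply, Perm.mul_apply, h1, h2]
    exact ⟨rfl, rfl⟩

/-- `g` as a homomorphism of the graph -/
def hom89 {G : Subgroup (Perm Ω)} (a b : Ω) {g : Perm Ω} (hg : g ∈ G) : X G a b →g X G a b where
  toFun := g
  map_rel' := X_adj89 hg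

theorem X_conn {G : Subgroup (Perm Ω)} (hP : Prim G) {a b : Ω} (hab : a ≠ b) :
    (X G a b).Connected := by
  have hne : Nonempty Ω := ⟨a⟩
  have hadj : (X G a b).Adj a b := ⟨hab, 1, G.one_mem, Or.inl ⟨rfl, rfl⟩⟩
  let r : Setoid Ω := (X G a b).reachableSetoid
  have hr : ∀ x y, r x y ↔ (X G a b).Reachable x y := fun x y => Iff.rfl
  rcases hP.2 r (fun g hg x y hxy => by
    rw [hr] at hxy ⊢
    exact hxy.map (hom89 a b hg)) with h | h
  · exact absurd (h a b hadj.reachable) hab
  · exact ⟨fun x y => h x y⟩

theorem dist_le89 {G : Subgroup (Perm Ω)} (hP : Prim G) {a b : Ω} (hab : a ≠ b) {g : Perm Ω}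
    (hg : g ∈ G) (x y : Ω) : (X G a b).dist (g x) (g y) ≤ (X G a b).dist x y := by
  obtain ⟨w, hw⟩ := ((X_conn hP hab).preconnected x y).exists_walk_length_eq_dist
  rw [← hw, ← SimpleGraph.Walk.length_map (hom89 a b hg) w]
  exact SimpleGraph.dist_le _

theorem X_dist {G : Subgroup (Perm Ω)} (hP : Prim G) {a b : Ω} (hab : a ≠ b) {g : Perm Ω}
    (hg : g ∈ G) (x y : Ω) : (X G a b).dist (g x) (g y) = (X G a b).dist x y := by
  refine le_antisymm (dist_le89 hP hab hg x y) ?_
  have h := dist_le89 hP hab (G.inv_mem hg) (g x) (g y)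
  have h1 : ∀ z, g⁻¹ (g z) = z := fun z => g.symm_apply_apply z
  rwa [h1, h1] at h

theorem DD_symm89 [Fintype Ω] {G : Subgroup (Perm Ω)} (x y : Ω) : DD G x y = DD G y x := by
  ext c
  rw [mem_DD, mem_DD]
  exact not_congr ⟨Same.symm, Same.symm⟩

theorem DD_map89 [Fintype Ω] {G : Subgroup (Perm Ω)} {g : Perm Ω} (hg : g ∈ G) (x y : Ω) :
    (DD G (g x) (g y)).card = (DD G x y).card := by
  classical
  have h : DD G (g x) (g y) = (DD G x y).map g.toEmbedding := by
    ext c
    rw [mem_DD, Finset.mem_map]
    constructor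
    · intro hc
      refine ⟨g⁻¹ c, ?_, g.apply_symm_apply c⟩
      rw [mem_DD]
      intro hs
      apply hc
      have := hs.map hg
      rwa [Set.image_singleton, show g (g⁻¹ c) = c from g.apply_symm_apply c] at this
    · rintro ⟨d, hd, rfl⟩ hs
      rw [mem_DD] at hd
      apply hd
      have := hs.map (G.inv_mem hg)
      have h1 : ∀ z, g⁻¹ (g z) = z := fun z => g.symm_apply_apply z
      rw [Set.image_singleton, h1, h1] at this
      show Same G {d} x y
      have h2 : g⁻¹ ((g.toEmbedding) d) = d := h1 d
      rwa [h2] at this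
  rw [h, Finset.card_map]

theorem DD_adj [Fintype Ω] {G : Subgroup (Perm Ω)} {a b x y : Ω} (h : (X G a b).Adj x y) :
    (DD G x y).card = (DD G a b).card := by
  obtain ⟨_, g, hg, h⟩ := h
  rcases h with ⟨rfl, rfl⟩ | ⟨rfl, rfl⟩
  · exact DD_map89 hg a b
  · rw [DD_symm89]
    exact DD_map89 hg a b

theorem DD_tri89 [Fintype Ω] [DecidableEq Ω] {G : Subgroup (Perm Ω)} (x y z : Ω) :
    DD G x z ⊆ DD G x y ∪ DD G y z := by
  intro c hc
  rw [Finset.mem_union, mem_DD, mem_DD]
  rw [mem_DD] at hc
  by_contra hcon
  push Not at hcon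
  exact hc (hcon.1.trans hcon.2)

theorem walk_le89 [Fintype Ω] {G : Subgroup (Perm Ω)} {a b x y : Ω} (w : (X G a b).Walk x y) :
    (DD G x y).card ≤ w.length * (DD G a b).card := by
  classical
  induction w with
  | nil =>
    rename_i x
    have : DD G x x = ∅ := by
      ext c
      rw [mem_DD]
      simp only [Finset.notMem_empty, iff_false, not_not]
      exact same_refl G _ x
    rw [this, Finset.card_empty]
    exact Nat.zero_le _
  | cons h w ih =>
    rename_i x y z
    rw [SimpleGraph.Walk.length_cons]
    calc (DD G x z).card ≤ (DD G x y ∪ DD G y z).card := Finset.card_le_card (DD_tri89 x y z)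
      _ ≤ (DD G x y).card + (DD G y z).card := Finset.card_union_le _ _
      _ ≤ (DD G a b).card + w.length * (DD G a b).card := by
          rw [DD_adj h]
          exact Nat.add_le_add_left ih _
      _ = (w.length + 1) * (DD G a b).card := by ring

theorem geo [Fintype Ω] {G : Subgroup (Perm Ω)} (hP : Prim G) {a b : Ω} (hab : a ≠ b)
    (x y : Ω) : (DD G x y).card ≤ (DD G a b).card ^ 2 := by
  classical
  set Y := X G a b with hY
  obtain ⟨w, hw⟩ := ((X_conn hP hab).preconnected x y).exists_walk_length_eq_dist
  have h1 := walk_le89 w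
  rw [hw] at h1
  -- the distance is at most `d`
  have h2 : (X G a b).dist x y ≤ (DD G a b).card := by
    rcases Nat.eq_zero_or_pos ((X G a b).dist x y) with h0 | hpos
    · rw [h0]
      exact Nat.zero_le _
    · have hlen : 0 < w.length := by rw [hw]; exact hpos
      have hadj : (X G a b).Adj (w.getVert 0) (w.getVert 1) := w.adj_getVert_succ hlen
      rw [← DD_adj hadj]
      -- distances from the start
      have hd0 : ∀ l, l ≤ w.length → (X G a b).dist (w.getVert l) (w.getVert 0) = l := by
        intro l hl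
        have e1 : (X G a b).dist (w.getVert 0) (w.getVert l) ≤ l := by
          have := SimpleGraph.dist_le (w.take l)
          rw [SimpleGraph.Walk.take_length] at this
          rw [SimpleGraph.Walk.getVert_zero]
          exact this.trans (min_le_left _ _)
        have e2 : (X G a b).dist (w.getVert l) y ≤ w.length - l := by
          have := SimpleGraph.dist_le (w.drop l)
          rwa [SimpleGraph.Walk.drop_length] at this
        have e3 : (X G a b).dist x y ≤ (X G a b).dist x (w.getVert l) +
            (X G a b).dist (w.getVert l) y := (X_conn hP hab).dist_triangle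
        rw [SimpleGraph.dist_comm]
        rw [SimpleGraph.Walk.getVert_zero] at e1 ⊢
        omega
      have hd1 : ∀ l, 1 ≤ l → l ≤ w.length → (X G a b).dist (w.getVert l) (w.getVert 1) ≤ l - 1 := by
        intro l h1l hl
        have e1 := SimpleGraph.dist_le (((w.drop 1).take (l - 1)))
        rw [SimpleGraph.Walk.take_length] at e1
        have e2 : (w.drop 1).getVert (l - 1) = w.getVert l := by
          rw [SimpleGraph.Walk.drop_getVert]
          congr 1
          omega
        rw [SimpleGraph.dist_comm, ← e2]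
        exact e1.trans (min_le_left _ _)
      have hmem : ∀ l, l ≤ w.length → w.getVert l ∈ DD G (w.getVert 0) (w.getVert 1) := by
        intro l hl
        rw [mem_DD]
        rintro ⟨g, hg, hfix, hgx⟩
        have hfix' := hfix _ rfl
        have e := X_dist hP hab hg (w.getVert l) (w.getVert 0)
        rw [hfix', hgx, hd0 l hl] at e
        rcases Nat.eq_zero_or_pos l with rfl | hl0
        · have : (X G a b).dist (w.getVert 0) (w.getVert 1) ≠ 0 := by
            intro h0
            have := ((X_conn hP hab).dist_eq_zero_iff).1 h0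
            exact hadj.ne this
          exact this e
        · have := hd1 l hl0 hl
          omega
      have hinj : Set.InjOn w.getVert (Finset.range (w.length + 1) : Set ℕ) := by
        intro l hl l' hl' h
        rw [Finset.coe_range, Set.mem_Iio] at hl hl'
        have e1 := hd0 l (by omega)
        have e2 := hd0 l' (by omega)
        rw [h] at e1
        omega
      have hcard : ((Finset.range (w.length + 1)).image w.getVert).card ≤
          (DD G (w.getVert 0) (w.getVert 1)).card := by
        refine Finset.card_le_card ?_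
        intro c hc
        obtain ⟨l, hl, rfl⟩ := Finset.mem_image.1 hc
        exact hmem l (by
          have := Finset.mem_range.1 hl
          omega)
      rw [Finset.card_image_of_injOn hinj, Finset.card_range] at hcard
      omega
  calc (DD G x y).card ≤ (X G a b).dist x y * (DD G a b).card := h1
    _ ≤ (DD G a b).card * (DD G a b).card := Nat.mul_le_mul_right _ h2
    _ = (DD G a b).card ^ 2 := (sq _).symm

end PR12
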