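import Pool.Agent.PR12.Defs

/-!
# PR12/HitS46: `hit` and `card_le_of_base` (helper46)
-/

set_option autoImplicit false

namespace PR12.S46

open Equiv PR12

universe u

theorem hit {X ι : Type*} [Fintype X] [Fintype ι] (hX : 0 < Fintype.card X) (D : ι → Finset X)
    (p q s : ℕ) (hp : p ≤ q) (hd : ∀ i, p * Fintype.card X ≤ q * (D i).card)
    (h : Fintype.card ι * (q - p) ^ s < q ^ s) : ∃ f : Fin s → X, ∀ i, ∃ j, f j ∈ D i := by
  classical
  by_contra hno
  push Not at hno
  -- the functions that miss `D i`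
  have hbad : ∀ i, q ^ s * (Fintype.piFinset (fun _ : Fin s => (D i)ᶜ)).card ≤
      (q - p) ^ s * Fintype.card X ^ s := by
    intro i
    rw [Fintype.card_piFinset, Finset.prod_const, Finset.card_univ, Fintype.card_fin, ← mul_pow,
      ← mul_pow]
    refine Nat.pow_le_pow_left ?_ s
    rw [Finset.card_compl]
    have h1 := hd i
    have h2 : (D i).card ≤ Fintype.card X := Finset.card_le_univ _
    obtain ⟨r, hr⟩ := Nat.exists_eq_add_of_le h2
    obtain ⟨w, hw⟩ := Nat.exists_eq_add_of_le hp
    have e1 : Fintype.card X - (D i).card = r := by omega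
    have e2 : q - p = w := by omega
    rw [e1, e2, hr]
    rw [hr, hw] at h1
    rw [hw]
    nlinarith
  have hcov : (Finset.univ : Finset (Fin s → X)) ⊆
      Finset.univ.biUnion fun i => Fintype.piFinset (fun _ : Fin s => (D i)ᶜ) := by
    intro f _
    obtain ⟨i, hi⟩ := hno f
    rw [Finset.mem_biUnion]
    refine ⟨i, Finset.mem_univ i, ?_⟩
    rw [Fintype.mem_piFinset]
    intro j
    rw [Finset.mem_compl]
    exact hi j
  have hcard : Fintype.card X ^ s ≤
      ∑ i, (Fintype.piFinset (fun _ : Fin s => (D i)ᶜ)).card := by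
    have h1 := (Finset.card_le_card hcov).trans Finset.card_biUnion_le
    rw [Finset.card_univ, Fintype.card_fun, Fintype.card_fin] at h1
    exact h1
  have hle : q ^ s * Fintype.card X ^ s ≤
      Fintype.card ι * (q - p) ^ s * Fintype.card X ^ s := by
    calc q ^ s * Fintype.card X ^ s
        ≤ q ^ s * ∑ i, (Fintype.piFinset (fun _ : Fin s => (D i)ᶜ)).card :=
          Nat.mul_le_mul_left _ hcard
      _ = ∑ i, q ^ s * (Fintype.piFinset (fun _ : Fin s => (D i)ᶜ)).card := by
          rw [Finset.mul_sum]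
      _ ≤ ∑ _i : ι, (q - p) ^ s * Fintype.card X ^ s := Finset.sum_le_sum fun i _ => hbad i
      _ = Fintype.card ι * (q - p) ^ s * Fintype.card X ^ s := by
          rw [Finset.sum_const, Finset.card_univ, smul_eq_mul, mul_assoc]
  have hpos : 0 < Fintype.card X ^ s := Nat.pow_pos hX
  exact absurd (Nat.le_of_mul_le_mul_right hle hpos) (not_le.2 h)

theorem card_le_of_base {Ω : Type u} [Fintype Ω] {G : Subgroup (Perm Ω)} {J : Type*} [Fintype J]
    (f : J → Ω) (h : ∀ g ∈ G, (∀ j, g (f j) = f j) → g = 1) :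
    Nat.card G ≤ Fintype.card Ω ^ Fintype.card J := by
  classical
  let F : G → (J → Ω) := fun g j => (g : Perm Ω) (f j)
  have hF : Function.Injective F := by
    intro g k hgk
    have h1 : ((k : Perm Ω)⁻¹ * g : Perm Ω) = 1 := by
      refine h _ (G.mul_mem (G.inv_mem k.2) g.2) fun j => ?_
      have h2 : (g : Perm Ω) (f j) = (k : Perm Ω) (f j) := congrFun hgk j
      rw [Perm.mul_apply, h2]
      exact Equiv.symm_apply_apply (k : Perm Ω) (f j)
    apply Subtype.ext
    exact (inv_mul_eq_one.1 h1).symm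
  have h3 := Nat.card_le_card_of_injective F hF
  rw [Nat.card_eq_fintype_card (α := J → Ω), Fintype.card_fun] at h3
  exact h3

end PR12.S46
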