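import Pool.Agent.PR12.Defs

/-!
# PR12/HitS63: counting in transitive and doubly transitive groups (helper63)
-/

set_option autoImplicit false

namespace PR12.S63

open Equiv PR12

universe u

theorem fib {G β : Type*} [Group G] [Fintype G] [DecidableEq β] (φ : G → β) (S : Finset β)
    (hS : ∀ g, φ g ∈ S) (h : ∀ x ∈ S, ∀ y ∈ S, ∃ k : G, ∀ g, φ g = x → φ (k * g) = y)
    (x : β) (hx : x ∈ S) (p : G → Prop) [DecidablePred p] (hp : ∀ g, p g ↔ φ g = x) :
    S.card * (Finset.univ.filter p).card = Fintype.card G := by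
  have hle : ∀ x ∈ S, ∀ y ∈ S, (Finset.univ.filter (fun g => φ g = x)).card ≤
      (Finset.univ.filter (fun g => φ g = y)).card := by
    intro x hx y hy
    obtain ⟨k, hk⟩ := h x hx y hy
    apply Finset.card_le_card_of_injOn (fun g => k * g)
    · intro g hg
      rw [Finset.mem_coe, Finset.mem_filter] at hg ⊢
      exact ⟨Finset.mem_univ _, hk g hg.2⟩
    · intro g _ g' _ hgg
      exact mul_left_cancel hgg
  have h1 : (Finset.univ : Finset G).card =
      ∑ y ∈ S, (Finset.univ.filter (fun g => φ g = y)).card :=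
    Finset.card_eq_sum_card_fiberwise fun g _ => hS g
  have h2 : ∑ y ∈ S, (Finset.univ.filter (fun g => φ g = y)).card =
      ∑ _y ∈ S, (Finset.univ.filter p).card := by
    refine Finset.sum_congr rfl fun y hy => ?_
    have h3 : Finset.univ.filter p = Finset.univ.filter (fun g => φ g = x) :=
      Finset.filter_congr fun g _ => hp g
    rw [h3]
    exact le_antisymm (hle y hy x hx) (hle x hx y hy)
  rw [h2, Finset.sum_const, smul_eq_mul, Finset.card_univ] at h1
  exact h1.symm

theorem count_one {Ω : Type u} [Fintype Ω] [DecidableEq Ω] {G : Subgroup (Perm Ω)} [Fintype G]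
    (hT : ∀ a b, ∃ g ∈ G, g a = b) (a c : Ω) :
    Fintype.card Ω * (Finset.univ.filter (fun g : G => (g : Perm Ω) a = c)).card =
      Fintype.card G := by
  rw [← Finset.card_univ (α := Ω)]
  refine fib (fun g : G => (g : Perm Ω) a) Finset.univ (fun g => Finset.mem_univ _) ?_ c
    (Finset.mem_univ _) _ fun g => Iff.rfl
  intro x _ y _
  obtain ⟨k, hk, hxy⟩ := hT x y
  refine ⟨⟨k, hk⟩, fun g hg => ?_⟩
  change k ((g : Perm Ω) a) = y
  change (g : Perm Ω) a = x at hg
  rw [hg, hxy]

theorem count_two {Ω : Type u} [Fintype Ω] [DecidableEq Ω] {G : Subgroup (Perm Ω)} [Fintype G]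
    (h2 : Two G) {a b c d : Ω} (hab : a ≠ b) (hcd : c ≠ d) :
    Fintype.card Ω * (Fintype.card Ω - 1) *
      (Finset.univ.filter (fun g : G => (g : Perm Ω) a = c ∧ (g : Perm Ω) b = d)).card =
      Fintype.card G := by
  have h1 : Fintype.card Ω * (Fintype.card Ω - 1) = (Finset.univ : Finset Ω).offDiag.card := by
    rw [Finset.offDiag_card, Finset.card_univ, Nat.mul_sub_one]
  rw [h1]
  refine fib (fun g : G => ((g : Perm Ω) a, (g : Perm Ω) b)) (Finset.univ : Finset Ω).offDiag
    ?_ ?_ (c, d) ?_ _ ?_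
  · intro g
    rw [Finset.mem_offDiag]
    exact ⟨Finset.mem_univ _, Finset.mem_univ _, fun h => hab ((g : Perm Ω).injective h)⟩
  · rintro ⟨x1, x2⟩ hx ⟨y1, y2⟩ hy
    rw [Finset.mem_offDiag] at hx hy
    obtain ⟨k, hk, h3, h4⟩ := h2 x1 x2 y1 y2 hx.2.2 hy.2.2
    refine ⟨⟨k, hk⟩, fun g hg => ?_⟩
    have h5 : (g : Perm Ω) a = x1 := congrArg Prod.fst hg
    have h6 : (g : Perm Ω) b = x2 := congrArg Prod.snd hg
    change (k ((g : Perm Ω) a), k ((g : Perm Ω) b)) = (y1, y2)
    rw [h5, h6, h3, h4]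
  · rw [Finset.mem_offDiag]
    exact ⟨Finset.mem_univ _, Finset.mem_univ _, hcd⟩
  · intro g
    rw [Prod.mk.injEq]

end PR12.S63
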