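import Pool.Agent.PR12.Defs
import Pool.Agent.PR12.HitS46
import Pool.Agent.PR12.HitS63

/-!
# PR12/Hit (STUB)
-/

namespace PR12

open Equiv

universe u

/-- PROOF. The functions `f : Fin s → X` missing `D i` number `(|X| - |D i|) ^ s`, and
`q (|X| - |D i|) ≤ (q - p) |X|`; so `q ^ s * #bad ≤ |ι| (q - p) ^ s |X| ^ s < q ^ s |X| ^ s`. -/
theorem hit {X ι : Type*} [Fintype X] [Fintype ι] (hX : 0 < Fintype.card X) (D : ι → Finset X)
    (p q s : ℕ) (hp : p ≤ q) (hd : ∀ i, p * Fintype.card X ≤ q * (D i).card)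
    (h : Fintype.card ι * (q - p) ^ s < q ^ s) : ∃ f : Fin s → X, ∀ i, ∃ j, f j ∈ D i :=
  S46.hit hX D p q s hp hd h

/-- PROOF. `g ↦ (g (f j))_j` is injective on `G`. -/
theorem card_le_of_base {Ω : Type u} [Fintype Ω] {G : Subgroup (Perm Ω)} {J : Type*} [Fintype J]
    (f : J → Ω) (h : ∀ g ∈ G, (∀ j, g (f j) = f j) → g = 1) :
    Nat.card G ≤ Fintype.card Ω ^ Fintype.card J :=
  S46.card_le_of_base f h

/-- PROOF. `G` acts transitively: all `{g | g a = c}` are cosets of one subgroup. -/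
theorem count_one {Ω : Type u} [Fintype Ω] [DecidableEq Ω] {G : Subgroup (Perm Ω)} [Fintype G]
    (hT : ∀ a b, ∃ g ∈ G, g a = b) (a c : Ω) :
    Fintype.card Ω * (Finset.univ.filter (fun g : G => (g : Perm Ω) a = c)).card =
      Fintype.card G := by
  exact S63.count_one hT a c

/-- PROOF. As `count_one`, for ordered pairs of different points. -/
theorem count_two {Ω : Type u} [Fintype Ω] [DecidableEq Ω] {G : Subgroup (Perm Ω)} [Fintype G]
    (h2 : Two G) {a b c d : Ω} (hab : a ≠ b) (hcd : c ≠ d) :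
    Fintype.card Ω * (Fintype.card Ω - 1) *
      (Finset.univ.filter (fun g : G => (g : Perm Ω) a = c ∧ (g : Perm Ω) b = d)).card =
      Fintype.card G := by
  exact S63.count_two h2 hab hcd

end PR12
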