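import Pool.Agent.PR12.Hit

namespace PR12.S13

open Equiv PR12

universe u

variable {Ω : Type u} [Fintype Ω]

open Classical in
theorem bad_count {G : Subgroup (Perm Ω)} [Fintype G] (h2 : Two G) (k : ℕ) (hk : 1 ≤ k)
    (hn : 2 ≤ Fintype.card Ω) (B : Finset Ω)
    (hO : ∀ x, 2 * k * (orb G (B : Set Ω) x).card ≤ (2 * k - 1) * Fintype.card Ω)
    {a b : Ω} (hab : a ≠ b) :
    2 * k * (Finset.univ.filter (fun g : G => Same G (B : Set Ω) ((g : Perm Ω) a)
      ((g : Perm Ω) b))).card ≤ (2 * k - 1) * Fintype.card G := by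
  set n := Fintype.card Ω with hnd
  set P : Finset (Ω × Ω) := Finset.univ.filter (fun q : Ω × Ω => q.1 ≠ q.2 ∧
    Same G (B : Set Ω) q.1 q.2) with hP
  set bad : Finset G := Finset.univ.filter (fun g : G => Same G (B : Set Ω) ((g : Perm Ω) a)
      ((g : Perm Ω) b)) with hbad
  -- the number of pairs
  have hPc : P.card + n ≤ ∑ x, (orb G (B : Set Ω) x).card := by
    have h1 : P.card + n = (P ∪ Finset.univ.image (fun x : Ω => (x, x))).card := by
      rw [Finset.card_union_of_disjoint, Finset.card_image_of_injective, Finset.card_univ]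
      · intro x y hxy
        exact (Prod.mk.inj hxy).1
      · rw [Finset.disjoint_left]
        rintro ⟨x, y⟩ hx hy
        rw [hP, Finset.mem_filter] at hx
        rw [Finset.mem_image] at hy
        obtain ⟨z, _, hz⟩ := hy
        exact hx.2.1 ((Prod.mk.inj hz).1.symm.trans (Prod.mk.inj hz).2)
    rw [h1, ← Finset.card_sigma]
    refine Finset.card_le_card_of_injOn (fun q => (⟨q.1, q.2⟩ : (_ : Ω) × Ω)) ?_ ?_
    · rintro ⟨x, y⟩ hx
      rw [Finset.mem_coe, Finset.mem_sigma]
      refine ⟨Finset.mem_univ _, mem_orb.2 ?_⟩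
      rw [Finset.mem_coe, Finset.mem_union] at hx
      rcases hx with hx | hx
      · exact (Finset.mem_filter.1 hx).2.2
      · obtain ⟨z, _, hz⟩ := Finset.mem_image.1 hx
        obtain ⟨rfl, rfl⟩ := Prod.mk.inj hz
        exact same_refl G _ _
    · rintro ⟨x, y⟩ _ ⟨x', y'⟩ _ hxy
      simp only [Sigma.mk.injEq, heq_eq_eq] at hxy
      exact Prod.ext hxy.1 hxy.2
  have hO2 : 2 * k * (P.card + n) ≤ (2 * k - 1) * (n * n) := by
    calc 2 * k * (P.card + n) ≤ 2 * k * ∑ x, (orb G (B : Set Ω) x).card :=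
          Nat.mul_le_mul_left _ hPc
      _ = ∑ x, 2 * k * (orb G (B : Set Ω) x).card := Finset.mul_sum _ _ _
      _ ≤ ∑ _x : Ω, (2 * k - 1) * n := Finset.sum_le_sum fun x _ => hO x
      _ = (2 * k - 1) * (n * n) := by
          rw [Finset.sum_const, Finset.card_univ, smul_eq_mul]
          ring
  -- the number of bad elements
  have hbc : n * (n - 1) * bad.card = P.card * Fintype.card G := by
    have h1 : bad.card = ∑ q ∈ P, (Finset.univ.filter (fun g : G =>
        (g : Perm Ω) a = q.1 ∧ (g : Perm Ω) b = q.2)).card := by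
      rw [← Finset.card_biUnion]
      · congr 1
        ext g
        rw [hbad, Finset.mem_filter, Finset.mem_biUnion]
        constructor
        · rintro ⟨_, h⟩
          refine ⟨((g : Perm Ω) a, (g : Perm Ω) b), ?_, ?_⟩
          · rw [hP, Finset.mem_filter]
            exact ⟨Finset.mem_univ _, fun h0 => hab ((g : Perm Ω).injective h0), h⟩
          · exact Finset.mem_filter.2 ⟨Finset.mem_univ _, rfl, rfl⟩
        · rintro ⟨⟨x, y⟩, hq, hg⟩
          rw [Finset.mem_filter] at hg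
          obtain ⟨_, rfl, rfl⟩ := hg
          rw [hP, Finset.mem_filter] at hq
          exact ⟨Finset.mem_univ _, hq.2.2⟩
      · intro q _ q' _ hqq
        rw [Function.onFun, Finset.disjoint_left]
        intro g hg hg'
        rw [Finset.mem_filter] at hg hg'
        exact hqq (Prod.ext (hg.2.1.symm.trans hg'.2.1) (hg.2.2.symm.trans hg'.2.2))
    rw [h1, Finset.mul_sum]
    rw [Finset.sum_congr rfl (g := fun _ => Fintype.card G)]
    · rw [Finset.sum_const, smul_eq_mul]
    · intro q hq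
      rw [hP, Finset.mem_filter] at hq
      exact count_two h2 hab hq.2.1
  have hpos : 0 < n * (n - 1) := Nat.mul_pos (by omega) (by omega)
  refine Nat.le_of_mul_le_mul_left ?_ hpos
  obtain ⟨k', rfl⟩ : ∃ k', k = k' + 1 := ⟨k - 1, by omega⟩
  obtain ⟨m, hm⟩ : ∃ m, n = m + 1 := ⟨n - 1, by omega⟩
  have e1 : 2 * (k' + 1) - 1 = 2 * k' + 1 := by omega
  rw [e1] at hO2 ⊢
  rw [hm, Nat.add_sub_cancel] at hbc ⊢
  rw [hm] at hO2
  have h3 : 2 * (k' + 1) * P.card ≤ (2 * k' + 1) * ((m + 1) * m) := by nlinarith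
  calc (m + 1) * m * (2 * (k' + 1) * bad.card) = 2 * (k' + 1) * ((m + 1) * m * bad.card) := by ring
    _ = 2 * (k' + 1) * P.card * Fintype.card G := by rw [hbc]; ring
    _ ≤ (2 * k' + 1) * ((m + 1) * m) * Fintype.card G := Nat.mul_le_mul_right _ h3
    _ = (m + 1) * m * ((2 * k' + 1) * Fintype.card G) := by ring

theorem two_base {G : Subgroup (Perm Ω)} (h2 : Two G) (k s : ℕ) (hk : 1 ≤ k) (hn : 2 ≤ Fintype.card Ω)
    (B : Finset Ω) (hB : B.card ≤ k)
    (hO : ∀ x, 2 * k * (orb G (B : Set Ω) x).card ≤ (2 * k - 1) * Fintype.card Ω)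
    (hs : Fintype.card Ω ^ 2 * (2 * k - 1) ^ s < (2 * k) ^ s) :
    Nat.card G ≤ Fintype.card Ω ^ (k * s) := by
  classical
  have : Fintype G := Fintype.ofFinite G
  let ι := {p : Ω × Ω // p.1 ≠ p.2}
  let D : ι → Finset G := fun p => Finset.univ.filter (fun g : G =>
    ¬ Same G (B : Set Ω) ((g : Perm Ω) p.1.1) ((g : Perm Ω) p.1.2))
  have hX : 0 < Fintype.card G := Fintype.card_pos
  have hd : ∀ i : ι, 1 * Fintype.card G ≤ 2 * k * (D i).card := by
    rintro ⟨⟨a, b⟩, hab⟩
    have h1 := bad_count h2 k hk hn B hO hab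
    have h3 := Finset.card_filter_add_card_filter_not (s := (Finset.univ : Finset G))
      (fun g : G => Same G (B : Set Ω) ((g : Perm Ω) a) ((g : Perm Ω) b))
    rw [Finset.card_univ] at h3
    show 1 * Fintype.card G ≤ 2 * k * (Finset.univ.filter (fun g : G =>
      ¬ Same G (B : Set Ω) ((g : Perm Ω) a) ((g : Perm Ω) b))).card
    obtain ⟨k', rfl⟩ : ∃ k', k = k' + 1 := ⟨k - 1, by omega⟩
    have e1 : 2 * (k' + 1) - 1 = 2 * k' + 1 := by omega
    rw [e1] at h1
    nlinarith
  have hcι : Fintype.card ι ≤ Fintype.card Ω ^ 2 := by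
    calc Fintype.card ι ≤ Fintype.card (Ω × Ω) := Fintype.card_subtype_le _
      _ = _ := by rw [Fintype.card_prod, sq]
  obtain ⟨γ, hγ⟩ := hit hX D 1 (2 * k) s (by omega) hd
    (lt_of_le_of_lt (Nat.mul_le_mul_right _ hcι) hs)
  have hbase := card_le_of_base (G := G) (J := Fin s × B)
    (fun jb => ((γ jb.1 : Perm Ω))⁻¹ (jb.2 : Ω)) (by
      intro h hh hfix
      by_contra hne
      obtain ⟨a, ha⟩ : ∃ a, h a ≠ a := by
        by_contra hc
        push Not at hc
        exact hne (Equiv.ext hc)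
      obtain ⟨j, hj⟩ := hγ ⟨(a, h a), fun h0 => ha h0.symm⟩
      have hj' := (Finset.mem_filter.1 hj).2
      apply hj'
      refine ⟨(γ j : Perm Ω) * h * (γ j : Perm Ω)⁻¹,
        G.mul_mem (G.mul_mem (γ j).2 hh) (G.inv_mem (γ j).2), ?_, ?_⟩
      · intro c hc
        have h3 := hfix (j, ⟨c, hc⟩)
        simp only at h3
        rw [Perm.mul_apply, Perm.mul_apply, h3]
        simp
      · simp)
  refine hbase.trans (Nat.pow_le_pow_right (by omega) ?_)
  rw [Fintype.card_prod, Fintype.card_fin, Fintype.card_coe, mul_comm]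
  exact Nat.mul_le_mul_right _ hB

end PR12.S13
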