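import Pool.Agent.PR12.Hit
import Pool.Agent.PR12.SepS13

/-!
# PR12/Sep (STUB): random translates of a set in a doubly transitive group
-/

namespace PR12

open Equiv

universe u

variable {Ω : Type u} [Fintype Ω]

/-- PROOF. `hit` with `X = G`, `ι = {p : Ω × Ω // p.1 ≠ p.2}` (`|ι| ≤ n^2`), `D p = {g | ¬ Same G B (g p.1) (g p.2)}`, `p := 1`, `q := 2k`. Number of bad `g` for `(a,b)`: by `count_two`
`#{(u,v) | u ≠ v, Same G B u v} |G| / (n (n-1)) ≤ n ((2k-1) n / (2k) - 1) |G| / (n (n-1)) ≤ (2k-1)/(2k) |G|`, so `|G| ≤ 2k |D p|`. Get `γ : Fin s → G`; base: `J = Fin s × B`,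
`f (j, b) = (γ j)⁻¹ b`: if `h ∈ G` fixes all of them and `h a ≠ a`, some `j` has `¬ Same G B (γ_j a) (γ_j h a)`, but `γ_j h γ_j⁻¹` fixes `B` pointwise. `card_le_of_base`; `|J| ≤ k s`. -/
theorem two_base {G : Subgroup (Perm Ω)} (h2 : Two G) (k s : ℕ) (hk : 1 ≤ k) (hn : 2 ≤ Fintype.card Ω)
    (B : Finset Ω) (hB : B.card ≤ k)
    (hO : ∀ x, 2 * k * (orb G (B : Set Ω) x).card ≤ (2 * k - 1) * Fintype.card Ω)
    (hs : Fintype.card Ω ^ 2 * (2 * k - 1) ^ s < (2 * k) ^ s) :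
    Nat.card G ≤ Fintype.card Ω ^ (k * s) :=
  S13.two_base h2 k s hk hn B hB hO hs

end PR12
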