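import Pool.Agent.PR12.Uni
import Pool.Agent.PR12.Boch
import Pool.Agent.PR12.Big
import Pool.Agent.PR12.Crt
import Pool.Agent.PR12.Sep

/-!
# PR12/MainS32: doubly transitive groups, assembly
-/

namespace PR12.S32

open Equiv PR12

universe u

theorem two_card : ∃ t : ℕ, ∀ (Ω : Type u) [Fintype Ω] [DecidableEq Ω] (G : Subgroup (Perm Ω)),
    t < Fintype.card Ω → Two G → alternatingGroup Ω ≤ G ∨ Nat.card G ≤ 2 ^ Fintype.card Ω := by
  obtain ⟨t0, ht0⟩ := num_two
  refine ⟨max t0 785, fun Ω _ _ G ht h2 => ?_⟩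
  have hn1 : t0 < Fintype.card Ω := lt_of_le_of_lt (le_max_left _ _) ht
  have hn2 : 785 < Fintype.card Ω := lt_of_le_of_lt (le_max_right _ _) ht
  by_cases hA : alternatingGroup Ω ≤ G
  · exact Or.inl hA
  right
  have hmin : ∀ x ∈ G, x ≠ 1 → Fintype.card Ω ≤ 5 * x.support.card := fun x hx hx1 =>
    min_deg h2 hA hn2.le hx hx1
  set n := Fintype.card Ω with hn
  set k := (8 * (Nat.log 2 n + 1)) ^ 2 with hk
  have hk1 : 1 ≤ k := Nat.one_le_pow _ _ (by omega)
  have hT : ∀ a b : Ω, ∃ g ∈ G, g a = b := by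
    intro a b
    have hnt : Nontrivial Ω := Fintype.one_lt_card_iff_nontrivial.1 (by omega)
    obtain ⟨c, hc⟩ := exists_ne a
    obtain ⟨d, hd⟩ := exists_ne b
    obtain ⟨g, hg, h3, -⟩ := h2 a c b d hc.symm hd.symm
    exact ⟨g, hg, h3⟩
  have hB : ∃ B : Finset Ω, B.card < k ∧
      ∀ x, 2 * k * (orb G (B : Set Ω) x).card ≤ (2 * k - 1) * Fintype.card Ω := by
    by_contra hcon
    push Not at hcon
    obtain ⟨f, hf, hfull⟩ := exists_full hT k hk1 (by omega) hcon
    exact no_full hmin (by omega) (8 * (Nat.log 2 n + 1)) k le_rfl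
      (num_lcm n (by omega)) f hf hfull
  obtain ⟨B, hBk, hBo⟩ := hB
  have h3 := two_base h2 k (4 * k * (Nat.log 2 n + 1)) hk1 (by omega) B hBk.le hBo
    (num_sep n k hk1 (by omega))
  exact h3.trans (ht0 n hn1 k hk).1

end PR12.S32
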