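import Pool.Agent.PR12.Defs
import Pool.Agent.SR32.DefsP

/-!
# PR12/MainS64: from primitive permutation groups to maximal subgroups
-/

namespace PR12.S64

open Equiv PR12

universe u

theorem smul_one_eq {M : Type u} [Group M] (Λ : Subgroup M) (m : M) :
    m • ((1 : M) : M ⧸ Λ) = (m : M ⧸ Λ) := by
  rw [MulAction.Quotient.smul_coe, smul_eq_mul, mul_one]

/-- the permutation group induced on the cosets of a maximal subgroup is primitive -/
theorem prim_range {M : Type u} [Group M] (Λ : Subgroup M) (hΛ : IsCoatom Λ) :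
    Prim (MulAction.toPermHom M (M ⧸ Λ)).range := by
  refine ⟨fun a b => ?_, fun r hr => ?_⟩
  · obtain ⟨m, hm⟩ := MulAction.exists_smul_eq M a b
    exact ⟨MulAction.toPermHom M (M ⧸ Λ) m, ⟨m, rfl⟩, hm⟩
  · have hr' : ∀ (m : M) (a b : M ⧸ Λ), r a b → r (m • a) (m • b) := fun m a b h =>
      hr (MulAction.toPermHom M (M ⧸ Λ) m) ⟨m, rfl⟩ a b h
    let K : Subgroup M :=
      { carrier := {m | r (m : M ⧸ Λ) ((1 : M) : M ⧸ Λ)}
        one_mem' := r.refl _
        mul_mem' := by
          intro a b ha hb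
          have h1 := hr' a _ _ hb
          rw [smul_one_eq, MulAction.Quotient.smul_coe, smul_eq_mul] at h1
          exact r.trans h1 ha
        inv_mem' := by
          intro a ha
          have h1 := hr' a⁻¹ _ _ ha
          rw [smul_one_eq, MulAction.Quotient.smul_coe, smul_eq_mul, inv_mul_cancel] at h1
          exact r.symm h1 }
    have hK : Λ ≤ K := by
      intro m hm
      have h1 : ((m : M) : M ⧸ Λ) = ((1 : M) : M ⧸ Λ) := by
        rw [QuotientGroup.eq, mul_one]
        exact Λ.inv_mem hm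
      show r (m : M ⧸ Λ) ((1 : M) : M ⧸ Λ)
      rw [h1]
    rcases hΛ.le_iff.mp hK with h | h
    · right
      intro a b
      have h1 : ∀ c : M ⧸ Λ, r c ((1 : M) : M ⧸ Λ) := by
        intro c
        obtain ⟨m, rfl⟩ := QuotientGroup.mk_surjective c
        have : m ∈ K := by rw [h]; exact Subgroup.mem_top m
        exact this
      exact r.trans (h1 a) (r.symm (h1 b))
    · left
      intro a b hab
      obtain ⟨m, rfl⟩ := QuotientGroup.mk_surjective a
      obtain ⟨n, rfl⟩ := QuotientGroup.mk_surjective b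
      have h1 := hr' n⁻¹ _ _ hab
      rw [MulAction.Quotient.smul_mk, MulAction.Quotient.smul_mk, smul_eq_mul, smul_eq_mul,
        inv_mul_cancel] at h1
      have h2 : n⁻¹ * m ∈ K := h1
      rw [h] at h2
      exact (QuotientGroup.eq.mpr h2).symm

theorem primSmall_all_of (h : ∃ t : ℕ, ∀ (Ω : Type u) [Fintype Ω] [DecidableEq Ω]
    (G : Subgroup (Perm Ω)), t < Fintype.card Ω → Prim G →
      alternatingGroup Ω ≤ G ∨ Nat.card G ≤ 2 ^ Fintype.card Ω) :
    ∃ t : ℕ, ∀ (Γ : Type u) [Group Γ] [Finite Γ], SR32.PrimSmall t Γ := by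
  classical
  obtain ⟨t, ht⟩ := h
  refine ⟨t, fun Γ _ _ M Λ hΛ hi => ?_⟩
  haveI : Fintype (M ⧸ Λ) := Fintype.ofFinite _
  have hcard : Fintype.card (M ⧸ Λ) = Λ.index := by
    rw [← Nat.card_eq_fintype_card]
    rfl
  have hk : Nat.card (MulAction.toPermHom M (M ⧸ Λ)).range = Λ.normalCore.index := by
    rw [Subgroup.normalCore_eq_ker, Subgroup.index_ker]
  rcases ht (M ⧸ Λ) (MulAction.toPermHom M (M ⧸ Λ)).range (by rw [hcard]; exact hi)
    (prim_range Λ hΛ) with h1 | h1
  · right
    have h2 : Nat.card (alternatingGroup (M ⧸ Λ)) ≤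
        Nat.card (MulAction.toPermHom M (M ⧸ Λ)).range := Subgroup.card_le_of_le h1
    rw [hk] at h2
    have h0 : Λ.index ≠ 0 := Subgroup.index_ne_zero_of_finite
    have h1' : Λ.index ≠ 1 := fun h => hΛ.1 (Subgroup.index_eq_one.mp h)
    haveI : Nontrivial (M ⧸ Λ) := by
      rw [← Fintype.one_lt_card_iff_nontrivial, hcard]
      omega
    have h3 := two_mul_nat_card_alternatingGroup (α := M ⧸ Λ)
    rw [Nat.card_eq_fintype_card (α := Perm (M ⧸ Λ)), Fintype.card_perm, hcard] at h3
    omega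
  · left
    rw [hcard, hk] at h1
    exact h1

end PR12.S64
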