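import Pool.Agent.PR12.Uni
import Pool.Agent.PR12.Boch
import Pool.Agent.PR12.Big
import Pool.Agent.PR12.Crt
import Pool.Agent.PR12.Sep
import Pool.Agent.SR32.DefsP
import Pool.Agent.PR12.MainS64
import Pool.Agent.PR12.MainS32

/-!
# PR12/Main (STUB): primitive groups of large degree contain the alternating group or have order at most `2 ^ n`
-/

namespace PR12

open Equiv

universe u

/-- PROOF. `L = log2 n`, `Z = 8 (L+1)`, `k = Z^2`, `s = 4 k (L+1)`. If not `alternatingGroup Ω ≤ G`: `min_deg`, `num_lcm`, `no_full`, so `exists_full` fails: some `B`, `|B| < k`, has all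
orbits `≤ (2k-1) n / (2k)`. `two_base`, `num_sep`, `num_two`. -/
theorem two_card : ∃ t : ℕ, ∀ (Ω : Type u) [Fintype Ω] [DecidableEq Ω] (G : Subgroup (Perm Ω)),
    t < Fintype.card Ω → Two G → alternatingGroup Ω ≤ G ∨ Nat.card G ≤ 2 ^ Fintype.card Ω :=
  S32.two_card

theorem prim_card : ∃ t : ℕ, ∀ (Ω : Type u) [Fintype Ω] [DecidableEq Ω] (G : Subgroup (Perm Ω)),
    t < Fintype.card Ω → Prim G → alternatingGroup Ω ≤ G ∨ Nat.card G ≤ 2 ^ Fintype.card Ω := by
  obtain ⟨t1, h1⟩ := uni_card.{u}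
  obtain ⟨t2, h2⟩ := two_card.{u}
  refine ⟨max t1 t2, fun Ω _ _ G ht hP => ?_⟩
  by_cases h : Two G
  · exact h2 Ω G (lt_of_le_of_lt (le_max_right _ _) ht) h
  · exact Or.inr (h1 Ω G (lt_of_le_of_lt (le_max_left _ _) ht) hP h)

/-- PROOF. `M` acts on `Ω = M ⧸ Λ` (`MulAction.toPermHom`), `P` = range, kernel = `Λ.normalCore` (`Subgroup.normalCore_eq_ker`), so `Λ.normalCore.index = Nat.card P`, `|Ω| = Λ.index`.
`P` is `Prim`: an invariant equivalence relation `r` on `M ⧸ Λ` gives the subgroup `{m | r (m Λ) Λ} ≥ Λ`; it is `Λ` or `⊤`. If `alternatingGroup Ω ≤ P` then `n! ≤ 2 |P|`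
(`two_mul_card_alternatingGroup`). -/
theorem primSmall_all : ∃ t : ℕ, ∀ (Γ : Type u) [Group Γ] [Finite Γ], SR32.PrimSmall t Γ :=
  S64.primSmall_all_of prim_card

end PR12
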