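import Pool.Agent.PR12.NumS3

/-!
# PR12/Num: numbers
-/

namespace PR12

theorem pow_le_two (n : ℕ) : n ^ (n / (Nat.log 2 n + 1)) ≤ 2 ^ n := S3.pow_le_two n

theorem num_uni : ∃ t : ℕ, ∀ n : ℕ, t < n → ∀ d : ℕ, n ≤ d ^ 4 → d ≤ n →
    n ^ 2 * (n - d) ^ (n / (Nat.log 2 n + 1)) < n ^ (n / (Nat.log 2 n + 1)) := S3.num_uni

theorem num_lcm (n : ℕ) (hn : 1 ≤ n) :
    n ^ 5 < Nat.lcmUpto (8 * (Nat.log 2 n + 1)) := S3.num_lcm n hn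

theorem num_sep (n k : ℕ) (hk : 1 ≤ k) (hn : 1 ≤ n) :
    n ^ 2 * (2 * k - 1) ^ (4 * k * (Nat.log 2 n + 1)) < (2 * k) ^ (4 * k * (Nat.log 2 n + 1)) :=
  S3.num_sep n k hk hn

theorem num_two : ∃ t : ℕ, ∀ n : ℕ, t < n → ∀ k : ℕ, k = (8 * (Nat.log 2 n + 1)) ^ 2 →
    n ^ (k * (4 * k * (Nat.log 2 n + 1))) ≤ 2 ^ n ∧ 2 * k ≤ n := S3.num_two

end PR12
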