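import Pool.Agent.PR12.Boch
import Pool.Agent.PR12.Big
import Pool.Agent.PR12.Crt
import Pool.Agent.PR12.Sep
import Pool.Agent.PR12.Num

/-!
# PR12/MainS92: doubly transitive groups of large degree (helper92)
-/

set_option autoImplicit false

namespace PR12

namespace S92

open Equiv

universe u

theorem two_trans {Ω : Type u} [Fintype Ω] (G : Subgroup (Perm Ω)) (h2 : Two G)
    (hn : 2 ≤ Fintype.card Ω) : ∀ a b : Ω, ∃ g ∈ G, g a = b := by
  intro a b
  have hnt : Nontrivial Ω := Fintype.one_lt_card_iff_nontrivial.1 (by omega)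
  obtain ⟨c, hc⟩ := exists_ne a
  obtain ⟨d, hd⟩ := exists_ne b
  obtain ⟨g, hg, h1, _⟩ := h2 a c b d hc.symm hd.symm
  exact ⟨g, hg, h1⟩

theorem two_card : ∃ t : ℕ, ∀ (Ω : Type u) [Fintype Ω] [DecidableEq Ω] (G : Subgroup (Perm Ω)),
    t < Fintype.card Ω → Two G → alternatingGroup Ω ≤ G ∨ Nat.card G ≤ 2 ^ Fintype.card Ω := by
  obtain ⟨t2, ht2⟩ := num_two
  refine ⟨max t2 785, fun Ω _ _ G ht h2 => ?_⟩
  by_cases hA : alternatingGroup Ω ≤ G
  · exact Or.inl hA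
  right
  have hn785 : 785 ≤ Fintype.card Ω := ((le_max_right t2 785).trans_lt ht).le
  have hnt2 : t2 < Fintype.card Ω := (le_max_left t2 785).trans_lt ht
  have hn1 : 1 ≤ Fintype.card Ω := by omega
  have hn2 : 2 ≤ Fintype.card Ω := by omega
  obtain ⟨k, hk⟩ : ∃ k : ℕ, k = (8 * (Nat.log 2 (Fintype.card Ω) + 1)) ^ 2 := ⟨_, rfl⟩
  have hk1 : 1 ≤ k := by
    rw [hk]
    exact Nat.one_le_pow _ _ (by omega)
  obtain ⟨hbound, _⟩ := ht2 _ hnt2 k hk
  have hmin : ∀ x ∈ G, x ≠ 1 → Fintype.card Ω ≤ 5 * x.support.card :=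
    fun x hx hx1 => min_deg h2 hA hn785 hx hx1
  by_cases H : ∀ B : Finset Ω, B.card < k →
      ∃ x, (2 * k - 1) * Fintype.card Ω < 2 * k * (orb G (B : Set Ω) x).card
  · exfalso
    obtain ⟨f, hf, hfull⟩ := exists_full (two_trans G h2 hn2) k hk1 hn2 H
    exact no_full hmin hn1 (8 * (Nat.log 2 (Fintype.card Ω) + 1)) k hk.ge
      (num_lcm _ hn1) f hf hfull
  · push Not at H
    obtain ⟨B, hB, hO⟩ := H
    exact (two_base h2 k (4 * k * (Nat.log 2 (Fintype.card Ω) + 1)) hk1 hn2 B hB.le hO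
      (num_sep _ k hk1 hn1)).trans hbound

end S92

end PR12
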