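import Pool.Agent.PR12.Defs

/-!
# PR12/NumS3: numbers
-/

set_option autoImplicit false

namespace PR12.S3

theorem pow_le_two (n : ℕ) : n ^ (n / (Nat.log 2 n + 1)) ≤ 2 ^ n := by
  set m := Nat.log 2 n + 1 with hm
  have h1 : n < 2 ^ m := Nat.lt_pow_succ_log_self (by norm_num) n
  calc n ^ (n / m) ≤ (2 ^ m) ^ (n / m) := Nat.pow_le_pow_left h1.le _
    _ = 2 ^ (m * (n / m)) := by rw [← pow_mul]
    _ ≤ 2 ^ n := Nat.pow_le_pow_right (by norm_num) (Nat.mul_div_le n m)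

theorem poly_le (L : ℕ) (hL : 64 ≤ L) : 16384 * (L + 1) ^ 8 ≤ 2 ^ L := by
  induction L, hL using Nat.le_induction with
  | base => norm_num
  | succ L hL ih =>
    rw [pow_succ 2 L]
    have h1 : 64 * (L + 1 + 1) ≤ 65 * (L + 1) := by omega
    have h2 := Nat.pow_le_pow_left h1 8
    rw [mul_pow, mul_pow] at h2
    have h3 : (L + 1 + 1) ^ 8 ≤ 2 * (L + 1) ^ 8 := by
      have h4 : 64 ^ 8 * (L + 1 + 1) ^ 8 ≤ 64 ^ 8 * (2 * (L + 1) ^ 8) := by
        refine h2.trans ?_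
        rw [← mul_assoc]
        exact Nat.mul_le_mul_right _ (by norm_num)
      exact Nat.le_of_mul_le_mul_left h4 (by norm_num)
    omega

theorem log_ge {n : ℕ} (hn : 2 ^ 64 < n) : 64 ≤ Nat.log 2 n ∧ 2 ^ Nat.log 2 n ≤ n ∧
    n < 2 ^ (Nat.log 2 n + 1) := by
  have hn0 : n ≠ 0 := Nat.ne_of_gt (lt_of_le_of_lt (Nat.zero_le _) hn)
  exact ⟨(Nat.le_log_iff_pow_le (by norm_num) hn0).2 hn.le, Nat.pow_log_le_self 2 hn0,
    Nat.lt_pow_succ_log_self (by norm_num) n⟩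

theorem num_uni : ∃ t : ℕ, ∀ n : ℕ, t < n → ∀ d : ℕ, n ≤ d ^ 4 → d ≤ n →
    n ^ 2 * (n - d) ^ (n / (Nat.log 2 n + 1)) < n ^ (n / (Nat.log 2 n + 1)) := by
  refine ⟨2 ^ 64, fun n hn d hd hdn => ?_⟩
  obtain ⟨hL, hL1, hL2⟩ := log_ge hn
  set L := Nat.log 2 n with hLd
  have hp := poly_le L hL
  have hn0 : 0 < n := lt_of_le_of_lt (Nat.zero_le _) hn
  -- `d` is large
  have hd4 : 4 * (L + 1) ^ 2 ≤ d := by
    by_contra hcon
    push Not at hcon
    have h1 : d ^ 4 < (4 * (L + 1) ^ 2) ^ 4 := Nat.pow_lt_pow_left hcon (by norm_num)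
    have h2 : (4 * (L + 1) ^ 2) ^ 4 = 256 * (L + 1) ^ 8 := by ring
    omega
  -- `n ≥ 2 (L + 1)`
  have hn2 : 2 * (L + 1) ≤ n := by
    have h1 : L + 1 ≤ (L + 1) ^ 8 := Nat.le_self_pow (by norm_num) _
    omega
  set m := L + 1 with hm
  have hm0 : 0 < m := by omega
  set s := n / m with hs
  have hs1 : n ≤ s * (2 * m) := by
    have h1 : n < m * (s + 1) := Nat.lt_mul_div_succ n hm0
    have h2 : m * (s + 1) = s * m + m := by ring
    have h3 : s * (2 * m) = 2 * (s * m) := by ring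
    omega
  -- the inequality in the reals
  have hnR : (0 : ℝ) < n := by exact_mod_cast hn0
  have h1 : ((n - d : ℕ) : ℝ) ≤ n * Real.exp (-(d / n)) := by
    rw [Nat.cast_sub hdn]
    have h2 := Real.one_sub_le_exp_neg ((d : ℝ) / n)
    have h3 : (n : ℝ) - d = n * (1 - d / n) := by
      field_simp
    rw [h3]
    exact mul_le_mul_of_nonneg_left h2 hnR.le
  have h2 : ((n - d : ℕ) : ℝ) ^ s ≤ (n : ℝ) ^ s * Real.exp (-(d / n) * s) := by
    calc ((n - d : ℕ) : ℝ) ^ s ≤ (n * Real.exp (-(d / n))) ^ s :=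
          pow_le_pow_left₀ (Nat.cast_nonneg _) h1 s
      _ = (n : ℝ) ^ s * Real.exp (-(d / n) * s) := by
          rw [mul_pow, ← Real.exp_nat_mul, mul_comm (s : ℝ)]
  have h3 : 2 * (m : ℝ) ≤ (d : ℝ) / n * s := by
    have hdR : 4 * (m : ℝ) ^ 2 ≤ d := by exact_mod_cast hd4
    have hsR : (n : ℝ) ≤ s * (2 * m) := by exact_mod_cast hs1
    have hmR : (0 : ℝ) < m := by exact_mod_cast hm0
    rw [div_mul_eq_mul_div, le_div_iff₀ hnR]
    have hs0 : (0 : ℝ) ≤ s := Nat.cast_nonneg _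
    calc 2 * (m : ℝ) * n ≤ 2 * m * (s * (2 * m)) := by gcongr
      _ = 4 * (m : ℝ) ^ 2 * s := by ring
      _ ≤ d * s := by gcongr
  have h4 : (n : ℝ) ^ 2 < Real.exp (2 * m) := by
    have h5 : (n : ℝ) < 2 ^ m := by exact_mod_cast hL2
    have h6 : (2 : ℝ) ≤ Real.exp 1 := by
      have := Real.add_one_le_exp (1 : ℝ)
      linarith
    calc (n : ℝ) ^ 2 < (2 ^ m) ^ 2 := pow_lt_pow_left₀ h5 hnR.le (by norm_num)
      _ ≤ (Real.exp 1 ^ m) ^ 2 := by gcongr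
      _ = Real.exp (2 * m) := by
          rw [← Real.exp_nat_mul, ← Real.exp_nat_mul]
          congr 1
          push_cast
          ring
  have h5 : (n : ℝ) ^ 2 * ((n - d : ℕ) : ℝ) ^ s < (n : ℝ) ^ s := by
    have hns : (0 : ℝ) < (n : ℝ) ^ s := pow_pos hnR s
    calc (n : ℝ) ^ 2 * ((n - d : ℕ) : ℝ) ^ s
        ≤ (n : ℝ) ^ 2 * ((n : ℝ) ^ s * Real.exp (-(d / n) * s)) := by gcongr
      _ ≤ (n : ℝ) ^ 2 * ((n : ℝ) ^ s * Real.exp (-(2 * m))) := by
          gcongr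
          linarith
      _ < Real.exp (2 * m) * ((n : ℝ) ^ s * Real.exp (-(2 * m))) := by
          apply mul_lt_mul_of_pos_right h4
          positivity
      _ = (n : ℝ) ^ s := by
          rw [mul_comm ((n : ℝ) ^ s), ← mul_assoc, ← Real.exp_add, add_neg_cancel, Real.exp_zero,
            one_mul]
  exact_mod_cast h5

theorem num_lcm (n : ℕ) (hn : 1 ≤ n) :
    n ^ 5 < Nat.lcmUpto (8 * (Nat.log 2 n + 1)) := by
  rcases Nat.lt_or_ge n 2 with hn2 | hn2
  · have hn1 : n = 1 := by omega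
    subst hn1
    have h2 := Chebyshev.two_pow_le_mul_lcmUpto 8
    rw [Nat.log_one_right]
    norm_num at h2 ⊢
    omega
  · set m := Nat.log 2 n + 1 with hm
    have h1 : n < 2 ^ m := Nat.lt_pow_succ_log_self (by norm_num) n
    have h2 := Chebyshev.two_pow_le_mul_lcmUpto (8 * m)
    have hm2 : 2 ≤ m := by
      have : 1 ≤ Nat.log 2 n := (Nat.le_log_iff_pow_le (by norm_num) (by omega)).2 (by omega)
      omega
    have h4 : 8 * m + 1 ≤ 2 ^ (3 * m) := by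
      have h5 : ∀ m : ℕ, 2 ≤ m → 8 * m + 1 ≤ 2 ^ (3 * m) := by
        intro m hm
        induction m, hm using Nat.le_induction with
        | base => norm_num
        | succ m hm ih =>
          have h6 : 2 ^ (3 * (m + 1)) = 8 * 2 ^ (3 * m) := by
            rw [show 3 * (m + 1) = 3 * m + 3 by ring, pow_add]
            ring
          omega
      exact h5 m hm2
    have h5 : 2 ^ (5 * m) * 2 ^ (3 * m) ≤ Nat.lcmUpto (8 * m) * 2 ^ (3 * m) := by
      calc 2 ^ (5 * m) * 2 ^ (3 * m) = 2 ^ (8 * m) := by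
            rw [← pow_add]
            congr 1
            ring
        _ ≤ (8 * m + 1) * Nat.lcmUpto (8 * m) := h2
        _ ≤ 2 ^ (3 * m) * Nat.lcmUpto (8 * m) := Nat.mul_le_mul_right _ h4
        _ = Nat.lcmUpto (8 * m) * 2 ^ (3 * m) := mul_comm _ _
    have h6 : 2 ^ (5 * m) ≤ Nat.lcmUpto (8 * m) :=
      Nat.le_of_mul_le_mul_right h5 (by positivity)
    calc n ^ 5 < (2 ^ m) ^ 5 := Nat.pow_lt_pow_left h1 (by norm_num)
      _ = 2 ^ (5 * m) := by rw [← pow_mul, mul_comm]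
      _ ≤ _ := h6

theorem num_sep (n k : ℕ) (hk : 1 ≤ k) (hn : 1 ≤ n) :
    n ^ 2 * (2 * k - 1) ^ (4 * k * (Nat.log 2 n + 1)) < (2 * k) ^ (4 * k * (Nat.log 2 n + 1)) := by
  set m := Nat.log 2 n + 1 with hm
  have hL2 : n < 2 ^ m := Nat.lt_pow_succ_log_self (by norm_num) n
  set s := 4 * k * m with hs
  have hnR : (0 : ℝ) < n := by exact_mod_cast hn
  have hkR : (0 : ℝ) < k := by exact_mod_cast hk
  have h1 : ((2 * k - 1 : ℕ) : ℝ) ≤ (2 * k) * Real.exp (-(1 / (2 * k))) := by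
    rw [Nat.cast_sub (by omega)]
    have h2 := Real.one_sub_le_exp_neg (1 / (2 * (k : ℝ)))
    have h3 : ((2 * k : ℕ) : ℝ) - ((1 : ℕ) : ℝ) = (2 * k) * (1 - 1 / (2 * k)) := by
      push_cast
      field_simp
    rw [h3]
    exact mul_le_mul_of_nonneg_left h2 (by positivity)
  have h2 : ((2 * k - 1 : ℕ) : ℝ) ^ s ≤ (2 * k : ℝ) ^ s * Real.exp (-(2 * m)) := by
    calc ((2 * k - 1 : ℕ) : ℝ) ^ s ≤ ((2 * k) * Real.exp (-(1 / (2 * k)))) ^ s :=
          pow_le_pow_left₀ (Nat.cast_nonneg _) h1 s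
      _ = (2 * k : ℝ) ^ s * Real.exp (-(2 * m)) := by
          rw [mul_pow, ← Real.exp_nat_mul]
          congr 2
          rw [hs]
          push_cast
          field_simp
          ring
  have h4 : (n : ℝ) ^ 2 < Real.exp (2 * m) := by
    have h5 : (n : ℝ) < 2 ^ m := by exact_mod_cast hL2
    have h6 : (2 : ℝ) ≤ Real.exp 1 := by
      have := Real.add_one_le_exp (1 : ℝ)
      linarith
    calc (n : ℝ) ^ 2 < (2 ^ m) ^ 2 := pow_lt_pow_left₀ h5 hnR.le (by norm_num)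
      _ ≤ (Real.exp 1 ^ m) ^ 2 := by gcongr
      _ = Real.exp (2 * m) := by
          rw [← Real.exp_nat_mul, ← Real.exp_nat_mul]
          congr 1
          push_cast
          ring
  have h5 : (n : ℝ) ^ 2 * ((2 * k - 1 : ℕ) : ℝ) ^ s < (2 * k : ℝ) ^ s := by
    have hns : (0 : ℝ) < (2 * k : ℝ) ^ s := by positivity
    calc (n : ℝ) ^ 2 * ((2 * k - 1 : ℕ) : ℝ) ^ s
        ≤ (n : ℝ) ^ 2 * ((2 * k : ℝ) ^ s * Real.exp (-(2 * m))) := by gcongr
      _ < Real.exp (2 * m) * ((2 * k : ℝ) ^ s * Real.exp (-(2 * m))) := by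
          apply mul_lt_mul_of_pos_right h4
          positivity
      _ = (2 * k : ℝ) ^ s := by
          rw [mul_comm ((2 * k : ℝ) ^ s), ← mul_assoc, ← Real.exp_add, add_neg_cancel,
            Real.exp_zero, one_mul]
  exact_mod_cast h5

theorem num_two : ∃ t : ℕ, ∀ n : ℕ, t < n → ∀ k : ℕ, k = (8 * (Nat.log 2 n + 1)) ^ 2 →
    n ^ (k * (4 * k * (Nat.log 2 n + 1))) ≤ 2 ^ n ∧ 2 * k ≤ n := by
  refine ⟨2 ^ 64, fun n hn k hk => ?_⟩
  obtain ⟨hL, hL1, hL2⟩ := log_ge hn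
  set L := Nat.log 2 n with hLd
  have hp := poly_le L hL
  set m := L + 1 with hm
  have hm1 : 1 ≤ m := by omega
  constructor
  · calc n ^ (k * (4 * k * m)) ≤ (2 ^ m) ^ (k * (4 * k * m)) := Nat.pow_le_pow_left hL2.le _
      _ = 2 ^ (16384 * m ^ 6) := by
          rw [← pow_mul, hk]
          congr 1
          ring
      _ ≤ 2 ^ n := by
          apply Nat.pow_le_pow_right (by norm_num)
          have h1 : m ^ 6 ≤ m ^ 8 := Nat.pow_le_pow_right hm1 (by norm_num)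
          omega
  · have h1 : m ^ 2 ≤ m ^ 8 := Nat.pow_le_pow_right hm1 (by norm_num)
    have h2 : k = 64 * m ^ 2 := by rw [hk]; ring
    omega

end PR12.S3
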