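import Pool.Agent.PR12.UniS52

/-!
# PR12/Sub: groups that are primitive and not doubly transitive (proof in `UniS52`)
-/

namespace PR12

open Equiv

universe u

variable {Ω : Type u} [Fintype Ω]

theorem uni {G : Subgroup (Perm Ω)} (hP : Prim G) (h2 : ¬ Two G) {a b : Ω} (hab : a ≠ b) :
    Fintype.card Ω ≤ (DD G a b).card ^ 4 :=
  S52.uni hP h2 hab

end PR12
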