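import Pool.Agent.PR12.Defs

/-!
# PR12/SubDDS40: proof of `exists_DD` from `big_orbit`
-/

namespace PR12.S40

open Equiv PR12

universe u

variable {Ω : Type u} [Fintype Ω]

theorem exists_DD {G : Subgroup (Perm Ω)} (h2 : ¬ Two G)
    (hbig : ∀ c x : Ω, Fintype.card Ω ≤ (Fintype.card Ω - (orb G {c} x).card) ^ 2) :
    ∃ x y : Ω, Fintype.card Ω ≤ (DD G x y).card ^ 2 := by
  classical
  by_contra hno
  push Not at hno
  obtain ⟨a₀, -⟩ : ∃ a : Ω, True := by
    by_contra h
    push Not at h
    exact h2 fun a => (h a).elim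
  have hlt : ∀ x y c z : Ω, (DD G x y).card < Fintype.card Ω - (orb G {c} z).card := by
    intro x y c z
    have h1 := (hno x y).trans_le (hbig c z)
    exact lt_of_pow_lt_pow_left' 2 h1
  have key : ∑ x : Ω, ∑ y : Ω, (DD G x y).card =
      ∑ x : Ω, ∑ c : Ω, (Fintype.card Ω - (orb G {c} x).card) := by
    refine Finset.sum_congr rfl fun x _ => ?_
    have e1 : ∀ y, (DD G x y).card = ∑ c : Ω, if ¬ Same G {c} x y then 1 else 0 := by
      intro y
      rw [← Finset.card_filter]
      congr 1
    rw [Finset.sum_congr rfl fun y _ => e1 y, Finset.sum_comm]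
    refine Finset.sum_congr rfl fun c _ => ?_
    rw [← Finset.card_filter]
    have e2 : orb G {c} x = Finset.univ.filter (fun y => Same G {c} x y) := by
      ext y
      rw [mem_orb]
      simp
    rw [e2]
    have e3 := Finset.card_filter_add_card_filter_not (s := (Finset.univ : Finset Ω))
      (fun y => Same G {c} x y)
    rw [Finset.card_univ] at e3
    omega
  have hstrict : ∑ x : Ω, ∑ y : Ω, (DD G x y).card <
      ∑ x : Ω, ∑ c : Ω, (Fintype.card Ω - (orb G {c} x).card) := by
    refine Finset.sum_lt_sum_of_nonempty ⟨a₀, Finset.mem_univ _⟩ fun x _ => ?_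
    exact Finset.sum_lt_sum_of_nonempty ⟨a₀, Finset.mem_univ _⟩ fun y _ => hlt x y y x
  exact absurd key hstrict.ne

end PR12.S40
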