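import Pool.Agent.PR12.Geo

/-!
# PR12/SubS90: suborbits of a group that is primitive and not doubly transitive
-/

set_option autoImplicit false

namespace PR12.S90

open Equiv

universe u

variable {Ω : Type u} [Fintype Ω]

theorem inv_ap (k : Perm Ω) (v : Ω) : k⁻¹ (k v) = v := k.symm_apply_apply v

theorem ap_inv (k : Perm Ω) (v : Ω) : k (k⁻¹ v) = v := k.apply_symm_apply v

theorem adj_map {G : Subgroup (Perm Ω)} {a b u v : Ω} (h : (X G a b).Adj u v) {k : Perm Ω}
    (hk : k ∈ G) : (X G a b).Adj (k u) (k v) := by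
  obtain ⟨hne, g, hg, hh⟩ := h
  refine ⟨fun h => hne (k.injective h), k * g, G.mul_mem hk hg, ?_⟩
  rcases hh with ⟨h1, h2⟩ | ⟨h1, h2⟩
  · left
    rw [Perm.mul_apply, Perm.mul_apply, h1, h2]
    exact ⟨rfl, rfl⟩
  · right
    rw [Perm.mul_apply, Perm.mul_apply, h1, h2]
    exact ⟨rfl, rfl⟩

theorem big_orbit {G : Subgroup (Perm Ω)} (hP : Prim G) (h2 : ¬ Two G) (c x : Ω) :
    Fintype.card Ω ≤ (Fintype.card Ω - (orb G {c} x).card) ^ 2 := by
  classical
  have hn3 : 3 ≤ Fintype.card Ω := by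
    by_contra hlt
    apply h2
    intro a b c' d hab hcd
    obtain ⟨g, hg, hga⟩ := hP.1 a c'
    refine ⟨g, hg, hga, ?_⟩
    by_contra hne
    have h3 : 2 < Fintype.card Ω := Fintype.two_lt_card_iff.2 ⟨c', d, g b, hcd,
      fun h => hab (g.injective (hga.trans h)), fun h => hne h.symm⟩
    omega
  have hS : ∀ u v, Same G {c} u v → ∃ g ∈ G, g c = c ∧ g u = v := by
    rintro u v ⟨g, hg, hc, huv⟩
    exact ⟨g, hg, hc c rfl, huv⟩
  have hS' : ∀ (u v : Ω) (g : Perm Ω), g ∈ G → g c = c → g u = v → Same G {c} u v := by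
    intro u v g hg hc huv
    refine ⟨g, hg, fun c' hc' => ?_, huv⟩
    rw [Set.mem_singleton_iff] at hc'
    rw [hc']
    exact hc
  by_cases hxc : x = c
  · -- the orbit of `c` itself
    have h1 : orb G {c} x = {c} := by
      ext y
      rw [mem_orb, Finset.mem_singleton]
      constructor
      · intro h
        obtain ⟨g, hg, hgc, hgx⟩ := hS _ _ h
        rw [← hgx, hxc, hgc]
      · intro h
        rw [h, hxc]
        exact same_refl G {c} c
    rw [h1, Finset.card_singleton]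
    obtain ⟨k, hk⟩ : ∃ k, Fintype.card Ω = k + 3 := ⟨Fintype.card Ω - 3, by omega⟩
    rw [hk]
    have h2 : k + 3 - 1 = k + 2 := by omega
    rw [h2]
    nlinarith
  obtain ⟨O, hO⟩ : ∃ O : Finset Ω, O = orb G {c} x := ⟨_, rfl⟩
  have hmO : ∀ y, y ∈ O ↔ Same G {c} x y := by
    intro y
    rw [hO, mem_orb]
  rw [← hO]
  have hcO : c ∉ O := by
    intro h
    obtain ⟨g, hg, hgc, hgx⟩ := hS _ _ ((hmO c).1 h)
    exact hxc (g.injective (hgx.trans hgc.symm))
  -- another orbit of the point stabilizer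
  obtain ⟨y, hyO, hyc⟩ : ∃ y, y ∉ O ∧ y ≠ c := by
    by_contra hno
    push Not at hno
    have hin : ∀ y, y ≠ c → y ∈ O := by
      intro y hy
      by_contra h
      exact hy (hno y h)
    apply h2
    intro a b a' b' hab hab'
    obtain ⟨k, hk, hka⟩ := hP.1 a c
    obtain ⟨k', hk', hka'⟩ := hP.1 a' c
    have hb : k b ∈ O := hin _ fun h => hab (k.injective (hka.trans h.symm))
    have hb' : k' b' ∈ O := hin _ fun h => hab' (k'.injective (hka'.trans h.symm))
    have h3 : Same G {c} (k b) (k' b') := ((hmO _).1 hb).symm.trans ((hmO _).1 hb')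
    obtain ⟨g, hg, hgc, hgb⟩ := hS _ _ h3
    refine ⟨k'⁻¹ * g * k, G.mul_mem (G.mul_mem (G.inv_mem hk') hg) hk, ?_, ?_⟩
    · rw [Perm.mul_apply, Perm.mul_apply, hka, hgc, ← hka', inv_ap]
    · rw [Perm.mul_apply, Perm.mul_apply, hgb, inv_ap]
  -- the orbital relation
  obtain ⟨r, hr⟩ : ∃ r : Ω → Ω → Prop, r = fun u v => ∃ g ∈ G, g c = u ∧ g y = v := ⟨_, rfl⟩
  obtain ⟨Out, hOut⟩ : ∃ Out : Finset Ω, Out = Finset.univ.filter (fun v => r c v) := ⟨_, rfl⟩
  obtain ⟨In, hIn⟩ : ∃ In : Finset Ω, In = Finset.univ.filter (fun u => r u c) := ⟨_, rfl⟩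
  have hmOut : ∀ v, v ∈ Out ↔ r c v := by intro v; rw [hOut]; simp
  have hmIn : ∀ v, v ∈ In ↔ r v c := by intro v; rw [hIn]; simp
  have hcard : In.card = Out.card := by
    have h3 := Finset.sum_card_bipartiteAbove_eq_sum_card_bipartiteBelow
      (s := (Finset.univ : Finset Ω)) (t := (Finset.univ : Finset Ω)) r
    have h4 : ∀ u, ((Finset.univ : Finset Ω).bipartiteAbove r u).card = Out.card := by
      intro u
      obtain ⟨k, hk, hkc⟩ := hP.1 c u
      rw [← Finset.card_image_of_injective Out k.injective]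
      congr 1
      ext v
      rw [Finset.mem_bipartiteAbove, Finset.mem_image, hr]
      constructor
      · rintro ⟨-, g, hg, h5, h6⟩
        refine ⟨k⁻¹ v, ?_, ap_inv k v⟩
        rw [hmOut, hr]
        refine ⟨k⁻¹ * g, G.mul_mem (G.inv_mem hk) hg, ?_, ?_⟩
        · rw [Perm.mul_apply, h5, ← hkc, inv_ap]
        · rw [Perm.mul_apply, h6]
      · rintro ⟨w, hw, rfl⟩
        rw [hmOut, hr] at hw
        obtain ⟨g, hg, h5, h6⟩ := hw
        refine ⟨Finset.mem_univ _, k * g, G.mul_mem hk hg, ?_, ?_⟩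
        · rw [Perm.mul_apply, h5, hkc]
        · rw [Perm.mul_apply, h6]
    have h4' : ∀ v, ((Finset.univ : Finset Ω).bipartiteBelow r v).card = In.card := by
      intro v
      obtain ⟨k, hk, hkc⟩ := hP.1 c v
      rw [← Finset.card_image_of_injective In k.injective]
      congr 1
      ext u
      rw [Finset.mem_bipartiteBelow, Finset.mem_image, hr]
      constructor
      · rintro ⟨-, g, hg, h5, h6⟩
        refine ⟨k⁻¹ u, ?_, ap_inv k u⟩
        rw [hmIn, hr]
        refine ⟨k⁻¹ * g, G.mul_mem (G.inv_mem hk) hg, ?_, ?_⟩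
        · rw [Perm.mul_apply, h5]
        · rw [Perm.mul_apply, h6, ← hkc, inv_ap]
      · rintro ⟨w, hw, rfl⟩
        rw [hmIn, hr] at hw
        obtain ⟨g, hg, h5, h6⟩ := hw
        refine ⟨Finset.mem_univ _, k * g, G.mul_mem hk hg, ?_, ?_⟩
        · rw [Perm.mul_apply, h5]
        · rw [Perm.mul_apply, h6, hkc]
    rw [Finset.sum_congr rfl (fun u _ => h4 u), Finset.sum_congr rfl (fun v _ => h4' v),
      Finset.sum_const, Finset.sum_const, smul_eq_mul, smul_eq_mul] at h3
    have h5 : 0 < (Finset.univ : Finset Ω).card := Finset.card_pos.2 ⟨c, Finset.mem_univ c⟩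
    exact (Nat.eq_of_mul_eq_mul_left h5 h3).symm
  -- the rest
  obtain ⟨R, hR⟩ : ∃ R : Finset Ω, R = (Oᶜ).erase c := ⟨_, rfl⟩
  have hmR : ∀ v, v ∈ R ↔ v ≠ c ∧ v ∉ O := by
    intro v
    rw [hR, Finset.mem_erase, Finset.mem_compl]
  have hon : O.card ≤ Fintype.card Ω := Finset.card_le_univ O
  have hRc : R.card = Fintype.card Ω - O.card - 1 := by
    rw [hR, Finset.card_erase_of_mem (Finset.mem_compl.2 hcO), Finset.card_compl]
  have hcc : 1 ≤ Fintype.card Ω - O.card := by
    have h3 : 0 < (Oᶜ).card := Finset.card_pos.2 ⟨c, Finset.mem_compl.2 hcO⟩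
    rw [Finset.card_compl] at h3
    exact h3
  have hOutR : ∀ v, r c v → v ∈ R := by
    intro v hv
    rw [hr] at hv
    obtain ⟨g, hg, hgc, hgy⟩ := hv
    rw [hmR]
    constructor
    · intro h
      exact hyc (g.injective (by rw [hgy, h, hgc]))
    · intro h
      apply hyO
      rw [hmO] at h ⊢
      exact h.trans (hS' y v g hg hgc hgy).symm
  have hOutc : Out.card ≤ Fintype.card Ω - O.card - 1 := by
    rw [← hRc]
    exact Finset.card_le_card fun v hv => hOutR v ((hmOut v).1 hv)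
  obtain ⟨n, hn⟩ : ∃ n, n = Fintype.card Ω := ⟨_, rfl⟩
  obtain ⟨m, hm⟩ : ∃ m, m = Fintype.card Ω - O.card := ⟨_, rfl⟩
  have hnm : Fintype.card Ω = O.card + m := by omega
  rw [← hm] at hRc hcc hOutc ⊢
  by_cases hA : ∃ z ∈ In, z ∈ O
  · obtain ⟨z, hz, hzO⟩ := hA
    rw [hmIn, hr] at hz
    obtain ⟨g, hg, hgc, hgy⟩ := hz
    have h3 : O ⊆ In := by
      intro w hw
      rw [hmO] at hw hzO
      obtain ⟨h, hh, hhc, hhz⟩ := hS _ _ (hzO.symm.trans hw)
      rw [hmIn, hr]
      refine ⟨h * g, G.mul_mem hh hg, ?_, ?_⟩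
      · rw [Perm.mul_apply, hgc, hhz]
      · rw [Perm.mul_apply, hgy, hhc]
    have h4 := Finset.card_le_card h3
    rw [hnm]
    obtain ⟨j, hj⟩ : ∃ j, m = j + 1 := ⟨m - 1, by omega⟩
    have h5 : O.card ≤ j := by omega
    rw [hj]
    nlinarith
  · push Not at hA
    have hN : ∀ v, (X G c y).Adj c v → v ∈ R := by
      rintro v ⟨hne, g, hg, h3⟩
      rcases h3 with ⟨h4, h5⟩ | ⟨h4, h5⟩
      · exact hOutR v (by rw [hr]; exact ⟨g, hg, h4, h5⟩)
      · rw [hmR]
        refine ⟨hne.symm, hA v ?_⟩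
        rw [hmIn, hr]
        exact ⟨g, hg, h4, h5⟩
    obtain ⟨N, hNd⟩ : ∃ N : Ω → Finset Ω, N = fun u =>
      Finset.univ.filter (fun v => (X G c y).Adj u v) := ⟨_, rfl⟩
    have hmN : ∀ u v, v ∈ N u ↔ (X G c y).Adj u v := by
      intro u v
      rw [hNd]
      simp
    have hNc : ∀ u, (N u).card ≤ m - 1 := by
      intro u
      obtain ⟨k, hk, hkc⟩ := hP.1 c u
      have h3 : N u ⊆ R.image k := by
        intro v hv
        rw [hmN] at hv
        rw [Finset.mem_image]
        refine ⟨k⁻¹ v, hN _ ?_, ap_inv k v⟩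
        have h4 := adj_map hv (G.inv_mem hk)
        rwa [← hkc, inv_ap] at h4
      refine (Finset.card_le_card h3).trans (Finset.card_image_le.trans ?_)
      rw [hRc]
    -- an edge that leaves the orbit
    obtain ⟨p⟩ := (X_conn hP hyc.symm).preconnected c x
    have hxO : x ∈ O := (hmO x).2 (same_refl G {c} x)
    obtain ⟨d, -, hd1, hd2⟩ := p.exists_boundary_dart ((O : Set Ω)ᶜ)
      (fun h => hcO (Finset.mem_coe.1 h)) (fun h => h (Finset.mem_coe.2 hxO))
    have hw0 : d.fst ∉ O := fun h => hd1 (Finset.mem_coe.2 h)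
    have hz0 : d.snd ∈ O := by
      by_contra h
      exact hd2 (fun h' => h (Finset.mem_coe.1 h'))
    have hadj : (X G c y).Adj d.fst d.snd := d.adj
    have hw0c : d.fst ≠ c := by
      intro h
      rw [h] at hadj
      exact ((hmR _).1 (hN _ hadj)).2 hz0
    have hcov : O ⊆ R.biUnion N := by
      intro z hz
      have h3 : Same G {c} d.snd z := ((hmO _).1 hz0).symm.trans ((hmO _).1 hz)
      obtain ⟨g, hg, hgc, hgz⟩ := hS _ _ h3
      rw [Finset.mem_biUnion]
      refine ⟨g d.fst, ?_, ?_⟩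
      · rw [hmR]
        constructor
        · intro h
          exact hw0c (g.injective (h.trans hgc.symm))
        · intro h
          apply hw0
          rw [hmO] at h ⊢
          exact h.trans (hS' _ _ g hg hgc rfl).symm
      · rw [hmN, ← hgz]
        exact adj_map hadj hg
    have h5 : O.card ≤ R.card * (m - 1) :=
      (Finset.card_le_card hcov).trans (Finset.card_biUnion_le_card_mul R N (m - 1)
        (fun u _ => hNc u))
    rw [hRc] at h5
    rw [hnm]
    obtain ⟨j, hj⟩ : ∃ j, m = j + 1 := ⟨m - 1, by omega⟩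
    have h6 : m - 1 = j := by omega
    rw [h6] at h5
    rw [hj]
    nlinarith

end PR12.S90
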