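import Pool.Agent.PR12.Geo

/-!
# PR12/SubS97: a pair that is distinguished by many points (helper97)
-/

namespace PR12.S97

open Equiv PR12

universe u

variable {Ω : Type u} [Fintype Ω]

theorem count_DD (G : Subgroup (Perm Ω)) :
    ∑ x : Ω, ∑ y : Ω, (DD G x y).card =
      ∑ c : Ω, ∑ x : Ω, (Fintype.card Ω - (orb G {c} x).card) := by
  classical
  have h1 : ∀ x y : Ω, (DD G x y).card = ∑ c : Ω, if ¬ Same G {c} x y then 1 else 0 := by
    intro x y
    rw [← Finset.card_filter]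
    congr 1
  have h2 : ∀ c x : Ω, Fintype.card Ω - (orb G {c} x).card =
      ∑ y : Ω, if ¬ Same G {c} x y then 1 else 0 := by
    intro c x
    rw [← Finset.card_filter, ← Finset.card_compl]
    congr 1
    ext y
    rw [Finset.mem_compl, mem_orb, Finset.mem_filter]
    simp
  simp only [h1, h2]
  calc ∑ x : Ω, ∑ y : Ω, ∑ c : Ω, (if ¬ Same G {c} x y then 1 else 0)
      = ∑ x : Ω, ∑ c : Ω, ∑ y : Ω, (if ¬ Same G {c} x y then 1 else 0) :=
        Finset.sum_congr rfl (fun x _ => Finset.sum_comm)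
    _ = _ := Finset.sum_comm

theorem exists_DD {G : Subgroup (Perm Ω)}
    (big_orbit : ∀ c x : Ω, Fintype.card Ω ≤ (Fintype.card Ω - (orb G {c} x).card) ^ 2)
    (h2 : ¬ Two G) :
    ∃ x y : Ω, Fintype.card Ω ≤ (DD G x y).card ^ 2 := by
  classical
  by_contra hcon
  push Not at hcon
  have hne : Nonempty Ω := by
    by_contra he
    apply h2
    intro a
    exact absurd ⟨a⟩ he
  have hpos : 0 < Fintype.card Ω := Fintype.card_pos
  obtain ⟨q, hq⟩ : ∃ q, q = Nat.sqrt (Fintype.card Ω - 1) := ⟨_, rfl⟩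
  have h3 : ∀ x y : Ω, (DD G x y).card ≤ q := by
    intro x y
    rw [hq, Nat.le_sqrt']
    have := hcon x y
    omega
  have h4 : ∀ c x : Ω, q + 1 ≤ Fintype.card Ω - (orb G {c} x).card := by
    intro c x
    have h5 := big_orbit c x
    have h6 : Nat.sqrt (Fintype.card Ω - 1) < Fintype.card Ω - (orb G {c} x).card := by
      rw [Nat.sqrt_lt']
      omega
    rw [hq]
    exact h6
  have h5 := count_DD G
  have h6 : ∑ x : Ω, ∑ y : Ω, (DD G x y).card ≤ Fintype.card Ω * (Fintype.card Ω * q) := by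
    calc ∑ x : Ω, ∑ y : Ω, (DD G x y).card ≤ ∑ _x : Ω, ∑ _y : Ω, q :=
          Finset.sum_le_sum (fun x _ => Finset.sum_le_sum (fun y _ => h3 x y))
      _ = Fintype.card Ω * (Fintype.card Ω * q) := by
          simp [Finset.sum_const, Finset.card_univ]
  have h7 : Fintype.card Ω * (Fintype.card Ω * (q + 1)) ≤
      ∑ c : Ω, ∑ x : Ω, (Fintype.card Ω - (orb G {c} x).card) := by
    calc Fintype.card Ω * (Fintype.card Ω * (q + 1)) = ∑ _c : Ω, ∑ _x : Ω, (q + 1) := by
          simp [Finset.sum_const, Finset.card_univ]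
      _ ≤ _ := Finset.sum_le_sum (fun c _ => Finset.sum_le_sum (fun x _ => h4 c x))
  have h8 : Fintype.card Ω * (Fintype.card Ω * (q + 1)) ≤ Fintype.card Ω * (Fintype.card Ω * q) :=
    h7.trans (h5 ▸ h6)
  have h9 := Nat.le_of_mul_le_mul_left (Nat.le_of_mul_le_mul_left h8 hpos) hpos
  omega

end PR12.S97
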