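import Pool.Agent.PR12.Sub
import Pool.Agent.PR12.Hit
import Pool.Agent.PR12.Num

/-!
# PR12/UniS58: primitive groups that are not doubly transitive (helper58)
-/

namespace PR12.S58

open Equiv PR12

universe u

theorem uni_card : ∃ t : ℕ, ∀ (Ω : Type u) [Fintype Ω] (G : Subgroup (Perm Ω)),
    t < Fintype.card Ω → Prim G → ¬ Two G → Nat.card G ≤ 2 ^ Fintype.card Ω := by
  classical
  obtain ⟨t, ht⟩ := num_uni
  refine ⟨t, fun Ω _ G hn hP h2 => ?_⟩
  have hn0 : 0 < Fintype.card Ω := by omega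
  have hex : ∃ d : ℕ, Fintype.card Ω ≤ d ^ 4 :=
    ⟨Fintype.card Ω, Nat.le_self_pow (by norm_num) _⟩
  have hd1 : Fintype.card Ω ≤ (Nat.find hex) ^ 4 := Nat.find_spec hex
  have hd2 : Nat.find hex ≤ Fintype.card Ω :=
    Nat.find_min' hex (Nat.le_self_pow (by norm_num) _)
  have hd3 : ∀ a b : Ω, a ≠ b → Nat.find hex ≤ (DD G a b).card := fun a b hab =>
    Nat.find_min' hex (uni hP h2 hab)
  have hι : Fintype.card {p : Ω × Ω // p.1 ≠ p.2} ≤ Fintype.card Ω ^ 2 := by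
    refine (Fintype.card_subtype_le _).trans ?_
    rw [Fintype.card_prod, sq]
  obtain ⟨f, hf⟩ := hit (X := Ω) (ι := {p : Ω × Ω // p.1 ≠ p.2}) hn0
    (fun p => DD G p.1.1 p.1.2) (Nat.find hex) (Fintype.card Ω)
    (Fintype.card Ω / (Nat.log 2 (Fintype.card Ω) + 1)) hd2
    (fun p => by
      rw [mul_comm]
      exact Nat.mul_le_mul_left _ (hd3 _ _ p.2))
    (lt_of_le_of_lt (Nat.mul_le_mul_right _ hι) (ht _ hn _ hd1 hd2))
  refine (card_le_of_base f ?_).trans ?_
  · intro g hg hgf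
    apply Equiv.ext
    intro a
    rw [Perm.one_apply]
    by_contra hne
    obtain ⟨j, hj⟩ := hf ⟨(a, g a), fun h => hne h.symm⟩
    rw [mem_DD] at hj
    apply hj
    refine ⟨g, hg, ?_, rfl⟩
    intro c hc
    rw [Set.mem_singleton_iff] at hc
    rw [hc]
    exact hgf j
  · rw [Fintype.card_fin]
    exact pow_le_two _

end PR12.S58
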