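import Pool.Agent.PR12.Sub
import Pool.Agent.PR12.UniS58
import Pool.Agent.PR12.Hit
import Pool.Agent.PR12.Num

/-!
# PR12/Uni (STUB): primitive groups that are not doubly transitive
-/

namespace PR12

open Equiv

universe u

/-- PROOF. `s = n / (log2 n + 1)`, `d` the least number with `n ≤ d^4` (`Nat.find`; `d ≤ n`), so `d ≤ |DD G a b|` for `a ≠ b` (`uni`).
`hit` with `X = Ω`, `ι = {p : Ω × Ω // p.1 ≠ p.2}` (`|ι| ≤ n^2`), `D p = DD G p.1 p.2`, `p := d`, `q := n` and `num_uni`: some `f : Fin s → Ω`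
meets all of them; if `g ∈ G` fixes all `f j` and `g a ≠ a` then `f j ∈ DD G a (g a)` for some `j`, contradiction. `card_le_of_base`, `pow_le_two`. -/
theorem uni_card : ∃ t : ℕ, ∀ (Ω : Type u) [Fintype Ω] (G : Subgroup (Perm Ω)),
    t < Fintype.card Ω → Prim G → ¬ Two G → Nat.card G ≤ 2 ^ Fintype.card Ω :=
  S58.uni_card

end PR12
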