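import Pool.Agent.PR12.Defs

/-!
# PR12/UniS52: points distinguishing two points, in a primitive group that is not doubly transitive
(the whole of (U): replaces Geo and Sub)
-/

set_option autoImplicit false

namespace PR12.S52U

open Equiv Finset

variable {Ω : Type*} [Fintype Ω] [DecidableEq Ω]

open Classical in
/-- the points that distinguish `a` and `b` -/
noncomputable def DD (P : Subgroup (Perm Ω)) (a b : Ω) : Finset Ω :=
  univ.filter fun c => ¬ ∃ g ∈ P, g c = c ∧ g a = b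

open Classical in
/-- the orbit of `x` under the stabilizer of `c` -/
noncomputable def Oc (P : Subgroup (Perm Ω)) (c x : Ω) : Finset Ω :=
  univ.filter fun y => ∃ g ∈ P, g c = c ∧ g x = y

/-- directed paths in the orbital graph of `(a, b)` -/
def Rch (P : Subgroup (Perm Ω)) (a b : Ω) : ℕ → Ω → Ω → Prop
  | 0, x, y => x = y
  | (j + 1), x, y => ∃ z, (∃ g ∈ P, g a = x ∧ g b = z) ∧ Rch P a b j z y

theorem mem_DD {P : Subgroup (Perm Ω)} {a b c : Ω} :
    c ∈ DD P a b ↔ ¬ ∃ g ∈ P, g c = c ∧ g a = b := by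
  classical
  simp [DD]

theorem mem_Oc {P : Subgroup (Perm Ω)} {c x y : Ω} :
    y ∈ Oc P c x ↔ ∃ g ∈ P, g c = c ∧ g x = y := by
  classical
  simp [Oc]

omit [Fintype Ω] [DecidableEq Ω] in
theorem inv_app (e : Perm Ω) (a : Ω) : e⁻¹ (e a) = a := e.symm_apply_apply a

omit [Fintype Ω] [DecidableEq Ω] in
theorem app_inv (e : Perm Ω) (a : Ω) : e (e⁻¹ a) = a := e.apply_symm_apply a

omit [Fintype Ω] [DecidableEq Ω] in
theorem Rch_map {P : Subgroup (Perm Ω)} {a b : Ω} {g : Perm Ω} (hg : g ∈ P) :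
    ∀ {j : ℕ} {x y : Ω}, Rch P a b j x y → Rch P a b j (g x) (g y)
  | 0, _, _, h => congrArg g h
  | (_ + 1), _, _, h => by
    obtain ⟨z, ⟨h', hh', h1, h2⟩, h3⟩ := h
    exact ⟨g z, ⟨g * h', P.mul_mem hg hh', by rw [Perm.mul_apply, h1], by rw [Perm.mul_apply, h2]⟩,
      Rch_map hg h3⟩

omit [Fintype Ω] [DecidableEq Ω] in
theorem Rch_split {P : Subgroup (Perm Ω)} {a b : Ω} : ∀ {i j : ℕ} {x y : Ω},
    Rch P a b (i + j) x y → ∃ z, Rch P a b i x z ∧ Rch P a b j z y
  | 0, j, x, y, h => ⟨x, rfl, by rwa [Nat.zero_add] at h⟩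
  | (i + 1), j, x, y, h => by
    rw [Nat.succ_add_eq_add_succ, Nat.add_succ] at h
    obtain ⟨z, h1, h2⟩ := h
    obtain ⟨w, h3, h4⟩ := Rch_split h2
    exact ⟨w, ⟨z, h1, h3⟩, h4⟩

omit [Fintype Ω] [DecidableEq Ω] in
theorem Rch_join {P : Subgroup (Perm Ω)} {a b : Ω} : ∀ {i j : ℕ} {x y z : Ω},
    Rch P a b i x z → Rch P a b j z y → Rch P a b (i + j) x y
  | 0, j, x, y, z, h, h' => by
    have h1 : x = z := h
    rw [Nat.zero_add, h1]
    exact h'
  | (i + 1), j, x, y, z, h, h' => by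
    obtain ⟨w, h1, h2⟩ := h
    rw [Nat.succ_add_eq_add_succ, Nat.add_succ]
    exact ⟨w, h1, Rch_join h2 h'⟩

/-- the orbital graph of a primitive group is strongly connected -/
theorem connected {P : Subgroup (Perm Ω)} (hP : Prim P) {a b : Ω}
    (hab : a ≠ b) : ∀ x y, ∃ j, Rch P a b j x y := by
  classical
  have htr := hP.1
  let R : Ω → Finset Ω := fun x => univ.filter fun y => ∃ j, Rch P a b j x y
  have hR : ∀ x y, y ∈ R x ↔ ∃ j, Rch P a b j x y := fun x y => by simp [R]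
  have hmap : ∀ g ∈ P, ∀ x, (R x).image g = R (g x) := by
    intro g hg x
    ext y
    rw [Finset.mem_image, hR]
    constructor
    · rintro ⟨z, hz, rfl⟩
      obtain ⟨j, hj⟩ := (hR _ _).1 hz
      exact ⟨j, Rch_map hg hj⟩
    · rintro ⟨j, hj⟩
      refine ⟨g⁻¹ y, (hR _ _).2 ⟨j, ?_⟩, app_inv g y⟩
      have := Rch_map (P.inv_mem hg) hj
      rwa [inv_app] at this
  have hcard : ∀ g ∈ P, ∀ x, (R (g x)).card = (R x).card := by
    intro g hg x
    rw [← hmap g hg x, Finset.card_image_of_injective _ g.injective]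
  have hsub : ∀ x y, y ∈ R x → R y = R x := by
    intro x y hy
    obtain ⟨j, hj⟩ := (hR _ _).1 hy
    apply Finset.eq_of_subset_of_card_le
    · intro z hz
      obtain ⟨i, hi⟩ := (hR _ _).1 hz
      exact (hR _ _).2 ⟨j + i, Rch_join hj hi⟩
    · obtain ⟨g, hg, hgy⟩ := htr x y
      rw [← hgy, hcard g hg x]
  have hself : ∀ x, x ∈ R x := fun x => (hR _ _).2 ⟨0, rfl⟩
  let r : Setoid Ω := ⟨fun x y => R x = R y, fun _ => rfl, fun h => h.symm, fun h h' => h.trans h'⟩
  rcases hP.2 r (fun g hg x y (h : R x = R y) => by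
    show R (g x) = R (g y)
    rw [← hmap g hg, ← hmap g hg, h]) with h | h
  · exfalso
    apply hab
    apply h
    show R a = R b
    refine (hsub a b ((hR _ _).2 ⟨1, b, ⟨1, P.one_mem, rfl, rfl⟩, rfl⟩)).symm
  · intro x y
    rw [← hR]
    have h1 : R x = R y := h x y
    rw [h1]
    exact hself y

theorem DD_map {P : Subgroup (Perm Ω)} {a b : Ω} {g : Perm Ω} (hg : g ∈ P) :
    (DD P (g a) (g b)).card = (DD P a b).card := by
  classical
  have h : (DD P a b).image g = DD P (g a) (g b) := by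
    ext y
    rw [Finset.mem_image, mem_DD]
    constructor
    · rintro ⟨z, hz, rfl⟩ ⟨h, hh, h1, h2⟩
      rw [mem_DD] at hz
      apply hz
      refine ⟨g⁻¹ * h * g, P.mul_mem (P.mul_mem (P.inv_mem hg) hh) hg, ?_, ?_⟩
      · rw [Perm.mul_apply, Perm.mul_apply, h1, inv_app]
      · rw [Perm.mul_apply, Perm.mul_apply, h2, inv_app]
    · intro h
      refine ⟨g⁻¹ y, ?_, app_inv g y⟩
      rw [mem_DD]
      rintro ⟨k, hk, h1, h2⟩
      apply h
      refine ⟨g * k * g⁻¹, P.mul_mem (P.mul_mem hg hk) (P.inv_mem hg), ?_, ?_⟩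
      · rw [Perm.mul_apply, Perm.mul_apply, h1, app_inv]
      · rw [Perm.mul_apply, Perm.mul_apply, inv_app, h2]
  rw [← h, Finset.card_image_of_injective _ g.injective]

theorem DD_self {P : Subgroup (Perm Ω)} (a : Ω) : DD P a a = ∅ := by
  ext c
  rw [mem_DD]
  constructor
  · intro h
    exact absurd ⟨1, P.one_mem, rfl, rfl⟩ h
  · intro h
    exact absurd h (Finset.notMem_empty c)

theorem DD_tri {P : Subgroup (Perm Ω)} (x y z : Ω) : DD P x z ⊆ DD P x y ∪ DD P y z := by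
  intro c hc
  rw [Finset.mem_union]
  by_contra hcon
  rw [not_or, mem_DD, mem_DD, not_not, not_not] at hcon
  obtain ⟨⟨g, hg, g1, g2⟩, h, hh, h1, h2⟩ := hcon
  rw [mem_DD] at hc
  exact hc ⟨h * g, P.mul_mem hh hg, by rw [Perm.mul_apply, g1, h1], by rw [Perm.mul_apply, g2, h2]⟩

theorem DD_le {P : Subgroup (Perm Ω)} {a b : Ω} : ∀ {j : ℕ} {x y : Ω}, Rch P a b j x y →
    (DD P x y).card ≤ j * (DD P a b).card
  | 0, x, y, h => by
    have h1 : x = y := h
    rw [h1, DD_self]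
    simp
  | (j + 1), x, y, h => by
    obtain ⟨z, ⟨g, hg, h1, h2⟩, h3⟩ := h
    have h4 := DD_le h3
    have h5 : (DD P x z).card = (DD P a b).card := by rw [← h1, ← h2, DD_map hg]
    calc (DD P x y).card ≤ (DD P x z ∪ DD P z y).card := Finset.card_le_card (DD_tri x z y)
      _ ≤ (DD P x z).card + (DD P z y).card := Finset.card_union_le _ _
      _ ≤ (DD P a b).card + j * (DD P a b).card := by omega
      _ = (j + 1) * (DD P a b).card := by ring

/-- the length of a shortest path is less than the number of distinguishing points -/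
theorem dist_lt {P : Subgroup (Perm Ω)} {a b : Ω} (hab : a ≠ b) {e : ℕ} {x y : Ω}
    (h : Rch P a b e x y) (hmin : ∀ i < e, ¬ Rch P a b i x y) : e + 1 ≤ (DD P a b).card ∨ e = 0 := by
  classical
  rcases e with _ | e
  · exact Or.inr rfl
  left
  obtain ⟨z, ⟨g, hg, h1, h2⟩, h3⟩ := h
  have hd : (DD P x z).card = (DD P a b).card := by rw [← h1, ← h2, DD_map hg]
  rw [← hd]
  have hxz : x ≠ z := by
    rw [← h1, ← h2]
    exact fun h => hab (g.injective h)
  have hE : Rch P a b 1 x z := ⟨z, ⟨g, hg, h1, h2⟩, rfl⟩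
  -- the points on the path
  have hc : ∀ i : Fin (e + 1), ∃ c, Rch P a b i z c ∧ (∀ l < (i : ℕ) + 1, ¬ Rch P a b l x c) := by
    intro i
    have hi : (i : ℕ) + (e - i) = e := by omega
    rw [← hi] at h3
    obtain ⟨c, h4, h5⟩ := Rch_split h3
    refine ⟨c, h4, fun l hl hh => ?_⟩
    exact hmin (l + (e - i)) (by omega) (Rch_join hh h5)
  choose c hc1 hc2 using hc
  have hc3 : ∀ i : Fin (e + 1), Rch P a b (i + 1) x (c i) := by
    intro i
    have := Rch_join hE (hc1 i)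
    rwa [Nat.add_comm] at this
  have hinj : Function.Injective c := by
    intro i j hij
    by_contra hne
    rcases lt_or_gt_of_ne (fun h => hne (Fin.ext h) : (i : ℕ) ≠ j) with h | h
    · exact hc2 j (i + 1) (by omega) (hij ▸ hc3 i)
    · exact hc2 i (j + 1) (by omega) (hij ▸ hc3 j)
  have hmem : ∀ i, c i ∈ DD P x z := by
    intro i
    rw [mem_DD]
    rintro ⟨k, hk, k1, k2⟩
    have h6 := Rch_map (P.inv_mem hk) (hc1 i)
    have e1 : k⁻¹ z = x := by rw [← k2, inv_app]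
    have e2 : k⁻¹ (c i) = c i := by
      conv_lhs => rw [← k1]
      rw [inv_app]
    rw [e1, e2] at h6
    exact hc2 i i (by omega) h6
  have hx : x ∈ DD P x z := by
    rw [mem_DD]
    rintro ⟨k, hk, k1, k2⟩
    exact hxz (k1.symm.trans k2)
  have hxn : x ∉ univ.image c := by
    intro h
    obtain ⟨i, -, hi⟩ := Finset.mem_image.1 h
    exact hc2 i 0 (by omega) hi.symm
  have hsub : insert x (univ.image c) ⊆ DD P x z := by
    intro y hy
    rw [Finset.mem_insert] at hy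
    rcases hy with rfl | hy
    · exact hx
    · obtain ⟨i, -, rfl⟩ := Finset.mem_image.1 hy
      exact hmem i
  have h7 := Finset.card_le_card hsub
  rw [Finset.card_insert_of_notMem hxn, Finset.card_image_of_injective _ hinj, Finset.card_univ,
    Fintype.card_fin] at h7
  omega

theorem DD_sq {P : Subgroup (Perm Ω)} (hP : Prim P) {a b : Ω} (hab : a ≠ b)
    (x y : Ω) : (DD P x y).card ≤ (DD P a b).card ^ 2 := by
  classical
  have hex := connected hP hab x y
  have h1 := Nat.find_spec hex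
  have h2 : ∀ i < Nat.find hex, ¬ Rch P a b i x y := fun i hi => Nat.find_min hex hi
  have h3 := DD_le h1
  rcases dist_lt hab h1 h2 with h | h
  · calc (DD P x y).card ≤ Nat.find hex * (DD P a b).card := h3
      _ ≤ (DD P a b).card * (DD P a b).card := Nat.mul_le_mul_right _ (by omega)
      _ = _ := (sq _).symm
  · rw [h, Nat.zero_mul] at h3
    omega

theorem count {P : Subgroup (Perm Ω)} {M k : ℕ} (hM : ∀ x y, (DD P x y).card ≤ M)
    (hk : ∀ c x, (Oc P c x).card ≤ k) (hn : 0 < Fintype.card Ω) : Fintype.card Ω ≤ M + k := by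
  classical
  obtain ⟨n, hn'⟩ : ∃ n, n = Fintype.card Ω := ⟨_, rfl⟩
  rw [← hn'] at hn ⊢
  have h1 : ∑ c : Ω, ∑ x : Ω, ∑ y : Ω, ((if c ∈ DD P x y then 1 else 0) +
      (if y ∈ Oc P c x then 1 else 0) : ℕ) = n * (n * n) := by
    have h2 : ∀ c x y : Ω, ((if c ∈ DD P x y then 1 else 0) +
        (if y ∈ Oc P c x then 1 else 0) : ℕ) = 1 := by
      intro c x y
      by_cases h : c ∈ DD P x y
      · rw [if_pos h, if_neg]
        rw [mem_DD] at h
        rwa [mem_Oc]
      · rw [if_neg h, if_pos]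
        rw [mem_DD, not_not] at h
        rwa [mem_Oc]
    simp only [h2, Finset.sum_const, Finset.card_univ, smul_eq_mul, mul_one, ← hn']
  simp only [Finset.sum_add_distrib] at h1
  have h3 : ∑ c : Ω, ∑ x : Ω, ∑ y : Ω, (if y ∈ Oc P c x then 1 else 0 : ℕ) ≤ n * (n * k) := by
    have h4 : ∀ c x : Ω, ∑ y : Ω, (if y ∈ Oc P c x then 1 else 0 : ℕ) ≤ k := by
      intro c x
      rw [Finset.sum_ite_mem, Finset.univ_inter, Finset.sum_const, smul_eq_mul, mul_one]
      exact hk c x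
    calc _ ≤ ∑ c : Ω, ∑ x : Ω, k :=
          Finset.sum_le_sum fun c _ => Finset.sum_le_sum fun x _ => h4 c x
      _ = _ := by simp [← hn']
  have h5 : ∑ c : Ω, ∑ x : Ω, ∑ y : Ω, (if c ∈ DD P x y then 1 else 0 : ℕ) ≤ n * (n * M) := by
    have h6 : ∑ c : Ω, ∑ x : Ω, ∑ y : Ω, (if c ∈ DD P x y then 1 else 0 : ℕ) =
        ∑ x : Ω, ∑ y : Ω, ∑ c : Ω, (if c ∈ DD P x y then 1 else 0 : ℕ) := by
      rw [Finset.sum_comm]
      exact Finset.sum_congr rfl fun x _ => Finset.sum_comm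
    rw [h6]
    have h4 : ∀ x y : Ω, ∑ c : Ω, (if c ∈ DD P x y then 1 else 0 : ℕ) ≤ M := by
      intro x y
      rw [Finset.sum_ite_mem, Finset.univ_inter, Finset.sum_const, smul_eq_mul, mul_one]
      exact hM x y
    calc _ ≤ ∑ x : Ω, ∑ y : Ω, M :=
          Finset.sum_le_sum fun c _ => Finset.sum_le_sum fun x _ => h4 c x
      _ = _ := by simp [← hn']
  have h7 : n * (n * n) ≤ n * (n * (M + k)) := by
    rw [← h1, Nat.mul_add, Nat.mul_add]
    omega
  exact Nat.le_of_mul_le_mul_left (Nat.le_of_mul_le_mul_left h7 hn) hn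

/-- the large orbit of a point stabilizer -/
theorem orbit_sq {P : Subgroup (Perm Ω)} (hP : Prim P)
    (h2 : ¬ ∀ a b c d : Ω, a ≠ b → c ≠ d → ∃ g ∈ P, g a = c ∧ g b = d)
    (c0 x0 : Ω) (hc : c0 ∉ Oc P c0 x0) :
    Fintype.card Ω ≤ (Fintype.card Ω - (Oc P c0 x0).card) ^ 2 := by
  classical
  have htr := hP.1
  -- a point outside
  obtain ⟨y, hyc, hyO⟩ : ∃ y, y ≠ c0 ∧ y ∉ Oc P c0 x0 := by
    by_contra hcon
    push Not at hcon
    apply h2
    intro a b c d hab hcd
    obtain ⟨g, hg, hga⟩ := htr a c0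
    obtain ⟨h, hh, hhc⟩ := htr c c0
    have h3 : g b ≠ c0 := fun h => hab (g.injective (hga.trans h.symm))
    have h4 : h d ≠ c0 := fun h' => hcd (h.injective (hhc.trans h'.symm))
    obtain ⟨u, hu, u1, u2⟩ := mem_Oc.1 (hcon _ h3)
    obtain ⟨v, hv, v1, v2⟩ := mem_Oc.1 (hcon _ h4)
    refine ⟨h⁻¹ * (v * u⁻¹) * g, P.mul_mem (P.mul_mem (P.inv_mem hh) (P.mul_mem hv (P.inv_mem hu)))
      hg, ?_, ?_⟩
    · rw [Perm.mul_apply, Perm.mul_apply, Perm.mul_apply, hga]
      have e1 : u⁻¹ c0 = c0 := by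
        conv_lhs => rw [← u1]
        rw [inv_app]
      rw [e1, v1, ← hhc, inv_app]
    · rw [Perm.mul_apply, Perm.mul_apply, Perm.mul_apply, ← u2, inv_app, v2, inv_app]
  -- the complement
  let W : Finset Ω := (univ \ Oc P c0 x0).erase c0
  obtain ⟨m, hm⟩ : ∃ m, m = Fintype.card Ω - (Oc P c0 x0).card := ⟨_, rfl⟩
  have hWm : W.card + 1 = m := by
    have h3 : c0 ∈ univ \ Oc P c0 x0 := Finset.mem_sdiff.2 ⟨mem_univ _, hc⟩
    have h4 : (univ \ Oc P c0 x0).card = m := by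
      rw [hm, Finset.card_sdiff_of_subset (Finset.subset_univ _), Finset.card_univ]
    have h5 := Finset.card_erase_of_mem h3
    have h6 : 0 < (univ \ Oc P c0 x0).card := Finset.card_pos.2 ⟨_, h3⟩
    show ((univ \ Oc P c0 x0).erase c0).card + 1 = m
    omega
  have hmemW : ∀ z, z ∈ W ↔ z ≠ c0 ∧ z ∉ Oc P c0 x0 := by
    intro z
    show z ∈ (univ \ Oc P c0 x0).erase c0 ↔ _
    rw [Finset.mem_erase, Finset.mem_sdiff]
    simp
  have hx0 : x0 ∈ Oc P c0 x0 := mem_Oc.2 ⟨1, P.one_mem, rfl, rfl⟩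
  -- the out-neighbours of `c0`
  have hOy : Oc P c0 y ⊆ W := by
    intro z hz
    obtain ⟨g, hg, g1, g2⟩ := mem_Oc.1 hz
    rw [hmemW]
    constructor
    · intro h
      apply hyc
      apply g.injective
      rw [g2, g1, h]
    · intro h
      obtain ⟨k, hk, k1, k2⟩ := mem_Oc.1 h
      apply hyO
      rw [mem_Oc]
      refine ⟨g⁻¹ * k, P.mul_mem (P.inv_mem hg) hk, ?_, ?_⟩
      · rw [Perm.mul_apply, k1]
        conv_lhs => rw [← g1]
        rw [inv_app]
      · rw [Perm.mul_apply, k2, ← g2, inv_app]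
  have hcy : c0 ≠ y := fun h => hyc h.symm
  -- the distance of the orbit
  have hex := connected hP hcy c0 x0
  obtain ⟨j, hj⟩ : ∃ j, j = Nat.find hex := ⟨_, rfl⟩
  have hj1 : Rch P c0 y j c0 x0 := hj ▸ Nat.find_spec hex
  have hj2 : ∀ i < j, ¬ Rch P c0 y i c0 x0 := fun i hi => Nat.find_min hex (hj ▸ hi)
  have hj0 : 2 ≤ j := by
    by_contra hcon
    have : j = 0 ∨ j = 1 := by omega
    rcases this with h | h
    · rw [h] at hj1
      have h3 : c0 = x0 := hj1
      exact hc (h3 ▸ hx0)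
    · rw [h] at hj1
      obtain ⟨z, ⟨g, hg, g1, g2⟩, h3⟩ := hj1
      have h4 : z = x0 := h3
      have h5 : x0 ∈ Oc P c0 y := mem_Oc.2 ⟨g, hg, g1, g2.trans h4⟩
      exact ((hmemW _).1 (hOy h5)).2 hx0
  -- the distance is the same on the orbit
  have hall : ∀ z ∈ Oc P c0 x0, Rch P c0 y j c0 z ∧ ∀ i < j, ¬ Rch P c0 y i c0 z := by
    intro z hz
    obtain ⟨g, hg, g1, g2⟩ := mem_Oc.1 hz
    constructor
    · have := Rch_map hg hj1
      rwa [g1, g2] at this
    · intro i hi h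
      have h3 := Rch_map (P.inv_mem hg) h
      have e1 : g⁻¹ c0 = c0 := by
        conv_lhs => rw [← g1]
        rw [inv_app]
      have e2 : g⁻¹ z = x0 := by rw [← g2, inv_app]
      rw [e1, e2] at h3
      exact hj2 i hi h3
  -- predecessors
  have hpred : Oc P c0 x0 ⊆ W.biUnion fun w => univ.filter fun z => ∃ g ∈ P, g c0 = w ∧ g y = z := by
    intro z hz
    obtain ⟨h3, h4⟩ := hall z hz
    have h5 : j = (j - 1) + 1 := by omega
    rw [h5] at h3
    obtain ⟨w, h6, z', h7, h8⟩ := Rch_split h3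
    have h9 : z' = z := h8
    rw [h9] at h7
    rw [Finset.mem_biUnion]
    refine ⟨w, ?_, ?_⟩
    · rw [hmemW]
      constructor
      · rintro rfl
        have h10 : Rch P w y 1 w z := ⟨z, h7, rfl⟩
        exact h4 1 (by omega) h10
      · intro hw
        exact (hall w hw).2 (j - 1) (by omega) h6
    · rw [Finset.mem_filter]
      exact ⟨mem_univ _, h7⟩
  have hout : ∀ w ∈ W, (univ.filter fun z => ∃ g ∈ P, g c0 = w ∧ g y = z).card ≤ W.card := by
    intro w _
    obtain ⟨k, hk, hkw⟩ := htr c0 w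
    refine le_trans ?_ (Finset.card_le_card hOy)
    have h3 : (univ.filter fun z => ∃ g ∈ P, g c0 = w ∧ g y = z) ⊆ (Oc P c0 y).image k := by
      intro z hz
      rw [Finset.mem_filter] at hz
      obtain ⟨-, g, hg, g1, g2⟩ := hz
      rw [Finset.mem_image]
      refine ⟨k⁻¹ z, ?_, app_inv k z⟩
      rw [mem_Oc]
      refine ⟨k⁻¹ * g, P.mul_mem (P.inv_mem hk) hg, ?_, ?_⟩
      · rw [Perm.mul_apply, g1, ← hkw, inv_app]
      · rw [Perm.mul_apply, g2]
    exact (Finset.card_le_card h3).trans Finset.card_image_le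
  have hk : (Oc P c0 x0).card ≤ W.card * W.card :=
    (Finset.card_le_card hpred).trans (Finset.card_biUnion_le_card_mul _ _ _ hout)
  have hle : (Oc P c0 x0).card ≤ Fintype.card Ω := Finset.card_le_univ _
  have hn : Fintype.card Ω = m + (Oc P c0 x0).card := by omega
  rw [← hm, hn, ← hWm]
  nlinarith

/-- **(U)** -/
theorem main {P : Subgroup (Perm Ω)} (hP : Prim P)
    (h2 : ¬ ∀ a b c d : Ω, a ≠ b → c ≠ d → ∃ g ∈ P, g a = c ∧ g b = d) {a b : Ω} (hab : a ≠ b) :
    Fintype.card Ω ≤ (DD P a b).card ^ 4 := by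
  classical
  have hn : 0 < Fintype.card Ω := Fintype.card_pos_iff.2 ⟨a⟩
  -- the largest orbit
  obtain ⟨p, -, hp⟩ := Finset.exists_max_image (univ : Finset (Ω × Ω))
    (fun p => (Oc P p.1 p.2).card) ⟨(a, b), mem_univ _⟩
  have hmax : ∀ c x, (Oc P c x).card ≤ (Oc P p.1 p.2).card := fun c x => hp (c, x) (mem_univ _)
  have h3 := count (DD_sq hP hab) hmax hn
  have h4 : 2 ≤ (DD P a b).card := by
    have h5 : ({a, b} : Finset Ω) ⊆ DD P a b := by
      intro c hc
      rw [Finset.mem_insert, Finset.mem_singleton] at hc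
      rw [mem_DD]
      rintro ⟨g, hg, g1, g2⟩
      rcases hc with rfl | rfl
      · exact hab (g1.symm.trans g2)
      · exact hab (g.injective (g2.trans g1.symm))
    have h6 := Finset.card_le_card h5
    rwa [Finset.card_pair hab] at h6
  obtain ⟨d, hd⟩ : ∃ d, d = (DD P a b).card := ⟨_, rfl⟩
  rw [← hd] at h3 h4 ⊢
  by_cases hc : p.1 ∈ Oc P p.1 p.2
  · have h5 : (Oc P p.1 p.2).card ≤ 1 := by
      obtain ⟨g, hg, g1, g2⟩ := mem_Oc.1 hc
      have h6 : p.2 = p.1 := g.injective (g2.trans g1.symm)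
      rw [Finset.card_le_one]
      intro u hu v hv
      obtain ⟨k, _, k1, k2⟩ := mem_Oc.1 hu
      obtain ⟨l, _, l1, l2⟩ := mem_Oc.1 hv
      rw [← k2, ← l2, h6, k1, l1]
    have h6 : d ^ 2 + 1 ≤ d ^ 4 := by
      have h7 : 4 ≤ d ^ 2 := by nlinarith
      have h8 : d ^ 4 = d ^ 2 * d ^ 2 := by ring
      rw [h8]
      nlinarith
    omega
  · have h5 := orbit_sq hP h2 p.1 p.2 hc
    have h6 : Fintype.card Ω - (Oc P p.1 p.2).card ≤ d ^ 2 := by omega
    calc Fintype.card Ω ≤ (Fintype.card Ω - (Oc P p.1 p.2).card) ^ 2 := h5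
      _ ≤ (d ^ 2) ^ 2 := Nat.pow_le_pow_left h6 2
      _ = d ^ 4 := by ring

end PR12.S52U

namespace PR12.S52

open Equiv

universe u

/-- the statement of `Sub.uni` -/
theorem uni {Ω : Type u} [Fintype Ω] {G : Subgroup (Perm Ω)} (hP : Prim G) (h2 : ¬ Two G)
    {a b : Ω} (hab : a ≠ b) : Fintype.card Ω ≤ (DD G a b).card ^ 4 := by
  classical
  have h : DD G a b = S52U.DD G a b := by
    ext c
    rw [mem_DD, S52U.mem_DD]
    unfold Same
    simp
  rw [h]
  exact S52U.main hP h2 hab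

end PR12.S52
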